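import Mathlib

set_option autoImplicit false

open MeasureTheory Set Filter Topology

namespace Pool.Agent.PHarm

noncomputable section

abbrev E3 := EuclideanSpace ℝ (Fin 3)

/-- cosine of the polar angle -/
def cth (x : E3) : ℝ := x 2 / ‖x‖

lemma abs_coord_le (x : E3) (i : Fin 3) : |x i| ≤ ‖x‖ := by
  have := EuclideanSpace.norm_eq x
  rw [this]
  apply Real.abs_le_sqrt
  have h : (x i) ^ 2 = ‖x i‖ ^ 2 := by rw [Real.norm_eq_abs, sq_abs]
  rw [h]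
  exact Finset.single_le_sum (f := fun j => ‖x j‖ ^ 2) (fun j _ => by positivity) (Finset.mem_univ i)

lemma cth_mem (x : E3) : cth x ∈ Icc (-1 : ℝ) 1 := by
  unfold cth
  have h := abs_coord_le x 2
  rw [mem_Icc, ← abs_le]
  rw [abs_div, abs_norm]
  exact div_le_one_of_le₀ h (norm_nonneg _)

lemma hasFDerivAt_norm' {x : E3} (hx : x ≠ 0) :
    HasFDerivAt (fun y : E3 => ‖y‖) (‖x‖⁻¹ • innerSL ℝ x) x := by
  have h1 := (hasStrictFDerivAt_norm_sq x).hasFDerivAt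
  have hn : ‖x‖ ≠ 0 := norm_ne_zero_iff.mpr hx
  have h2 := h1.sqrt (by positivity)
  have h3 : (fun y : E3 => Real.sqrt (‖y‖ ^ 2)) = fun y => ‖y‖ := by
    funext y
    exact Real.sqrt_sq (norm_nonneg y)
  rw [h3] at h2
  refine h2.congr_fderiv ?_
  rw [Real.sqrt_sq (norm_nonneg x)]
  ext v
  simp
  field_simp

lemma hasFDerivAt_coord (i : Fin 3) (x : E3) :
    HasFDerivAt (fun y : E3 => y i) (EuclideanSpace.proj i : E3 →L[ℝ] ℝ) x :=
  (EuclideanSpace.proj i : E3 →L[ℝ] ℝ).hasFDerivAt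

/-- derivative of the cosine in direction v -/
def dcth (x v : E3) : ℝ := v 2 / ‖x‖ - x 2 * inner ℝ x v / ‖x‖ ^ 3

/-- derivative of the cosine as a linear map -/
def Dcth (x : E3) : E3 →L[ℝ] ℝ :=
  ‖x‖⁻¹ • (EuclideanSpace.proj 2 : E3 →L[ℝ] ℝ) - (x 2 / ‖x‖ ^ 3) • innerSL ℝ x

lemma Dcth_apply (x v : E3) : Dcth x v = dcth x v := by
  unfold Dcth dcth
  simp
  ring

lemma hasFDerivAt_cth {x : E3} (hx : x ≠ 0) : HasFDerivAt cth (Dcth x) x := by
  have hn : ‖x‖ ≠ 0 := norm_ne_zero_iff.mpr hx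
  have h1 := (hasFDerivAt_coord 2 x).mul ((hasDerivAt_inv hn).comp_hasFDerivAt x (hasFDerivAt_norm' hx))
  have h3 := h1
  rw [show (fun y : E3 => y 2) * (Inv.inv ∘ fun y : E3 => ‖y‖) = cth from by
    funext y
    simp [cth, div_eq_mul_inv]] at h3
  refine h3.congr_fderiv ?_
  ext v
  rw [Dcth_apply]
  unfold dcth
  simp
  field_simp
  ring

lemma hasFDerivAt_norm_pow {x : E3} (hx : x ≠ 0) (s : ℝ) :
    HasFDerivAt (fun y : E3 => ‖y‖ ^ s) ((s * ‖x‖ ^ (s - 2)) • innerSL ℝ x) x := by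
  have hn : 0 < ‖x‖ := norm_pos_iff.mpr hx
  have h1 := (Real.hasDerivAt_rpow_const (p := s) (Or.inl hn.ne')).comp_hasFDerivAt x (hasFDerivAt_norm' hx)
  refine h1.congr_fderiv ?_
  rw [smul_smul]
  congr 1
  rw [show s - 2 = (s - 1) - 1 by ring, Real.rpow_sub_one hn.ne' (s - 1)]
  ring

/-- homogeneous function of degree s with profile h -/
def hom (s : ℝ) (h : ℝ → ℝ) (x : E3) : ℝ := ‖x‖ ^ s * h (cth x)

/-- its derivative -/
def Dhom (s : ℝ) (h h' : ℝ → ℝ) (x : E3) : E3 →L[ℝ] ℝ :=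
  (s * ‖x‖ ^ (s - 2) * h (cth x)) • innerSL ℝ x + (‖x‖ ^ s * h' (cth x)) • Dcth x

lemma hasFDerivAt_hom {s : ℝ} {h h' : ℝ → ℝ} {x : E3} (hx : x ≠ 0)
    (hh : HasDerivAt h (h' (cth x)) (cth x)) :
    HasFDerivAt (hom s h) (Dhom s h h' x) x := by
  have h1 := (hasFDerivAt_norm_pow hx s).mul (hh.comp_hasFDerivAt x (hasFDerivAt_cth hx))
  have h2 := h1
  refine h2.congr_fderiv ?_
  unfold Dhom
  ext v
  simp
  ring

end

end Pool.Agent.PHarm
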