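import Mathlib
import Pool.Agent.PHarm.Hom

set_option autoImplicit false

open MeasureTheory Set Filter Topology

namespace Pool.Agent.PHarm

noncomputable section

/-- standard basis vector -/
abbrev eb (i : Fin 3) : E3 := EuclideanSpace.single i (1 : ℝ)

lemma measurable_cth : Measurable cth := by
  unfold cth
  have h1 : Measurable fun x : E3 => x 2 := by fun_prop
  exact h1.div measurable_norm

lemma measurable_hom (s : ℝ) {h : ℝ → ℝ} (hh : Continuous h) : Measurable (hom s h) := by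
  unfold hom
  exact (measurable_norm.pow_const s).mul (hh.measurable.comp measurable_cth)

lemma inner_eb (x : E3) (i : Fin 3) : inner ℝ x (eb i) = x i := by
  unfold eb
  rw [EuclideanSpace.inner_single_right]
  simp

lemma dcth_eb (x : E3) (i : Fin 3) :
    dcth x (eb i) = (if i = 2 then 1 else 0) / ‖x‖ - x 2 * x i / ‖x‖ ^ 3 := by
  unfold dcth
  rw [inner_eb]
  congr 2
  simp [eb, eq_comm]

lemma Dhom_apply (s : ℝ) (h h' : ℝ → ℝ) (x v : E3) :
    Dhom s h h' x v = s * ‖x‖ ^ (s - 2) * h (cth x) * inner ℝ x v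
      + ‖x‖ ^ s * h' (cth x) * dcth x v := by
  unfold Dhom
  simp [Dcth_apply]

/-- components of the vector field -/
def Vf (s : ℝ) (H B : ℝ → ℝ) (i : Fin 3) (x : E3) : ℝ :=
  hom (s - 1) H x * x i + (if i = 2 then hom s B x else 0)

/-- their partial derivatives -/
def dV (s : ℝ) (H H' B B' : ℝ → ℝ) (i : Fin 3) (x : E3) : ℝ :=
  hom (s - 1) H x + x i * Dhom (s - 1) H H' x (eb i) + (if i = 2 then Dhom s B B' x (eb i) else 0)

/-- bound of a continuous function on [-1,1] -/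
lemma exists_bound {h : ℝ → ℝ} (hh : Continuous h) : ∃ C, 0 ≤ C ∧ ∀ c ∈ Icc (-1:ℝ) 1, |h c| ≤ C := by
  obtain ⟨C, hC⟩ := isCompact_Icc.exists_bound_of_continuousOn (hh.continuousOn (s := Icc (-1:ℝ) 1))
  refine ⟨max C 0, le_max_right _ _, fun c hc => (hC c hc).trans (le_max_left _ _)⟩

lemma abs_hom_le {s : ℝ} {h : ℝ → ℝ} {C : ℝ} (hC : ∀ c ∈ Icc (-1:ℝ) 1, |h c| ≤ C) (x : E3) :
    |hom s h x| ≤ C * ‖x‖ ^ s := by
  unfold hom
  rw [abs_mul, abs_of_nonneg (Real.rpow_nonneg (norm_nonneg x) s), mul_comm]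
  exact mul_le_mul_of_nonneg_right (hC _ (cth_mem x)) (Real.rpow_nonneg (norm_nonneg x) s)

lemma Vf_zero {s : ℝ} (hs : 1 < s) (H B : ℝ → ℝ) (i : Fin 3) : Vf s H B i 0 = 0 := by
  unfold Vf hom
  simp only [norm_zero]
  rw [Real.zero_rpow (by linarith), Real.zero_rpow (by linarith)]
  simp

lemma rpow_pred_mul {r : ℝ} (hr : 0 ≤ r) {s : ℝ} (hs : 1 < s) : r ^ (s - 1) * r = r ^ s := by
  rcases hr.eq_or_lt with h | h
  · rw [← h, Real.zero_rpow (by linarith), Real.zero_rpow (by linarith)]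
    ring
  · rw [Real.rpow_sub_one h.ne']
    field_simp

lemma abs_Vf_le {s : ℝ} (hs : 1 < s) {H B : ℝ → ℝ} {C : ℝ}
    (hH : ∀ c ∈ Icc (-1:ℝ) 1, |H c| ≤ C) (hB : ∀ c ∈ Icc (-1:ℝ) 1, |B c| ≤ C) (i : Fin 3) (x : E3) :
    |Vf s H B i x| ≤ 2 * C * ‖x‖ ^ s := by
  have hC : 0 ≤ C := (abs_nonneg _).trans (hH 0 (by constructor <;> norm_num))
  unfold Vf
  refine (abs_add_le _ _).trans ?_
  have h1 : |hom (s - 1) H x * x i| ≤ C * ‖x‖ ^ s := by
    rw [abs_mul]
    calc |hom (s - 1) H x| * |x i| ≤ (C * ‖x‖ ^ (s - 1)) * ‖x‖ :=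
          mul_le_mul (abs_hom_le hH x) (abs_coord_le x i) (abs_nonneg _)
            (mul_nonneg hC (Real.rpow_nonneg (norm_nonneg x) _))
      _ = C * (‖x‖ ^ (s - 1) * ‖x‖) := by ring
      _ = C * ‖x‖ ^ s := by rw [rpow_pred_mul (norm_nonneg x) hs]
  have h2 : |if i = 2 then hom s B x else 0| ≤ C * ‖x‖ ^ s := by
    split_ifs
    · exact abs_hom_le hB x
    · rw [abs_zero]
      exact mul_nonneg hC (Real.rpow_nonneg (norm_nonneg x) _)
  linarith

lemma isLittleO_rpow {s : ℝ} (hs : 1 < s) : (fun x : E3 => ‖x‖ ^ s) =o[𝓝 0] fun x : E3 => x := by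
  rw [Asymptotics.isLittleO_iff]
  intro c hc
  have h1 : Tendsto (fun x : E3 => ‖x‖ ^ (s - 1)) (𝓝 0) (𝓝 0) := by
    have h := (continuous_norm (E := E3)).tendsto 0
    rw [norm_zero] at h
    have h2 := h.rpow_const (p := s - 1) (Or.inr (by linarith))
    rwa [Real.zero_rpow (by linarith)] at h2
  filter_upwards [h1.eventually (gt_mem_nhds hc)] with x hx
  rw [Real.norm_eq_abs, abs_of_nonneg (Real.rpow_nonneg (norm_nonneg x) _),
    ← rpow_pred_mul (norm_nonneg x) hs]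
  exact mul_le_mul_of_nonneg_right hx.le (norm_nonneg x)

lemma hasFDerivAt_zero_of_bound {s : ℝ} (hs : 1 < s) {f : E3 → ℝ} {C : ℝ}
    (h : ∀ x, |f x| ≤ C * ‖x‖ ^ s) : HasFDerivAt f (0 : E3 →L[ℝ] ℝ) 0 := by
  have h0 : f 0 = 0 := by
    have := h 0
    rw [norm_zero, Real.zero_rpow (by linarith), mul_zero] at this
    exact abs_nonpos_iff.mp this
  rw [hasFDerivAt_iff_isLittleO]
  simp only [h0, sub_zero, zero_apply]
  refine Asymptotics.IsBigO.trans_isLittleO ?_ (isLittleO_rpow hs)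
  apply Asymptotics.IsBigO.of_bound C
  filter_upwards with x
  rw [Real.norm_eq_abs, Real.norm_eq_abs, abs_of_nonneg (Real.rpow_nonneg (norm_nonneg x) _)]
  exact h x

lemma dV_zero {s : ℝ} (hs : 1 < s) (H H' B B' : ℝ → ℝ) (i : Fin 3) :
    dV s H H' B B' i 0 = 0 := by
  unfold dV
  rw [Dhom_apply, Dhom_apply]
  unfold hom
  simp only [norm_zero, inner_zero_left, mul_zero]
  rw [Real.zero_rpow (by linarith), Real.zero_rpow (by linarith)]
  simp

lemma hasLineDerivAt_Vf {s : ℝ} (hs : 1 < s) {H H' B B' : ℝ → ℝ} (hHc : Continuous H)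
    (hBc : Continuous B)
    (hH : ∀ c, HasDerivAt H (H' c) c) (hB : ∀ c, HasDerivAt B (B' c) c) (i : Fin 3) (x : E3) :
    HasLineDerivAt ℝ (Vf s H B i) (dV s H H' B B' i x) x (eb i) := by
  by_cases hx : x = 0
  · subst hx
    obtain ⟨C1, hC1, hC1'⟩ := exists_bound hHc
    obtain ⟨C2, hC2, hC2'⟩ := exists_bound hBc
    have hb : ∀ x, |Vf s H B i x| ≤ 2 * max C1 C2 * ‖x‖ ^ s := fun x =>
      abs_Vf_le hs (fun c hc => (hC1' c hc).trans (le_max_left _ _))
        (fun c hc => (hC2' c hc).trans (le_max_right _ _)) i x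
    have h1 := (hasFDerivAt_zero_of_bound hs hb).hasLineDerivAt (eb i)
    rw [dV_zero hs]
    simpa using h1
  · have h1 := (hasFDerivAt_hom (s := s - 1) hx (hH (cth x))).mul (hasFDerivAt_coord i x)
    have h2 : HasFDerivAt (fun y => if i = 2 then hom s B y else 0)
        (if i = 2 then Dhom s B B' x else 0) x := by
      split_ifs
      · exact hasFDerivAt_hom hx (hB (cth x))
      · exact hasFDerivAt_const _ _
    have h3 := (h1.add h2).hasLineDerivAt (eb i)
    have e : dV s H H' B B' i x = (hom (s - 1) H x • (EuclideanSpace.proj i : E3 →L[ℝ] ℝ)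
        + x i • Dhom (s - 1) H H' x + if i = 2 then Dhom s B B' x else 0) (eb i) := by
      unfold dV
      by_cases hi : i = 2
      · simp [hi]
      · simp [hi]
    rw [e]
    exact h3

/-- divergence formula -/
lemma sum_dV {s : ℝ} (hs : 1 < s) {H H' B B' : ℝ → ℝ} {x : E3}
    (hrel : ∀ c ∈ Icc (-1:ℝ) 1, (s + 2) * H c + s * c * B c + (1 - c ^ 2) * B' c = 0) :
    ∑ i, dV s H H' B B' i x = 0 := by
  by_cases hx : x = 0
  · subst hx
    apply Finset.sum_eq_zero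
    intro i _
    exact dV_zero hs _ _ _ _ i
  · have hn : 0 < ‖x‖ := norm_pos_iff.mpr hx
    have hc := hrel (cth x) (cth_mem x)
    have hsq : x 0 ^ 2 + x 1 ^ 2 + x 2 ^ 2 = ‖x‖ ^ 2 := by
      rw [EuclideanSpace.norm_sq_eq]
      simp [Fin.sum_univ_three]
    have hct : cth x * ‖x‖ = x 2 := by
      unfold cth
      field_simp
    unfold dV
    simp only [Dhom_apply, dcth_eb, inner_eb]
    rw [Fin.sum_univ_three]
    simp only [Fin.isValue, Fin.reduceEq, if_false, if_pos]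
    unfold hom
    have p1 : ‖x‖ ^ s = ‖x‖ ^ (s - 1) * ‖x‖ := (rpow_pred_mul hn.le hs).symm
    have p2 : ‖x‖ ^ (s - 2) = ‖x‖ ^ (s - 1) / ‖x‖ := by
      rw [show s - 2 = (s - 1) - 1 by ring, Real.rpow_sub_one hn.ne']
    have p3 : ‖x‖ ^ (s - 1 - 2) = ‖x‖ ^ (s - 1) / ‖x‖ ^ 2 := by
      rw [show s - 1 - 2 = (s - 1) - (2:ℕ) by norm_num, Real.rpow_sub_natCast hn.ne']
    rw [p1, p2, p3]
    set r := ‖x‖ with hr
    set A := r ^ (s - 1) with hA
    set h := H (cth x)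
    set h' := H' (cth x)
    set b := B (cth x)
    set b' := B' (cth x)
    set c := cth x with hcdef
    rw [← hct]
    have h01 : x 0 ^ 2 + x 1 ^ 2 = r ^ 2 - (c * r) ^ 2 := by rw [hct]; linarith
    have e : A * h + x 0 * ((s - 1) * (A / r ^ 2) * h * x 0 + A * h' * (0 / r - c * r * x 0 / r ^ 3)) + 0 +
        (A * h + x 1 * ((s - 1) * (A / r ^ 2) * h * x 1 + A * h' * (0 / r - c * r * x 1 / r ^ 3)) + 0) +
        (A * h + c * r * ((s - 1) * (A / r ^ 2) * h * (c * r) + A * h' * (1 / r - c * r * (c * r) / r ^ 3))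
          + (s * (A / r) * b * (c * r) + A * r * b' * (1 / r - c * r * (c * r) / r ^ 3)))
        = A * ((s + 2) * h + s * c * b + (1 - c ^ 2) * b') := by
      have e1 : A * h + x 0 * ((s - 1) * (A / r ^ 2) * h * x 0 + A * h' * (0 / r - c * r * x 0 / r ^ 3)) + 0 +
        (A * h + x 1 * ((s - 1) * (A / r ^ 2) * h * x 1 + A * h' * (0 / r - c * r * x 1 / r ^ 3)) + 0)
        = 2 * A * h + (x 0 ^ 2 + x 1 ^ 2) * ((s - 1) * (A / r ^ 2) * h - A * h' * (c * r / r ^ 3)) := by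
        ring
      rw [e1, h01]
      field_simp
      ring
    rw [e, hc, mul_zero]

end

end Pool.Agent.PHarm
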