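import Mathlib
import Pool.Agent.PHarm.Div

set_option autoImplicit false

open MeasureTheory Set Filter Topology

namespace Pool.Agent.PHarm

noncomputable section

lemma integrable_mul_of_bound {f φ : E3 → ℝ} {C a : ℝ} (ha : 0 ≤ a) (hf : Measurable f)
    (hb : ∀ x, |f x| ≤ C * ‖x‖ ^ a) (hφ : Continuous φ) (hc : HasCompactSupport φ) :
    Integrable (fun x => f x * φ x) := by
  obtain ⟨R, hR⟩ := hc.isCompact.isBounded.subset_closedBall (0 : E3)
  have hi : Integrable (fun x => |C| * |R| ^ a * |φ x|) := by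
    apply Continuous.integrable_of_hasCompactSupport
    · exact continuous_const.mul hφ.abs
    · exact (hc.norm).mul_left
  refine hi.mono' (hf.mul hφ.measurable).aestronglyMeasurable ?_
  filter_upwards with x
  rw [Real.norm_eq_abs, abs_mul]
  by_cases hx : φ x = 0
  · rw [hx]; simp
  · have hxs : x ∈ tsupport φ := subset_tsupport φ hx
    have hxR : ‖x‖ ≤ R := by simpa using hR hxs
    apply mul_le_mul_of_nonneg_right _ (abs_nonneg _)
    calc |f x| ≤ C * ‖x‖ ^ a := hb x
      _ ≤ |C| * ‖x‖ ^ a :=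
        mul_le_mul_of_nonneg_right (le_abs_self C) (Real.rpow_nonneg (norm_nonneg x) a)
      _ ≤ |C| * |R| ^ a := by
        apply mul_le_mul_of_nonneg_left _ (abs_nonneg C)
        exact Real.rpow_le_rpow (norm_nonneg x) (hxR.trans (le_abs_self R)) ha

lemma abs_dcth_le {x : E3} (hx : x ≠ 0) (i : Fin 3) : |dcth x (eb i)| ≤ 2 / ‖x‖ := by
  have hn : 0 < ‖x‖ := norm_pos_iff.mpr hx
  rw [dcth_eb]
  refine (abs_sub _ _).trans ?_
  have h1 : |(if i = 2 then (1:ℝ) else 0) / ‖x‖| ≤ 1 / ‖x‖ := by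
    rw [abs_div, abs_norm]
    apply div_le_div_of_nonneg_right _ hn.le
    split_ifs <;> simp
  have h2 : |x 2 * x i / ‖x‖ ^ 3| ≤ 1 / ‖x‖ := by
    rw [abs_div, abs_mul, abs_of_pos (by positivity : 0 < ‖x‖ ^ 3), div_le_div_iff₀ (by positivity) hn]
    have a1 := abs_coord_le x 2
    have a2 := abs_coord_le x i
    have : |x 2| * |x i| ≤ ‖x‖ * ‖x‖ := mul_le_mul a1 a2 (abs_nonneg _) hn.le
    nlinarith
  have : (2:ℝ) / ‖x‖ = 1 / ‖x‖ + 1 / ‖x‖ := by ring
  linarith

lemma abs_dV_le {s : ℝ} (hs : 1 < s) {H H' B B' : ℝ → ℝ} {C : ℝ}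
    (hH : ∀ c ∈ Icc (-1:ℝ) 1, |H c| ≤ C) (hH' : ∀ c ∈ Icc (-1:ℝ) 1, |H' c| ≤ C)
    (hB : ∀ c ∈ Icc (-1:ℝ) 1, |B c| ≤ C) (hB' : ∀ c ∈ Icc (-1:ℝ) 1, |B' c| ≤ C)
    (i : Fin 3) (x : E3) :
    |dV s H H' B B' i x| ≤ (C * (2 * s + 4)) * ‖x‖ ^ (s - 1) := by
  have hC : 0 ≤ C := (abs_nonneg _).trans (hH 0 (by constructor <;> norm_num))
  by_cases hx : x = 0
  · subst hx
    rw [dV_zero hs, abs_zero]
    exact mul_nonneg (by positivity) (Real.rpow_nonneg (norm_nonneg _) _)
  · have hn : 0 < ‖x‖ := norm_pos_iff.mpr hx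
    have hc := cth_mem x
    have p1 : ‖x‖ ^ s = ‖x‖ ^ (s - 1) * ‖x‖ := (rpow_pred_mul hn.le hs).symm
    have p2 : ‖x‖ ^ (s - 2) = ‖x‖ ^ (s - 1) / ‖x‖ := by
      rw [show s - 2 = (s - 1) - 1 by ring, Real.rpow_sub_one hn.ne']
    have p3 : ‖x‖ ^ (s - 1 - 2) = ‖x‖ ^ (s - 1) / ‖x‖ ^ 2 := by
      rw [show s - 1 - 2 = (s - 1) - (2:ℕ) by norm_num, Real.rpow_sub_natCast hn.ne']
    set A := ‖x‖ ^ (s - 1) with hA
    have hA0 : 0 ≤ A := Real.rpow_nonneg (norm_nonneg x) _
    have a1 := abs_coord_le x i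
    have d1 := abs_dcth_le hx i
    have t1 : |hom (s - 1) H x| ≤ C * A := abs_hom_le hH x
    have t2 : |x i * Dhom (s - 1) H H' x (eb i)| ≤ C * (s + 1) * A := by
      rw [Dhom_apply, inner_eb, p3, abs_mul]
      have u1 : |(s - 1) * (A / ‖x‖ ^ 2) * H (cth x) * x i| ≤ (s - 1) * (A / ‖x‖ ^ 2) * C * ‖x‖ := by
        rw [abs_mul, abs_mul, abs_of_nonneg (mul_nonneg (by linarith : 0 ≤ s - 1) (by positivity : 0 ≤ A / ‖x‖ ^ 2))]
        apply mul_le_mul _ a1 (abs_nonneg _)
        · exact mul_nonneg (mul_nonneg (by linarith) (by positivity)) hC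
        · exact mul_le_mul_of_nonneg_left (hH _ hc) (mul_nonneg (by linarith) (by positivity))
      have u2 : |A * H' (cth x) * dcth x (eb i)| ≤ A * C * (2 / ‖x‖) := by
        rw [abs_mul, abs_mul, abs_of_nonneg hA0]
        apply mul_le_mul _ d1 (abs_nonneg _) (mul_nonneg hA0 hC)
        exact mul_le_mul_of_nonneg_left (hH' _ hc) hA0
      have u3 : |(s - 1) * (A / ‖x‖ ^ 2) * H (cth x) * x i + A * H' (cth x) * dcth x (eb i)|
          ≤ (s - 1) * (A / ‖x‖ ^ 2) * C * ‖x‖ + A * C * (2 / ‖x‖) :=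
        (abs_add_le _ _).trans (add_le_add u1 u2)
      calc |x i| * |(s - 1) * (A / ‖x‖ ^ 2) * H (cth x) * x i + A * H' (cth x) * dcth x (eb i)|
          ≤ ‖x‖ * ((s - 1) * (A / ‖x‖ ^ 2) * C * ‖x‖ + A * C * (2 / ‖x‖)) :=
            mul_le_mul a1 u3 (abs_nonneg _) hn.le
        _ = C * (s + 1) * A := by field_simp; ring
    have t3 : |if i = 2 then Dhom s B B' x (eb i) else 0| ≤ C * (s + 2) * A := by
      split_ifs
      · rw [Dhom_apply, inner_eb, p2, p1]
        refine (abs_add_le _ _).trans ?_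
        have u1 : |s * (A / ‖x‖) * B (cth x) * x i| ≤ s * (A / ‖x‖) * C * ‖x‖ := by
          rw [abs_mul, abs_mul, abs_of_nonneg (mul_nonneg (by linarith : 0 ≤ s) (by positivity : 0 ≤ A / ‖x‖))]
          apply mul_le_mul _ a1 (abs_nonneg _)
          · exact mul_nonneg (mul_nonneg (by linarith) (by positivity)) hC
          · exact mul_le_mul_of_nonneg_left (hB _ hc) (mul_nonneg (by linarith) (by positivity))
        have u2 : |A * ‖x‖ * B' (cth x) * dcth x (eb i)| ≤ A * ‖x‖ * C * (2 / ‖x‖) := by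
          rw [abs_mul, abs_mul, abs_of_nonneg (mul_nonneg hA0 hn.le)]
          apply mul_le_mul _ d1 (abs_nonneg _) (mul_nonneg (mul_nonneg hA0 hn.le) hC)
          exact mul_le_mul_of_nonneg_left (hB' _ hc) (mul_nonneg hA0 hn.le)
        have e : C * (s + 2) * A = s * (A / ‖x‖) * C * ‖x‖ + A * ‖x‖ * C * (2 / ‖x‖) := by
          field_simp
        rw [e]
        exact add_le_add u1 u2
      · rw [abs_zero]
        exact mul_nonneg (mul_nonneg hC (by linarith)) hA0
    unfold dV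
    refine (abs_add_le _ _).trans ?_
    refine (add_le_add ((abs_add_le _ _).trans (add_le_add t1 t2)) t3).trans ?_
    have : (C * (2 * s + 4)) * A = C * A + C * (s + 1) * A + C * (s + 2) * A := by ring
    rw [this]

lemma measurable_dcth_eb (i : Fin 3) : Measurable fun x : E3 => dcth x (eb i) := by
  have e : (fun x : E3 => dcth x (eb i)) =
      fun x : E3 => (if i = 2 then 1 else 0) / ‖x‖ - x 2 * x i / ‖x‖ ^ 3 := by
    funext x; exact dcth_eb x i
  rw [e]
  have h1 : Measurable fun x : E3 => x 2 := by fun_prop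
  have h2 : Measurable fun x : E3 => x i := by fun_prop
  exact (measurable_const.div measurable_norm).sub ((h1.mul h2).div (measurable_norm.pow_const 3))

lemma measurable_Dhom (s : ℝ) {h h' : ℝ → ℝ} (hh : Continuous h) (hh' : Continuous h') (i : Fin 3) :
    Measurable fun x : E3 => Dhom s h h' x (eb i) := by
  have e : (fun x : E3 => Dhom s h h' x (eb i)) = fun x : E3 =>
      s * ‖x‖ ^ (s - 2) * h (cth x) * x i + ‖x‖ ^ s * h' (cth x) * dcth x (eb i) := by
    funext x; rw [Dhom_apply, inner_eb]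
  rw [e]
  have h2 : Measurable fun x : E3 => x i := by fun_prop
  exact (((measurable_const.mul (measurable_norm.pow_const _)).mul
    (hh.measurable.comp measurable_cth)).mul h2).add
    (((measurable_norm.pow_const _).mul (hh'.measurable.comp measurable_cth)).mul
      (measurable_dcth_eb i))

lemma measurable_Vf (s : ℝ) {H B : ℝ → ℝ} (hH : Continuous H) (hB : Continuous B) (i : Fin 3) :
    Measurable (Vf s H B i) := by
  have h2 : Measurable fun x : E3 => x i := by fun_prop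
  unfold Vf
  refine ((measurable_hom _ hH).mul h2).add ?_
  split_ifs
  · exact measurable_hom _ hB
  · exact measurable_const

lemma measurable_dV (s : ℝ) {H H' B B' : ℝ → ℝ} (hH : Continuous H) (hH' : Continuous H')
    (hB : Continuous B) (hB' : Continuous B') (i : Fin 3) :
    Measurable (dV s H H' B B' i) := by
  have h2 : Measurable fun x : E3 => x i := by fun_prop
  unfold dV
  refine ((measurable_hom _ hH).add (h2.mul (measurable_Dhom _ hH hH' i))).add ?_
  split_ifs
  · exact measurable_Dhom _ hB hB' i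
  · exact measurable_const

lemma fderiv_cont {φ : E3 → ℝ} (hφ : ContDiff ℝ 1 φ) (v : E3) :
    Continuous fun x => fderiv ℝ φ x v :=
  (hφ.continuous_fderiv (by norm_num)).clm_apply continuous_const

lemma fderiv_supp {φ : E3 → ℝ} (hc : HasCompactSupport φ) (v : E3) :
    HasCompactSupport fun x => fderiv ℝ φ x v := by
  have h1 := hc.fderiv (𝕜 := ℝ)
  exact h1.comp_left (g := fun L : E3 →L[ℝ] ℝ => L v) (by simp)

theorem weak_C1 {s : ℝ} (hs : 1 < s) {H H' B B' : ℝ → ℝ} (hH'c : Continuous H')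
    (hB'c : Continuous B')
    (hH : ∀ c, HasDerivAt H (H' c) c) (hB : ∀ c, HasDerivAt B (B' c) c)
    (hrel : ∀ c ∈ Icc (-1:ℝ) 1, (s + 2) * H c + s * c * B c + (1 - c ^ 2) * B' c = 0)
    {φ : E3 → ℝ} (hφ : ContDiff ℝ 1 φ) (hc : HasCompactSupport φ) :
    ∫ x, ∑ i, Vf s H B i x * fderiv ℝ φ x (eb i) = 0 := by
  have hHc : Continuous H := continuous_iff_continuousAt.mpr fun c => (hH c).continuousAt
  have hBc : Continuous B := continuous_iff_continuousAt.mpr fun c => (hB c).continuousAt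
  obtain ⟨C1, hC1, b1⟩ := exists_bound hHc
  obtain ⟨C2, hC2, b2⟩ := exists_bound hH'c
  obtain ⟨C3, hC3, b3⟩ := exists_bound hBc
  obtain ⟨C4, hC4, b4⟩ := exists_bound hB'c
  set C := C1 + C2 + C3 + C4 with hCdef
  have bV : ∀ i x, |Vf s H B i x| ≤ 2 * C * ‖x‖ ^ s := fun i x =>
    abs_Vf_le hs (fun c hc => (b1 c hc).trans (by linarith))
      (fun c hc => (b3 c hc).trans (by linarith)) i x
  have bdV : ∀ i x, |dV s H H' B B' i x| ≤ (C * (2 * s + 4)) * ‖x‖ ^ (s - 1) := fun i x =>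
    abs_dV_le hs (fun c hc => (b1 c hc).trans (by linarith))
      (fun c hc => (b2 c hc).trans (by linarith)) (fun c hc => (b3 c hc).trans (by linarith))
      (fun c hc => (b4 c hc).trans (by linarith)) i x
  have i1 : ∀ i, Integrable fun x => dV s H H' B B' i x * φ x := fun i =>
    integrable_mul_of_bound (by linarith) (measurable_dV s hHc hH'c hBc hB'c i) (bdV i)
      hφ.continuous hc
  have i2 : ∀ i, Integrable fun x => Vf s H B i x * fderiv ℝ φ x (eb i) := fun i =>
    integrable_mul_of_bound (by linarith) (measurable_Vf s hHc hBc i) (bV i)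
      (fderiv_cont hφ _) (fderiv_supp hc _)
  have i3 : ∀ i, Integrable fun x => Vf s H B i x * φ x := fun i =>
    integrable_mul_of_bound (by linarith) (measurable_Vf s hHc hBc i) (bV i) hφ.continuous hc
  have key : ∀ i, ∫ x, Vf s H B i x * fderiv ℝ φ x (eb i) = - ∫ x, dV s H H' B B' i x * φ x := by
    intro i
    have h := integral_bilinear_hasLineDerivAt_right_eq_neg_left_of_integrable (μ := (volume : Measure E3))
      (B := ContinuousLinearMap.mul ℝ ℝ) (f := Vf s H B i) (f' := dV s H H' B B' i) (g := φ)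
      (g' := fun x => fderiv ℝ φ x (eb i)) (v := eb i) (i1 i) (i2 i) (i3 i)
      (fun x _ => hasLineDerivAt_Vf hs hHc hBc hH hB i x)
      (fun x _ => ((hφ.differentiable (by norm_num) x).hasFDerivAt).hasLineDerivAt (eb i))
    exact h
  rw [integral_finsetSum _ (fun i _ => i2 i)]
  simp only [key]
  rw [Finset.sum_neg_distrib, ← integral_finsetSum _ (fun i _ => i1 i), neg_eq_zero]
  have : ∀ x, ∑ i, dV s H H' B B' i x * φ x = 0 := by
    intro x
    rw [← Finset.sum_mul, sum_dV hs hrel, zero_mul]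
  simp [this]

end

end Pool.Agent.PHarm
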