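import Mathlib
import Pool.Agent.PHarm.Weak

set_option autoImplicit false

open MeasureTheory Set Filter Topology Polynomial

namespace Pool.Agent.PHarm

noncomputable section

lemma exists_antideriv (q : ℝ[X]) : ∃ P : ℝ[X], derivative P = q := by
  induction q using Polynomial.induction_on' with
  | add p q hp hq =>
    obtain ⟨P, hP⟩ := hp
    obtain ⟨Q, hQ⟩ := hq
    exact ⟨P + Q, by rw [derivative_add, hP, hQ]⟩
  | monomial n a =>
    refine ⟨monomial (n + 1) (a / (n + 1)), ?_⟩
    rw [derivative_monomial]
    congr 1
    push_cast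
    have : (n : ℝ) + 1 ≠ 0 := by positivity
    field_simp

lemma poly_integral {P q : ℝ[X]} (h : derivative P = q) (a b : ℝ) :
    ∫ t in a..b, q.eval t = P.eval b - P.eval a := by
  apply intervalIntegral.integral_eq_sub_of_hasDerivAt
  · intro t _
    rw [← h]
    exact P.hasDerivAt t
  · exact q.continuous.intervalIntegrable _ _

lemma exists_R {q : ℝ[X]} (h : ∫ t in (-1:ℝ)..1, q.eval t = 0) :
    ∃ R : ℝ[X], ∀ c : ℝ, (1 - c ^ 2) * R.eval c = ∫ t in c..1, q.eval t := by
  obtain ⟨P, hP⟩ := exists_antideriv q
  rw [poly_integral hP] at h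
  have r1 : (C (P.eval 1) - P).IsRoot 1 := by simp [IsRoot]
  obtain ⟨Q, hQ⟩ := dvd_iff_isRoot.mpr r1
  have r2 : Q.eval (-1) = 0 := by
    have h1 : (C (P.eval 1) - P).eval (-1) = ((X - C 1) * Q).eval (-1) := by rw [hQ]
    simp only [eval_sub, eval_C, eval_mul, eval_X] at h1
    linarith
  obtain ⟨S, hS⟩ := dvd_iff_isRoot.mpr (show Q.IsRoot (-1) from r2)
  refine ⟨-S, fun c => ?_⟩
  rw [poly_integral hP]
  have h2 : (C (P.eval 1) - P).eval c = ((X - C 1) * Q).eval c := by rw [hQ]
  rw [hS] at h2
  simp only [eval_sub, eval_C, eval_mul, eval_X, eval_neg] at h2 ⊢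
  rw [h2]
  ring

lemma Vf_sub (s : ℝ) (H B H' B' : ℝ → ℝ) (i : Fin 3) (x : E3) :
    Vf s H B i x - Vf s H' B' i x = Vf s (fun c => H c - H' c) (fun c => B c - B' c) i x := by
  unfold Vf hom
  by_cases hi : i = 2
  · simp [hi]; ring
  · simp [hi]; ring

theorem weak_cont {s l K : ℝ} (hs : 1 < s) (hK : K = l * (s + 2)) {Z B : ℝ → ℝ}
    (hZ : Continuous Z) (hB : Continuous B) (hZ0 : ∫ c in (-1:ℝ)..1, Z c = 0)
    (hrel : ∀ c ∈ Icc (-1:ℝ) 1, (1 - c ^ 2) * B c = K * ∫ t in c..1, Z t)
    {φ : E3 → ℝ} (hφ : ContDiff ℝ 1 φ) (hc : HasCompactSupport φ) :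
    ∫ x, ∑ i, Vf s (fun c => l * Z c - c * B c) B i x * fderiv ℝ φ x (eb i) = 0 := by
  have hHc : Continuous fun c => l * Z c - c * B c := (continuous_const.mul hZ).sub (continuous_id.mul hB)
  obtain ⟨C1, hC1, b1⟩ := exists_bound hHc
  obtain ⟨C3, hC3, b3⟩ := exists_bound hB
  have i2 : ∀ i, Integrable fun x => Vf s (fun c => l * Z c - c * B c) B i x * fderiv ℝ φ x (eb i) :=
    fun i => integrable_mul_of_bound (C := 2 * (C1 + C3)) (a := s) (by linarith)
      (measurable_Vf s hHc hB i)
      (abs_Vf_le hs (fun c hc => (b1 c hc).trans (by linarith))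
        (fun c hc => (b3 c hc).trans (by linarith)) i)
      (fderiv_cont hφ _) (fderiv_supp hc _)
  have iN : ∀ i, Integrable fun x => ‖x‖ ^ s * |fderiv ℝ φ x (eb i)| := fun i => by
    apply integrable_mul_of_bound (C := 1) (a := s) (by linarith) (measurable_norm.pow_const s)
    · intro x
      rw [one_mul, abs_of_nonneg (Real.rpow_nonneg (norm_nonneg x) s)]
    · exact (fderiv_cont hφ _).abs
    · exact (fderiv_supp hc _).norm
  set M := ∑ i, ∫ x, ‖x‖ ^ s * |fderiv ℝ φ x (eb i)| with hM
  have hM0 : 0 ≤ M := Finset.sum_nonneg fun i _ => integral_nonneg fun x =>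
    mul_nonneg (Real.rpow_nonneg (norm_nonneg x) s) (abs_nonneg _)
  set I := ∫ x, ∑ i, Vf s (fun c => l * Z c - c * B c) B i x * fderiv ℝ φ x (eb i) with hI
  have main : ∀ ε : ℝ, 0 < ε → |I| ≤ 2 * (|l| * (2 * ε) + |K| * (2 * ε)) * M := by
    intro ε hε
    obtain ⟨q1, hq1⟩ := exists_polynomial_near_of_continuousOn (-1) 1 Z hZ.continuousOn ε hε
    set m := (∫ t in (-1:ℝ)..1, q1.eval t) / 2 with hm
    set q := q1 - C m with hq
    have hm_le : |m| ≤ ε := by
      have e : ∫ t in (-1:ℝ)..1, q1.eval t = ∫ t in (-1:ℝ)..1, (q1.eval t - Z t) := by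
        rw [intervalIntegral.integral_sub (q1.continuous.intervalIntegrable _ _)
          (hZ.intervalIntegrable _ _), hZ0, sub_zero]
      have h1 : |∫ t in (-1:ℝ)..1, (q1.eval t - Z t)| ≤ ε * |1 - (-1:ℝ)| := by
        have := intervalIntegral.norm_integral_le_of_norm_le_const (a := (-1:ℝ)) (b := 1)
          (f := fun t => q1.eval t - Z t) (C := ε) (by
            intro t ht
            rw [uIoc_of_le (by norm_num)] at ht
            exact (hq1 t ⟨ht.1.le, ht.2⟩).le)
        simpa using this
      rw [hm, e, abs_div, abs_two]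
      norm_num at h1
      linarith
    have hqZ : ∀ c ∈ Icc (-1:ℝ) 1, |q.eval c - Z c| ≤ 2 * ε := by
      intro c hc'
      have e : q.eval c - Z c = (q1.eval c - Z c) - m := by
        rw [hq]; simp only [eval_sub, eval_C]; ring
      rw [e]
      have h1 := (hq1 c hc').le
      exact (abs_sub _ _).trans (by linarith)
    have hq0 : ∫ t in (-1:ℝ)..1, q.eval t = 0 := by
      have e : ∀ t, q.eval t = q1.eval t - m := by
        intro t; rw [hq]; simp only [eval_sub, eval_C]
      simp only [e]
      rw [intervalIntegral.integral_sub (q1.continuous.intervalIntegrable _ _)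
          (continuous_const.intervalIntegrable _ _), intervalIntegral.integral_const, hm]
      simp only [smul_eq_mul]
      ring
    obtain ⟨R, hR⟩ := exists_R hq0
    -- derivative identity
    have hRd : ∀ c : ℝ, -2 * c * R.eval c + (1 - c ^ 2) * (derivative R).eval c = - q.eval c := by
      intro c
      have h1 : HasDerivAt (fun c : ℝ => (1 - c ^ 2) * R.eval c)
          (-(2 * c) * R.eval c + (1 - c ^ 2) * (derivative R).eval c) c := by
        have h := ((hasDerivAt_pow 2 c).const_sub 1).mul (R.hasDerivAt c)
        refine h.congr_deriv ?_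
        simp
      have h2 : HasDerivAt (fun c : ℝ => ∫ t in c..1, q.eval t) (-q.eval c) c :=
        intervalIntegral.integral_hasDerivAt_left (q.continuous.intervalIntegrable _ _)
          (q.continuous.stronglyMeasurableAtFilter _ _) q.continuous.continuousAt
      have h3 : (fun c : ℝ => (1 - c ^ 2) * R.eval c) = fun c : ℝ => ∫ t in c..1, q.eval t :=
        funext hR
      rw [h3] at h1
      have := h1.unique h2
      linarith
    -- closeness of B
    have hBR : ∀ c ∈ Icc (-1:ℝ) 1, |B c - K * R.eval c| ≤ |K| * (2 * ε) := by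
      have hopen : ∀ c ∈ Ioo (-1:ℝ) 1, |B c - K * R.eval c| ≤ |K| * (2 * ε) := by
        intro c hc'
        have hpos : 0 < 1 - c ^ 2 := by nlinarith [hc'.1, hc'.2]
        have e1 : (1 - c ^ 2) * (B c - K * R.eval c) = K * ∫ t in c..1, (Z t - q.eval t) := by
          rw [mul_sub, hrel c ⟨hc'.1.le, hc'.2.le⟩,
            show (1 - c ^ 2) * (K * R.eval c) = K * ((1 - c ^ 2) * R.eval c) by ring, hR,
            intervalIntegral.integral_sub (hZ.intervalIntegrable _ _)
              (q.continuous.intervalIntegrable _ _)]
          ring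
        have e2 : ∫ t in c..1, (Z t - q.eval t) = - ∫ t in (-1:ℝ)..c, (Z t - q.eval t) := by
          have hcont : Continuous fun t => Z t - q.eval t := hZ.sub q.continuous
          have h := intervalIntegral.integral_add_adjacent_intervals
            (hcont.intervalIntegrable (μ := volume) (-1) c) (hcont.intervalIntegrable (μ := volume) c 1)
          have h0 : ∫ t in (-1:ℝ)..1, (Z t - q.eval t) = 0 := by
            rw [intervalIntegral.integral_sub (hZ.intervalIntegrable _ _)
              (q.continuous.intervalIntegrable _ _), hZ0, hq0, sub_zero]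
          linarith
        have b1' : |∫ t in c..1, (Z t - q.eval t)| ≤ 2 * ε * |1 - c| := by
          have := intervalIntegral.norm_integral_le_of_norm_le_const (a := c) (b := 1)
            (f := fun t => Z t - q.eval t) (C := 2 * ε) (by
              intro t ht
              rw [uIoc_of_le hc'.2.le] at ht
              rw [Real.norm_eq_abs, abs_sub_comm]
              exact hqZ t ⟨by linarith [ht.1, hc'.1], ht.2⟩)
          simpa using this
        have b2' : |∫ t in (-1:ℝ)..c, (Z t - q.eval t)| ≤ 2 * ε * |c - (-1)| := by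
          have := intervalIntegral.norm_integral_le_of_norm_le_const (a := (-1:ℝ)) (b := c)
            (f := fun t => Z t - q.eval t) (C := 2 * ε) (by
              intro t ht
              rw [uIoc_of_le hc'.1.le] at ht
              rw [Real.norm_eq_abs, abs_sub_comm]
              exact hqZ t ⟨by linarith [ht.1], by linarith [ht.2, hc'.2]⟩)
          simpa using this
        have b3' : |∫ t in c..1, (Z t - q.eval t)| ≤ (2 * ε) * (1 - c ^ 2) := by
          rcases le_total 0 c with h0 | h0
          · rw [abs_of_pos (by linarith [hc'.2] : (0:ℝ) < 1 - c)] at b1'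
            have h5 : 1 - c ≤ 1 - c ^ 2 := by nlinarith [hc'.2]
            exact b1'.trans (mul_le_mul_of_nonneg_left h5 (by positivity))
          · rw [e2, abs_neg]
            rw [abs_of_pos (by linarith [hc'.1] : (0:ℝ) < c - (-1))] at b2'
            have h5 : c - (-1) ≤ 1 - c ^ 2 := by nlinarith [hc'.1]
            exact b2'.trans (mul_le_mul_of_nonneg_left h5 (by positivity))
        have b4 : (1 - c ^ 2) * |B c - K * R.eval c| ≤ (1 - c ^ 2) * (|K| * (2 * ε)) := by
          calc (1 - c ^ 2) * |B c - K * R.eval c| = |(1 - c ^ 2) * (B c - K * R.eval c)| := by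
                rw [abs_mul, abs_of_pos hpos]
            _ = |K| * |∫ t in c..1, (Z t - q.eval t)| := by rw [e1, abs_mul]
            _ ≤ |K| * ((2 * ε) * (1 - c ^ 2)) := mul_le_mul_of_nonneg_left b3' (abs_nonneg _)
            _ = _ := by ring
        exact le_of_mul_le_mul_left b4 hpos
      have hclosed : IsClosed {c : ℝ | |B c - K * R.eval c| ≤ |K| * (2 * ε)} :=
        isClosed_le (hB.sub (continuous_const.mul R.continuous)).abs continuous_const
      intro c hc'
      have : Icc (-1:ℝ) 1 ⊆ {c : ℝ | |B c - K * R.eval c| ≤ |K| * (2 * ε)} := by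
        rw [← closure_Ioo (by norm_num : (-1:ℝ) ≠ 1)]
        exact hclosed.closure_subset_iff.mpr hopen
      exact this hc'
    -- the polynomial field
    have hw := weak_C1 (s := s) hs (H := fun c => l * q.eval c - c * (K * R.eval c))
      (H' := fun c => l * (derivative q).eval c - (1 * (K * R.eval c) + c * (K * (derivative R).eval c)))
      (B := fun c => K * R.eval c) (B' := fun c => K * (derivative R).eval c)
      (by
        refine (continuous_const.mul (derivative q).continuous).sub ?_
        exact (continuous_const.mul (continuous_const.mul R.continuous)).add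
          (continuous_id.mul (continuous_const.mul (derivative R).continuous)))
      (continuous_const.mul (derivative R).continuous)
      (fun c => ((q.hasDerivAt c).const_mul l).sub ((hasDerivAt_id c).mul ((R.hasDerivAt c).const_mul K)))
      (fun c => (R.hasDerivAt c).const_mul K)
      (by
        intro c _
        have h1 := hRd c
        have h2 : (1 - c ^ 2) * (derivative R).eval c = - q.eval c + 2 * c * R.eval c := by linarith
        have e : (s + 2) * (l * q.eval c - c * (K * R.eval c)) + s * c * (K * R.eval c)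
            + (1 - c ^ 2) * (K * (derivative R).eval c)
            = (l * (s + 2)) * q.eval c - 2 * c * K * R.eval c
              + K * ((1 - c ^ 2) * (derivative R).eval c) := by ring
        rw [e, h2, ← hK]
        ring)
      hφ hc
    -- difference
    have hqc : Continuous fun c => l * q.eval c - c * (K * R.eval c) :=
      (continuous_const.mul q.continuous).sub (continuous_id.mul (continuous_const.mul R.continuous))
    have hRc : Continuous fun c => K * R.eval c := continuous_const.mul R.continuous
    obtain ⟨C5, hC5, b5⟩ := exists_bound hqc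
    obtain ⟨C6, hC6, b6⟩ := exists_bound hRc
    have i4 : ∀ i, Integrable fun x => Vf s (fun c => l * q.eval c - c * (K * R.eval c))
        (fun c => K * R.eval c) i x * fderiv ℝ φ x (eb i) :=
      fun i => integrable_mul_of_bound (C := 2 * (C5 + C6)) (a := s) (by linarith)
        (measurable_Vf s hqc hRc i)
        (abs_Vf_le hs (fun c hc => (b5 c hc).trans (by linarith))
          (fun c hc => (b6 c hc).trans (by linarith)) i)
        (fderiv_cont hφ _) (fderiv_supp hc _)
    have hdiff : I = ∑ i, ∫ x, (Vf s (fun c => l * Z c - c * B c) B i x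
        - Vf s (fun c => l * q.eval c - c * (K * R.eval c)) (fun c => K * R.eval c) i x)
          * fderiv ℝ φ x (eb i) := by
      have e1 : I = I - ∫ x, ∑ i, Vf s (fun c => l * q.eval c - c * (K * R.eval c))
          (fun c => K * R.eval c) i x * fderiv ℝ φ x (eb i) := by rw [hw, sub_zero]
      rw [e1, hI, integral_finsetSum _ (fun i _ => i2 i), integral_finsetSum _ (fun i _ => i4 i),
        ← Finset.sum_sub_distrib]
      apply Finset.sum_congr rfl
      intro i _
      rw [← integral_sub (i2 i) (i4 i)]
      congr 1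
      funext x
      ring
    rw [hdiff, hM, Finset.mul_sum]
    refine (Finset.abs_sum_le_sum_abs _ _).trans (Finset.sum_le_sum fun i _ => ?_)
    rw [← integral_const_mul]
    refine (abs_integral_le_integral_abs).trans ?_
    apply integral_mono_of_nonneg (Eventually.of_forall fun x => abs_nonneg _)
      ((iN i).const_mul _)
    filter_upwards with x
    rw [Vf_sub, abs_mul, ← mul_assoc]
    apply mul_le_mul_of_nonneg_right _ (abs_nonneg _)
    apply abs_Vf_le hs
    · intro c hc'
      have e : l * Z c - c * B c - (l * q.eval c - c * (K * R.eval c))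
          = l * (Z c - q.eval c) - c * (B c - K * R.eval c) := by ring
      rw [e]
      refine (abs_sub _ _).trans ?_
      rw [abs_mul, abs_mul]
      have t1 : |l| * |Z c - q.eval c| ≤ |l| * (2 * ε) := by
        rw [abs_sub_comm]
        exact mul_le_mul_of_nonneg_left (hqZ c hc') (abs_nonneg _)
      have t2 : |c| * |B c - K * R.eval c| ≤ 1 * (|K| * (2 * ε)) :=
        mul_le_mul (abs_le.mpr hc') (hBR c hc') (abs_nonneg _) zero_le_one
      linarith
    · intro c hc'
      have := hBR c hc'
      have h0 : 0 ≤ |l| * (2 * ε) := by positivity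
      linarith
  -- conclusion
  by_contra hne
  have hIpos : 0 < |I| := abs_pos.mpr hne
  set D := 2 * (|l| * 2 + |K| * 2) * M with hD
  have hD0 : 0 ≤ D := by positivity
  have h := main (|I| / (2 * (D + 1))) (by positivity)
  have e : 2 * (|l| * (2 * (|I| / (2 * (D + 1)))) + |K| * (2 * (|I| / (2 * (D + 1))))) * M
      = D * (|I| / (2 * (D + 1))) := by rw [hD]; ring
  rw [e] at h
  have h2 : D * (|I| / (2 * (D + 1))) < |I| := by
    rw [mul_div_assoc', div_lt_iff₀ (by positivity)]
    nlinarith
  linarith

end

end Pool.Agent.PHarm
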