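import Mathlib

set_option autoImplicit false

open MeasureTheory Set Filter Topology

namespace Pool.Agent.PHarm

noncomputable section

/-- the exponential weight -/
def wt (y : ℝ) : ℝ := Real.exp (576 * (1 - y))

lemma wt_pos (y : ℝ) : 0 < wt y := Real.exp_pos _

lemma wt_mono {x y : ℝ} (h : x ≤ y) : wt y ≤ wt x := by
  unfold wt
  apply Real.exp_le_exp.mpr
  linarith

lemma continuous_wt : Continuous wt := by
  unfold wt
  fun_prop

/-- extension of a continuous function on the unit interval -/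
def ext (G : C(unitInterval, ℝ)) (y : ℝ) : ℝ := IccExtend (zero_le_one' ℝ) G y

lemma continuous_ext (G : C(unitInterval, ℝ)) : Continuous (ext G) := by
  unfold ext
  exact G.continuous.Icc_extend'

lemma ext_sub (G H : C(unitInterval, ℝ)) (y : ℝ) : |ext G y - ext H y| ≤ dist G H := by
  have := ContinuousMap.dist_apply_le_dist (f := G) (g := H) (projIcc 0 1 (zero_le_one' ℝ) y)
  simpa [Real.dist_eq, ext, IccExtend] using this

/-- the actual derivative -/
def Gx (G : C(unitInterval, ℝ)) (y : ℝ) : ℝ := wt y * ext G y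

lemma continuous_Gx (G : C(unitInterval, ℝ)) : Continuous (Gx G) := by
  unfold Gx
  exact continuous_wt.mul (continuous_ext G)

lemma Gx_sub (G H : C(unitInterval, ℝ)) (y : ℝ) : |Gx G y - Gx H y| ≤ wt y * dist G H := by
  unfold Gx
  rw [← mul_sub, abs_mul, abs_of_pos (wt_pos y)]
  exact mul_le_mul_of_nonneg_left (ext_sub G H y) (wt_pos y).le

/-- the profile -/
def Fx (G : C(unitInterval, ℝ)) (y : ℝ) : ℝ := 1 - ∫ t in y..1, Gx G t

lemma hasDerivAt_Fx (G : C(unitInterval, ℝ)) (y : ℝ) : HasDerivAt (Fx G) (Gx G y) y := by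
  have h := intervalIntegral.integral_hasDerivAt_left
    ((continuous_Gx G).intervalIntegrable y 1)
    ((continuous_Gx G).stronglyMeasurableAtFilter _ _) (continuous_Gx G).continuousAt
  have h2 := h.const_sub 1
  rw [neg_neg] at h2
  exact h2

lemma continuous_Fx (G : C(unitInterval, ℝ)) : Continuous (Fx G) :=
  continuous_iff_continuousAt.mpr fun y => (hasDerivAt_Fx G y).continuousAt

lemma integral_wt (y : ℝ) : ∫ t in y..1, wt t = (wt y - 1) / 576 := by
  have h : ∀ t ∈ uIcc y 1, HasDerivAt (fun t => - wt t / 576) (wt t) t := by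
    intro t _
    unfold wt
    have h1 : HasDerivAt (fun t : ℝ => 576 * (1 - t)) (576 * (0 - 1)) t :=
      ((hasDerivAt_const t (1 : ℝ)).sub (hasDerivAt_id t)).const_mul 576
    have h2 := (h1.exp.neg).div_const 576
    refine h2.congr_deriv ?_
    ring
  rw [intervalIntegral.integral_eq_sub_of_hasDerivAt h (continuous_wt.intervalIntegrable y 1)]
  have : wt 1 = 1 := by simp [wt]
  rw [this]
  ring

lemma Fx_sub (G H : C(unitInterval, ℝ)) {y : ℝ} (hy : y ≤ 1) :
    |Fx G y - Fx H y| ≤ wt y / 576 * dist G H := by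
  unfold Fx
  have e : (1 - ∫ t in y..1, Gx G t) - (1 - ∫ t in y..1, Gx H t)
      = - ∫ t in y..1, (Gx G t - Gx H t) := by
    rw [intervalIntegral.integral_sub ((continuous_Gx G).intervalIntegrable y 1)
      ((continuous_Gx H).intervalIntegrable y 1)]
    ring
  rw [e, abs_neg]
  have h1 : |∫ t in y..1, (Gx G t - Gx H t)| ≤ ∫ t in y..1, wt t * dist G H := by
    have := intervalIntegral.norm_integral_le_of_norm_le (f := fun t => Gx G t - Gx H t)
      (g := fun t => wt t * dist G H) (a := y) (b := 1) (μ := volume) hy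
      (Eventually.of_forall fun t _ => by simpa using Gx_sub G H t)
      ((continuous_wt.mul continuous_const).intervalIntegrable y 1)
    simpa using this
  refine h1.trans ?_
  rw [intervalIntegral.integral_mul_const, integral_wt]
  have hd : 0 ≤ dist G H := dist_nonneg
  apply mul_le_mul_of_nonneg_right _ hd
  linarith

/-- clamped profile -/
def Fh (G : C(unitInterval, ℝ)) (y : ℝ) : ℝ := max (-2) (min 2 (Fx G y))

lemma abs_clamp_sub (a b x y : ℝ) : |max a (min b x) - max a (min b y)| ≤ |x - y| := by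
  have h1 : |max a (min b x) - max a (min b y)| ≤ |min b x - min b y| := by
    have := abs_max_sub_max_le_max a (min b x) a (min b y)
    simpa using this
  have h2 : |min b x - min b y| ≤ |x - y| := by
    have := abs_min_sub_min_le_max b x b y
    simpa using this
  exact h1.trans h2

lemma Fh_sub (G H : C(unitInterval, ℝ)) {y : ℝ} (hy : y ≤ 1) :
    |Fh G y - Fh H y| ≤ wt y / 576 * dist G H :=
  (abs_clamp_sub _ _ _ _).trans (Fx_sub G H hy)

lemma abs_Fh_le (G : C(unitInterval, ℝ)) (y : ℝ) : |Fh G y| ≤ 2 := by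
  unfold Fh
  rw [abs_le]
  constructor
  · exact le_max_left _ _
  · exact max_le (by norm_num) (min_le_left _ _)

lemma continuous_Fh (G : C(unitInterval, ℝ)) : Continuous (Fh G) := by
  unfold Fh
  exact continuous_const.max (continuous_const.min (continuous_Fx G))

/-- clamped modulus of the gradient -/
def sw (l : ℝ) (G : C(unitInterval, ℝ)) (y : ℝ) : ℝ :=
  max (1/2) (min 4 (Real.sqrt ((l * Fx G y)^2 + (Real.sqrt (1 - y^2) * Gx G y)^2)))

lemma sw_ge (l : ℝ) (G : C(unitInterval, ℝ)) (y : ℝ) : 1/2 ≤ sw l G y := le_max_left _ _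

lemma sw_le (l : ℝ) (G : C(unitInterval, ℝ)) (y : ℝ) : sw l G y ≤ 4 :=
  max_le (by norm_num) (min_le_left _ _)

lemma sw_pos (l : ℝ) (G : C(unitInterval, ℝ)) (y : ℝ) : 0 < sw l G y :=
  lt_of_lt_of_le (by norm_num) (sw_ge l G y)

lemma sqrt_sub (a b c d : ℝ) :
    |Real.sqrt (a^2 + b^2) - Real.sqrt (c^2 + d^2)| ≤ |a - c| + |b - d| := by
  have h1 : Real.sqrt (a^2 + b^2) = ‖(⟨a, b⟩ : ℂ)‖ := by
    rw [Complex.norm_def, Complex.normSq_mk]; congr 1; ring
  have h2 : Real.sqrt (c^2 + d^2) = ‖(⟨c, d⟩ : ℂ)‖ := by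
    rw [Complex.norm_def, Complex.normSq_mk]; congr 1; ring
  rw [h1, h2]
  refine (abs_norm_sub_norm_le _ _).trans ?_
  have := Complex.norm_le_abs_re_add_abs_im ((⟨a, b⟩ : ℂ) - ⟨c, d⟩)
  simpa using this

lemma sw_sub {l : ℝ} (hl : 1 ≤ l) (hl' : l ≤ 3) (G H : C(unitInterval, ℝ)) {y : ℝ}
    (hy : y ≤ 1) : |sw l G y - sw l H y| ≤ 2 * (wt y * dist G H) := by
  unfold sw
  refine (abs_clamp_sub _ _ _ _).trans ?_
  refine (sqrt_sub _ _ _ _).trans ?_
  have h1 : |l * Fx G y - l * Fx H y| ≤ l * (wt y / 576 * dist G H) := by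
    rw [← mul_sub, abs_mul, abs_of_pos (by linarith : 0 < l)]
    exact mul_le_mul_of_nonneg_left (Fx_sub G H hy) (by linarith)
  have hs : Real.sqrt (1 - y^2) ≤ 1 := by
    rw [Real.sqrt_le_iff]
    exact ⟨by norm_num, by nlinarith [sq_nonneg y]⟩
  have h2 : |Real.sqrt (1 - y^2) * Gx G y - Real.sqrt (1 - y^2) * Gx H y| ≤ wt y * dist G H := by
    rw [← mul_sub, abs_mul, abs_of_nonneg (Real.sqrt_nonneg _)]
    calc Real.sqrt (1 - y^2) * |Gx G y - Gx H y| ≤ 1 * (wt y * dist G H) :=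
          mul_le_mul hs (Gx_sub G H y) (abs_nonneg _) zero_le_one
      _ = _ := one_mul _
  have hd : 0 ≤ dist G H := dist_nonneg
  have hw := wt_pos y
  have h3 : l * (wt y / 576 * dist G H) ≤ wt y * dist G H := by
    have : 0 ≤ wt y * dist G H := by positivity
    nlinarith
  linarith

lemma continuous_sw (G : C(unitInterval, ℝ)) :
    Continuous fun q : ℝ × ℝ => sw q.1 G q.2 := by
  unfold sw
  have h1 := (continuous_Fx G).comp (continuous_snd (X := ℝ) (Y := ℝ))
  have h2 := (continuous_Gx G).comp (continuous_snd (X := ℝ) (Y := ℝ))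
  refine continuous_const.max (continuous_const.min (Real.continuous_sqrt.comp ?_))
  refine Continuous.add ?_ ?_
  · exact (continuous_fst.mul h1).pow 2
  · refine Continuous.pow (Continuous.mul ?_ h2) 2
    exact Real.continuous_sqrt.comp (continuous_const.sub (continuous_snd.pow 2))

lemma rpow_sub {d x y : ℝ} (hd : 0 ≤ d) (hd1 : d ≤ 1) (hx : 1/2 ≤ x) (hy : 1/2 ≤ y) :
    |x ^ d - y ^ d| ≤ 2 * d * |x - y| := by
  have key : ∀ z ∈ Ici (1/2 : ℝ), HasDerivWithinAt (fun z : ℝ => z ^ d) (d * z ^ (d - 1))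
      (Ici (1/2 : ℝ)) z := by
    intro z hz
    have hz0 : z ≠ 0 := by
      have : (1/2 : ℝ) ≤ z := hz
      linarith
    exact (Real.hasDerivAt_rpow_const (Or.inl hz0)).hasDerivWithinAt
  have bound : ∀ z ∈ Ici (1/2 : ℝ), ‖d * z ^ (d - 1)‖ ≤ 2 * d := by
    intro z hz
    have hz1 : (1/2 : ℝ) ≤ z := hz
    have hz0 : 0 < z := by linarith
    rw [Real.norm_eq_abs, abs_mul, abs_of_nonneg hd, abs_of_pos (Real.rpow_pos_of_pos hz0 _)]
    have : z ^ (d - 1) ≤ 2 := by
      calc z ^ (d - 1) ≤ (1/2 : ℝ) ^ (d - 1) :=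
            Real.rpow_le_rpow_of_nonpos (by norm_num) hz1 (by linarith)
        _ ≤ (1/2 : ℝ) ^ (-1 : ℝ) := Real.rpow_le_rpow_of_exponent_ge (by norm_num) (by norm_num)
            (by linarith)
        _ = 2 := by rw [Real.rpow_neg_one]; norm_num
    nlinarith
  have := (convex_Ici (1/2 : ℝ)).norm_image_sub_le_of_norm_hasDerivWithin_le key bound hy hx
  simpa [Real.norm_eq_abs] using this

/-- the weight g -/
def gg (d l : ℝ) (G : C(unitInterval, ℝ)) (y : ℝ) : ℝ := (sw l G y) ^ d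

lemma gg_pos (d l : ℝ) (G : C(unitInterval, ℝ)) (y : ℝ) : 0 < gg d l G y :=
  Real.rpow_pos_of_pos (sw_pos l G y) d

lemma gg_ge {d : ℝ} (hd : 0 ≤ d) (hd1 : d ≤ 1) (l : ℝ) (G : C(unitInterval, ℝ)) (y : ℝ) :
    1/2 ≤ gg d l G y := by
  unfold gg
  calc (1/2 : ℝ) = (1/2 : ℝ) ^ (1 : ℝ) := by rw [Real.rpow_one]
    _ ≤ (1/2 : ℝ) ^ d := Real.rpow_le_rpow_of_exponent_ge (by norm_num) (by norm_num) hd1
    _ ≤ _ := Real.rpow_le_rpow (by norm_num) (sw_ge l G y) hd

lemma gg_le {d : ℝ} (hd : 0 ≤ d) (hd1 : d ≤ 1) (l : ℝ) (G : C(unitInterval, ℝ)) (y : ℝ) :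
    gg d l G y ≤ 4 := by
  unfold gg
  calc (sw l G y) ^ d ≤ (4 : ℝ) ^ d := Real.rpow_le_rpow (sw_pos l G y).le (sw_le l G y) hd
    _ ≤ (4 : ℝ) ^ (1 : ℝ) := Real.rpow_le_rpow_of_exponent_le (by norm_num) hd1
    _ = 4 := Real.rpow_one 4

lemma gg_sub {d l : ℝ} (hd : 0 ≤ d) (hd1 : d ≤ 1) (hl : 1 ≤ l) (hl' : l ≤ 3)
    (G H : C(unitInterval, ℝ)) {y : ℝ} (hy : y ≤ 1) :
    |gg d l G y - gg d l H y| ≤ 4 * d * (wt y * dist G H) := by
  unfold gg
  refine (rpow_sub hd hd1 (sw_ge l G y) (sw_ge l H y)).trans ?_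
  have := sw_sub hl hl' G H hy
  have h2 : 2 * d * |sw l G y - sw l H y| ≤ 2 * d * (2 * (wt y * dist G H)) :=
    mul_le_mul_of_nonneg_left this (by linarith)
  linarith

lemma continuous_gg (G : C(unitInterval, ℝ)) :
    Continuous fun q : (ℝ × ℝ) × ℝ => gg q.1.1 q.1.2 G q.2 := by
  unfold gg
  refine Continuous.rpow ?_ (continuous_fst.comp continuous_fst) ?_
  · exact (continuous_sw G).comp ((continuous_snd.comp continuous_fst).prodMk continuous_snd)
  · intro q
    exact Or.inl (sw_pos _ _ _).ne'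

lemma continuous_gg' (d l : ℝ) (G : C(unitInterval, ℝ)) : Continuous (gg d l G) :=
  (continuous_gg G).comp (continuous_const (y := ((d, l) : ℝ × ℝ)) |>.prodMk continuous_id)

/-- the averaged flux -/
def QQ (d l : ℝ) (G : C(unitInterval, ℝ)) (c : ℝ) : ℝ :=
  ∫ s in (0:ℝ)..1, gg d l G (1 - s * (1 - c)) * Fh G (1 - s * (1 - c))

lemma continuous_QQ (G : C(unitInterval, ℝ)) :
    Continuous fun q : (ℝ × ℝ) × ℝ => QQ q.1.1 q.1.2 G q.2 := by
  unfold QQ
  apply intervalIntegral.continuous_parametric_intervalIntegral_of_continuous'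
  have h1 : Continuous fun r : ((ℝ × ℝ) × ℝ) × ℝ => 1 - r.2 * (1 - r.1.2) := by fun_prop
  refine Continuous.mul ?_ ?_
  · exact (continuous_gg G).comp ((continuous_fst.comp continuous_fst).prodMk h1)
  · exact (continuous_Fh G).comp h1

lemma abs_QQ_le {d : ℝ} (hd : 0 ≤ d) (hd1 : d ≤ 1) (l : ℝ) (G : C(unitInterval, ℝ)) (c : ℝ) :
    |QQ d l G c| ≤ 8 := by
  unfold QQ
  have := intervalIntegral.norm_integral_le_of_norm_le_const (a := 0) (b := 1) (C := 8)
    (f := fun s => gg d l G (1 - s * (1 - c)) * Fh G (1 - s * (1 - c))) (by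
      intro s _
      rw [Real.norm_eq_abs, abs_mul, abs_of_pos (gg_pos _ _ _ _)]
      calc gg d l G (1 - s * (1 - c)) * |Fh G (1 - s * (1 - c))| ≤ 4 * 2 :=
            mul_le_mul (gg_le hd hd1 _ _ _) (abs_Fh_le _ _) (abs_nonneg _) (by norm_num)
        _ = 8 := by norm_num)
  simpa using this

lemma QQ_sub {d l : ℝ} (hd : 0 ≤ d) (hd1 : d ≤ 1) (hl : 1 ≤ l) (hl' : l ≤ 3)
    (G H : C(unitInterval, ℝ)) {c : ℝ} (hc : c ≤ 1) :
    |QQ d l G c - QQ d l H c| ≤ (8 * d + 4 / 576) * (wt c * dist G H) := by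
  unfold QQ
  have hcont : ∀ K : C(unitInterval, ℝ),
      Continuous fun s : ℝ => gg d l K (1 - s * (1 - c)) * Fh K (1 - s * (1 - c)) := by
    intro K
    have h1 : Continuous fun s : ℝ => 1 - s * (1 - c) := by fun_prop
    exact ((continuous_gg' d l K).comp h1).mul ((continuous_Fh K).comp h1)
  rw [← intervalIntegral.integral_sub ((hcont G).intervalIntegrable 0 1)
    ((hcont H).intervalIntegrable 0 1)]
  have := intervalIntegral.norm_integral_le_of_norm_le_const (a := 0) (b := 1)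
    (C := (8 * d + 4 / 576) * (wt c * dist G H))
    (f := fun s => gg d l G (1 - s * (1 - c)) * Fh G (1 - s * (1 - c))
      - gg d l H (1 - s * (1 - c)) * Fh H (1 - s * (1 - c))) (by
      intro s hs
      rw [uIoc_of_le zero_le_one] at hs
      set y := 1 - s * (1 - c) with hy
      have hy1 : y ≤ 1 := by
        have : 0 ≤ s * (1 - c) := mul_nonneg hs.1.le (by linarith)
        linarith
      have hyc : c ≤ y := by
        have : s * (1 - c) ≤ 1 * (1 - c) := mul_le_mul_of_nonneg_right hs.2 (by linarith)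
        linarith
      have hw : wt y ≤ wt c := wt_mono hyc
      have hD : 0 ≤ dist G H := dist_nonneg
      have h1 := gg_sub hd hd1 hl hl' G H hy1
      have h2 := Fh_sub G H hy1
      have h3 := abs_Fh_le G y
      have h4 := gg_le hd hd1 l H y
      have e : gg d l G y * Fh G y - gg d l H y * Fh H y
          = (gg d l G y - gg d l H y) * Fh G y + gg d l H y * (Fh G y - Fh H y) := by ring
      rw [Real.norm_eq_abs, e]
      refine (abs_add_le _ _).trans ?_
      rw [abs_mul, abs_mul, abs_of_pos (gg_pos d l H y)]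
      have hwy := wt_pos y
      have b1 : |gg d l G y - gg d l H y| * |Fh G y| ≤ (4 * d * (wt y * dist G H)) * 2 :=
        mul_le_mul h1 h3 (abs_nonneg _) (by positivity)
      have b2 : gg d l H y * |Fh G y - Fh H y| ≤ 4 * (wt y / 576 * dist G H) :=
        mul_le_mul h4 h2 (abs_nonneg _) (by norm_num)
      have hwD : wt y * dist G H ≤ wt c * dist G H := mul_le_mul_of_nonneg_right hw hD
      have : (8 * d + 4 / 576) * (wt y * dist G H) ≤ (8 * d + 4 / 576) * (wt c * dist G H) :=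
        mul_le_mul_of_nonneg_left hwD (by positivity)
      linarith)
  simpa using this

/-- the constant K -/
def KK (d l : ℝ) : ℝ := l * ((l - 1) * (1 + d) + 2)

lemma continuous_KK : Continuous fun q : ℝ × ℝ => KK q.1 q.2 := by
  unfold KK; fun_prop

/-- raw operator -/
def Traw (d l : ℝ) (G : C(unitInterval, ℝ)) (c : ℝ) : ℝ :=
  (wt c)⁻¹ * (KK d l / (1 + c)) * (QQ d l G c / gg d l G c)

lemma continuous_Traw (G : C(unitInterval, ℝ)) :
    Continuous fun q : (ℝ × ℝ) × unitInterval => Traw q.1.1 q.1.2 G q.2 := by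
  unfold Traw
  have hc : Continuous fun q : (ℝ × ℝ) × unitInterval => ((q.1, (q.2 : ℝ)) : (ℝ × ℝ) × ℝ) := by
    fun_prop
  have hc2 : Continuous fun q : (ℝ × ℝ) × unitInterval => (q.2 : ℝ) := by fun_prop
  refine Continuous.mul (Continuous.mul ?_ ?_) ?_
  · exact (continuous_wt.comp hc2).inv₀ fun q => (wt_pos _).ne'
  · refine Continuous.div (continuous_KK.comp continuous_fst) (continuous_const.add hc2) ?_
    intro q
    have := q.2.2.1
    have : (0:ℝ) < 1 + (q.2 : ℝ) := by linarith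
    exact this.ne'
  · exact ((continuous_QQ G).comp hc).div ((continuous_gg G).comp hc) fun q => (gg_pos _ _ _ _).ne'

/-- the operator on C([0,1]), continuous in the parameters -/
def TT (G : C(unitInterval, ℝ)) : C(ℝ × ℝ, C(unitInterval, ℝ)) :=
  ContinuousMap.curry ⟨fun q => Traw q.1.1 q.1.2 G q.2, continuous_Traw G⟩

lemma TT_apply (G : C(unitInterval, ℝ)) (q : ℝ × ℝ) (c : unitInterval) :
    TT G q c = Traw q.1 q.2 G c := rfl

lemma KK_bound {d l : ℝ} (hd : 0 ≤ d) (hd1 : d ≤ 1) (hl : 1 ≤ l) (hl' : l ≤ 3) :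
    0 ≤ KK d l ∧ KK d l ≤ 18 := by
  unfold KK
  have h1 : 0 ≤ (l - 1) * (1 + d) := mul_nonneg (by linarith) (by linarith)
  have h2 : (l - 1) * (1 + d) ≤ 2 * 2 :=
    mul_le_mul (by linarith) (by linarith) (by linarith) (by norm_num)
  constructor
  · exact mul_nonneg (by linarith) (by linarith)
  · calc l * ((l - 1) * (1 + d) + 2) ≤ 3 * 6 :=
        mul_le_mul hl' (by linarith) (by linarith) (by norm_num)
      _ = 18 := by norm_num

lemma Traw_sub {d l : ℝ} (hd : 0 ≤ d) (hd1 : d ≤ 1/10368) (hl : 1 ≤ l) (hl' : l ≤ 3)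
    (G H : C(unitInterval, ℝ)) {c : ℝ} (hc0 : 0 ≤ c) (hc : c ≤ 1) :
    |Traw d l G c - Traw d l H c| ≤ 1/2 * dist G H := by
  have hd1' : d ≤ 1 := by linarith
  have hD : 0 ≤ dist G H := dist_nonneg
  have hw := wt_pos c
  set A := wt c * dist G H with hA
  have hA0 : 0 ≤ A := by positivity
  have hQ := QQ_sub hd hd1' hl hl' G H hc
  have hg := gg_sub hd hd1' hl hl' G H hc
  have hQb := abs_QQ_le hd hd1' l H c
  have g1 := gg_ge hd hd1' l G c
  have g2 := gg_ge hd hd1' l H c
  have g1p := gg_pos d l G c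
  have g2p := gg_pos d l H c
  obtain ⟨hK0, hK1⟩ := KK_bound hd hd1' hl hl'
  have key : |QQ d l G c / gg d l G c - QQ d l H c / gg d l H c| ≤ (144 * d + 8 / 576) * A := by
    have e : QQ d l G c / gg d l G c - QQ d l H c / gg d l H c
        = (QQ d l G c - QQ d l H c) / gg d l G c
          + QQ d l H c * (gg d l H c - gg d l G c) / (gg d l G c * gg d l H c) := by
      field_simp
      ring
    rw [e]
    refine (abs_add_le _ _).trans ?_
    rw [abs_div, abs_div, abs_mul, abs_of_pos g1p, abs_of_pos (mul_pos g1p g2p)]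
    have b1 : |QQ d l G c - QQ d l H c| / gg d l G c ≤ 2 * ((8 * d + 4 / 576) * A) := by
      rw [div_le_iff₀ g1p]
      have h0 : 0 ≤ (8 * d + 4 / 576) * A := by positivity
      nlinarith
    have b2 : |QQ d l H c| * |gg d l H c - gg d l G c| / (gg d l G c * gg d l H c)
        ≤ 4 * (8 * (4 * d * A)) := by
      rw [div_le_iff₀ (mul_pos g1p g2p)]
      have h0 : |QQ d l H c| * |gg d l H c - gg d l G c| ≤ 8 * (4 * d * A) := by
        rw [abs_sub_comm]
        exact mul_le_mul hQb hg (abs_nonneg _) (by norm_num)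
      have h1 : 1/4 ≤ gg d l G c * gg d l H c := by nlinarith
      have h2 : 0 ≤ 8 * (4 * d * A) := by positivity
      nlinarith
    linarith
  unfold Traw
  rw [← mul_sub, abs_mul, abs_mul, abs_of_pos (inv_pos.mpr hw),
    abs_of_nonneg (div_nonneg hK0 (by linarith : (0:ℝ) ≤ 1 + c))]
  have hKc : KK d l / (1 + c) ≤ 18 := by
    rw [div_le_iff₀ (by linarith)]
    nlinarith
  have hKc0 : 0 ≤ KK d l / (1 + c) := div_nonneg hK0 (by linarith)
  have step : (wt c)⁻¹ * (KK d l / (1 + c)) * |QQ d l G c / gg d l G c - QQ d l H c / gg d l H c|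
      ≤ (wt c)⁻¹ * 18 * ((144 * d + 8 / 576) * A) := by
    apply mul_le_mul _ key (abs_nonneg _) (by positivity)
    exact mul_le_mul_of_nonneg_left hKc (by positivity)
  refine step.trans ?_
  have e2 : (wt c)⁻¹ * 18 * ((144 * d + 8 / 576) * A) = 18 * (144 * d + 8 / 576) * dist G H := by
    rw [hA]; field_simp
  rw [e2]
  apply mul_le_mul_of_nonneg_right _ hD
  linarith

lemma TT_dist {d l : ℝ} (hd : 0 ≤ d) (hd1 : d ≤ 1/10368) (hl : 1 ≤ l) (hl' : l ≤ 3)
    (G H : C(unitInterval, ℝ)) : dist (TT G (d, l)) (TT H (d, l)) ≤ 1/2 * dist G H := by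
  rw [ContinuousMap.dist_le (by positivity)]
  intro c
  rw [Real.dist_eq, TT_apply, TT_apply]
  exact Traw_sub hd hd1 hl hl' G H c.2.1 c.2.2

/-- the parameter set -/
def Par : Set (ℝ × ℝ) := Icc 0 (1/10368) ×ˢ Icc 1 3

lemma contracting {q : ℝ × ℝ} (hq : q ∈ Par) :
    ContractingWith (1/2 : NNReal) (fun G : C(unitInterval, ℝ) => TT G q) := by
  constructor
  · norm_num
  · apply LipschitzWith.of_dist_le_mul
    intro G H
    have := TT_dist hq.1.1 hq.1.2 hq.2.1 hq.2.2 G H
    simpa using this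

/-- the fixed point -/
lemma exists_fix {q : ℝ × ℝ} (hq : q ∈ Par) : ∃ G : C(unitInterval, ℝ), TT G q = G :=
  ⟨_, (contracting hq).fixedPoint_isFixedPt⟩

open Classical in
def fixG (q : ℝ × ℝ) : C(unitInterval, ℝ) := if h : q ∈ Par then (exists_fix h).choose else 0

lemma TT_fixG {q : ℝ × ℝ} (hq : q ∈ Par) : TT (fixG q) q = fixG q := by
  unfold fixG
  rw [dif_pos hq]
  exact (exists_fix hq).choose_spec

lemma dist_fix_le {q : ℝ × ℝ} (hq : q ∈ Par) (H : C(unitInterval, ℝ)) :
    dist (fixG q) H ≤ 2 * dist (TT H q) H := by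
  have h1 : dist (fixG q) H ≤ dist (TT (fixG q) q) (TT H q) + dist (TT H q) H := by
    calc dist (fixG q) H ≤ dist (fixG q) (TT H q) + dist (TT H q) H := dist_triangle _ _ _
      _ = _ := by rw [TT_fixG hq]
  have h2 := TT_dist hq.1.1 hq.1.2 hq.2.1 hq.2.2 (fixG q) H
  have e : ((q.1, q.2) : ℝ × ℝ) = q := rfl
  rw [e] at h2
  linarith

lemma continuousOn_fixG : ContinuousOn fixG Par := by
  intro q hq
  rw [ContinuousWithinAt, tendsto_iff_dist_tendsto_zero]
  have h1 : Tendsto (fun p => 2 * dist (TT (fixG q) p) (fixG q)) (𝓝[Par] q) (𝓝 0) := by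
    have h2 : Tendsto (fun p => TT (fixG q) p) (𝓝[Par] q) (𝓝 (TT (fixG q) q)) :=
      ((TT (fixG q)).continuous.tendsto q).mono_left nhdsWithin_le_nhds
    rw [TT_fixG hq] at h2
    have h3 := (tendsto_iff_dist_tendsto_zero.mp h2).const_mul 2
    simpa using h3
  refine squeeze_zero' (Eventually.of_forall fun _ => dist_nonneg) ?_ h1
  filter_upwards [self_mem_nhdsWithin] with p hp
  exact dist_fix_le hp _

end

end Pool.Agent.PHarm
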