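import Mathlib
import Pool.Agent.PHarm.Exist

set_option autoImplicit false

open MeasureTheory Set Filter Topology

namespace Pool.Agent.PHarm

noncomputable section

/-- Legendre polynomial of degree two -/
def F0 (c : ℝ) : ℝ := (3 * c ^ 2 - 1) / 2

lemma hasDerivAt_F0 (c : ℝ) : HasDerivAt F0 (3 * c) c := by
  unfold F0
  have h := (((hasDerivAt_pow 2 c).const_mul 3).sub_const 1).div_const 2
  refine h.congr_deriv ?_
  simp
  ring

lemma continuous_F0 : Continuous F0 := by unfold F0; fun_prop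

/-- change of variables in the averaged flux -/
lemma QQ_eq (d l : ℝ) (G : C(unitInterval, ℝ)) (c : ℝ) :
    (1 - c) * QQ d l G c = ∫ t in c..1, gg d l G t * Fh G t := by
  unfold QQ
  have h := intervalIntegral.mul_integral_comp_sub_mul
    (f := fun t => gg d l G t * Fh G t) (a := 0) (b := 1) (1 - c) 1
  have e : ∀ s : ℝ, 1 - s * (1 - c) = 1 - (1 - c) * s := by intro s; ring
  simp only [e]
  rw [h]
  congr 1 <;> ring

lemma flux {q : ℝ × ℝ} (hq : q ∈ Par) {c : ℝ} (hc : c ∈ Icc (0:ℝ) 1) :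
    (1 - c ^ 2) * (gg q.1 q.2 (fixG q) c * Gx (fixG q) c)
      = KK q.1 q.2 * ∫ t in c..1, gg q.1 q.2 (fixG q) t * Fh (fixG q) t := by
  rw [← QQ_eq]
  have h1 : fixG q ⟨c, hc⟩ = Traw q.1 q.2 (fixG q) c := by
    conv_lhs => rw [← TT_fixG hq]
    rfl
  have h2 : ext (fixG q) c = fixG q ⟨c, hc⟩ := by
    unfold ext
    exact IccExtend_of_mem _ _ hc
  have h3 : Gx (fixG q) c = KK q.1 q.2 / (1 + c) * (QQ q.1 q.2 (fixG q) c / gg q.1 q.2 (fixG q) c) := by
    unfold Gx
    rw [h2, h1]
    unfold Traw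
    have := (wt_pos c).ne'
    field_simp
  rw [h3]
  have hg := (gg_pos q.1 q.2 (fixG q) c).ne'
  have hc1 : (1 + c) ≠ 0 := by linarith [hc.1]
  field_simp
  ring

/-- the base solution -/
def G0 : C(unitInterval, ℝ) :=
  ⟨fun c => (wt c)⁻¹ * (3 * (c : ℝ)), by
    refine Continuous.mul ?_ (by fun_prop)
    exact (continuous_wt.comp (by fun_prop : Continuous fun c : unitInterval => (c : ℝ))).inv₀
      fun q => (wt_pos _).ne'⟩

lemma Gx_G0 {y : ℝ} (hy : y ∈ Icc (0:ℝ) 1) : Gx G0 y = 3 * y := by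
  unfold Gx ext
  rw [IccExtend_of_mem _ _ hy]
  have := (wt_pos y).ne'
  simp only [G0, ContinuousMap.coe_mk]
  field_simp

lemma Fx_G0 {y : ℝ} (hy : y ∈ Icc (0:ℝ) 1) : Fx G0 y = F0 y := by
  unfold Fx
  have h1 : ∫ t in y..1, Gx G0 t = ∫ t in y..1, 3 * t := by
    apply intervalIntegral.integral_congr
    intro t ht
    rw [uIcc_of_le hy.2] at ht
    exact Gx_G0 ⟨hy.1.trans ht.1, ht.2⟩
  rw [h1, intervalIntegral.integral_eq_sub_of_hasDerivAt (fun t _ => hasDerivAt_F0 t)
    ((by fun_prop : Continuous fun t : ℝ => 3 * t).intervalIntegrable _ _)]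
  unfold F0
  ring

lemma abs_F0_le {y : ℝ} (hy : y ∈ Icc (0:ℝ) 1) : |F0 y| ≤ 1 := by
  unfold F0
  rw [abs_le]
  have h1 := hy.1
  have h2 := hy.2
  constructor <;> nlinarith

lemma Fh_G0 {y : ℝ} (hy : y ∈ Icc (0:ℝ) 1) : Fh G0 y = F0 y := by
  unfold Fh
  rw [Fx_G0 hy]
  have := abs_le.mp (abs_F0_le hy)
  rw [min_eq_right (by linarith), max_eq_right (by linarith)]

lemma gg_zero (l : ℝ) (G : C(unitInterval, ℝ)) (y : ℝ) : gg 0 l G y = 1 := by
  unfold gg
  exact Real.rpow_zero _

lemma mem_Par_base : ((0, 2) : ℝ × ℝ) ∈ Par := by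
  constructor
  · constructor <;> norm_num
  · constructor <;> norm_num

lemma TT_G0 : TT G0 (0, 2) = G0 := by
  ext c
  rw [TT_apply]
  unfold Traw
  simp only
  rw [gg_zero]
  have hc := c.2
  have hQ : QQ 0 2 G0 (c:ℝ) = (c:ℝ) * (1 + c) / 2 := by
    by_cases h1 : (c : ℝ) = 1
    · rw [h1]
      unfold QQ
      have : ∀ s : ℝ, (1 : ℝ) - s * (1 - 1) = 1 := by intro s; ring
      simp only [this, gg_zero, one_mul]
      rw [intervalIntegral.integral_const, Fh_G0 ⟨zero_le_one, le_refl _⟩]
      unfold F0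
      norm_num
    · have h2 : (1 - (c:ℝ)) ≠ 0 := by
        intro h
        apply h1
        linarith
      apply mul_left_cancel₀ h2
      rw [QQ_eq]
      simp only [gg_zero, one_mul]
      have h3 : ∫ t in (c:ℝ)..1, Fh G0 t = ∫ t in (c:ℝ)..1, F0 t := by
        apply intervalIntegral.integral_congr
        intro t ht
        rw [uIcc_of_le hc.2] at ht
        exact Fh_G0 ⟨hc.1.trans ht.1, ht.2⟩
      rw [h3]
      have h4 : ∀ t ∈ uIcc (c:ℝ) 1, HasDerivAt (fun t => (t ^ 3 - t) / 2) (F0 t) t := by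
        intro t _
        have h := ((hasDerivAt_pow 3 t).sub (hasDerivAt_id t)).div_const 2
        refine h.congr_deriv ?_
        unfold F0
        simp
      rw [intervalIntegral.integral_eq_sub_of_hasDerivAt h4 (continuous_F0.intervalIntegrable _ _)]
      ring
  rw [hQ]
  simp only [G0, ContinuousMap.coe_mk, KK]
  have h1 : (1 + (c:ℝ)) ≠ 0 := by
    have := hc.1
    linarith
  have h2 := (wt_pos (c:ℝ)).ne'
  field_simp
  ring

lemma fixG_base : fixG (0, 2) = G0 := by
  have h := dist_fix_le mem_Par_base G0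
  rw [TT_G0, dist_self, mul_zero] at h
  exact dist_le_zero.mp h

/-- the exact integral identity -/
lemma identity {F G g : ℝ → ℝ} {K : ℝ} (hG : Continuous G) (hg : Continuous g)
    (hF : ∀ y, HasDerivAt F (G y) y)
    (hE : ∀ c ∈ Icc (0:ℝ) 1, (1 - c ^ 2) * (g c * G c) = K * ∫ t in c..1, g t * F t) :
    g 0 * G 0 / 2 = (6 - K) * (∫ c in (0:ℝ)..1, F c * F0 c)
      + ∫ c in (0:ℝ)..1, (g c - 1) * (3 * c * (1 - c ^ 2) * G c - K * F c * F0 c) := by
  have hFc : Continuous F := continuous_iff_continuousAt.mpr fun y => (hF y).continuousAt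
  have hgF : Continuous fun t => g t * F t := hg.mul hFc
  set P : ℝ → ℝ := fun c => ∫ t in c..1, g t * F t with hP
  have hPd : ∀ c, HasDerivAt P (-(g c * F c)) c := fun c =>
    intervalIntegral.integral_hasDerivAt_left (hgF.intervalIntegrable c 1)
      (hgF.stronglyMeasurableAtFilter _ _) hgF.continuousAt
  have hPc : Continuous P := continuous_iff_continuousAt.mpr fun y => (hPd y).continuousAt
  -- first integration by parts
  have i1 : ∫ c in (0:ℝ)..1, (-(g c * F c) * F0 c + P c * (3 * c)) = P 1 * F0 1 - P 0 * F0 0 := by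
    apply intervalIntegral.integral_eq_sub_of_hasDerivAt (f := fun c => P c * F0 c)
    · intro c _
      exact (hPd c).mul (hasDerivAt_F0 c)
    · apply Continuous.intervalIntegrable
      exact ((hgF.neg).mul continuous_F0).add (hPc.mul (by fun_prop))
  have hP1 : P 1 = 0 := by simp [hP]
  have hF00 : F0 0 = -1/2 := by unfold F0; norm_num
  rw [hP1, hF00] at i1
  -- second integration by parts
  have i2 : ∫ c in (0:ℝ)..1, ((3 - 9 * c ^ 2) * F c + (3 * c * (1 - c ^ 2)) * G c) = 0 := by
    rw [intervalIntegral.integral_eq_sub_of_hasDerivAt (f := fun c => (3 * c * (1 - c ^ 2)) * F c)]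
    · ring
    · intro c _
      have h := (((hasDerivAt_id c).const_mul 3).mul ((hasDerivAt_pow 2 c).const_sub 1)).mul (hF c)
      refine h.congr_deriv ?_
      simp only [Pi.mul_apply, id_eq, Nat.cast_ofNat, Nat.add_one_sub_one, pow_one]
      ring
    · apply Continuous.intervalIntegrable
      exact ((by fun_prop : Continuous fun c : ℝ => 3 - 9 * c ^ 2).mul hFc).add
        ((by fun_prop : Continuous fun c : ℝ => 3 * c * (1 - c ^ 2)).mul hG)
  -- use the equation
  have i3 : ∫ c in (0:ℝ)..1, K * (P c * (3 * c)) = ∫ c in (0:ℝ)..1, 3 * c * (1 - c ^ 2) * (g c * G c) := by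
    apply intervalIntegral.integral_congr
    intro c hc
    rw [uIcc_of_le zero_le_one] at hc
    have := hE c hc
    simp only
    rw [show K * (P c * (3 * c)) = 3 * c * (K * P c) by ring, hP]
    simp only
    rw [← this]
    ring
  have hE0 := hE 0 ⟨le_refl _, zero_le_one⟩
  have e0 : g 0 * G 0 = K * P 0 := by
    rw [← hE0]; ring
  -- continuity facts
  have c1 : Continuous fun c => g c * F c * F0 c := hgF.mul continuous_F0
  have c2 : Continuous fun c => P c * (3 * c) := hPc.mul (by fun_prop)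
  have c3 : Continuous fun c => F c * F0 c := hFc.mul continuous_F0
  have c4 : Continuous fun c => 3 * c * (1 - c ^ 2) * (g c * G c) :=
    (by fun_prop : Continuous fun c : ℝ => 3 * c * (1 - c ^ 2)).mul (hg.mul hG)
  have c5 : Continuous fun c => 3 * c * (1 - c ^ 2) * G c :=
    (by fun_prop : Continuous fun c : ℝ => 3 * c * (1 - c ^ 2)).mul hG
  have j1 : ∫ c in (0:ℝ)..1, (-(g c * F c) * F0 c + P c * (3 * c))
      = -(∫ c in (0:ℝ)..1, g c * F c * F0 c) + ∫ c in (0:ℝ)..1, P c * (3 * c) := by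
    rw [intervalIntegral.integral_add, ← intervalIntegral.integral_neg]
    · congr 1
      apply intervalIntegral.integral_congr
      intro c _
      simp only
      ring
    · exact (hgF.neg.mul continuous_F0).intervalIntegrable _ _
    · exact c2.intervalIntegrable _ _
  have j2 : ∫ c in (0:ℝ)..1, ((3 - 9 * c ^ 2) * F c + (3 * c * (1 - c ^ 2)) * G c)
      = -6 * (∫ c in (0:ℝ)..1, F c * F0 c) + ∫ c in (0:ℝ)..1, 3 * c * (1 - c ^ 2) * G c := by
    rw [intervalIntegral.integral_add, ← intervalIntegral.integral_const_mul]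
    · congr 1
      apply intervalIntegral.integral_congr
      intro c _
      simp only [F0]
      ring
    · exact ((by fun_prop : Continuous fun c : ℝ => 3 - 9 * c ^ 2).mul hFc).intervalIntegrable _ _
    · exact c5.intervalIntegrable _ _
  have j3 : ∫ c in (0:ℝ)..1, (g c - 1) * (3 * c * (1 - c ^ 2) * G c - K * F c * F0 c)
      = (∫ c in (0:ℝ)..1, 3 * c * (1 - c ^ 2) * (g c * G c))
        - (∫ c in (0:ℝ)..1, 3 * c * (1 - c ^ 2) * G c)
        - K * (∫ c in (0:ℝ)..1, g c * F c * F0 c) + K * (∫ c in (0:ℝ)..1, F c * F0 c) := by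
    have e : ∀ c : ℝ, (g c - 1) * (3 * c * (1 - c ^ 2) * G c - K * F c * F0 c)
        = ((3 * c * (1 - c ^ 2) * (g c * G c) - 3 * c * (1 - c ^ 2) * G c)
          - K * (g c * F c * F0 c)) + K * (F c * F0 c) := by
      intro c; ring
    simp only [e]
    have c6 : Continuous fun c => 3 * c * (1 - c ^ 2) * (g c * G c) - 3 * c * (1 - c ^ 2) * G c :=
      c4.sub c5
    have c7 : Continuous fun c => K * (g c * F c * F0 c) := continuous_const.mul c1
    have c8 : Continuous fun c => 3 * c * (1 - c ^ 2) * (g c * G c) - 3 * c * (1 - c ^ 2) * G c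
        - K * (g c * F c * F0 c) := c6.sub c7
    have c9 : Continuous fun c => K * (F c * F0 c) := continuous_const.mul c3
    rw [intervalIntegral.integral_add (c8.intervalIntegrable _ _) (c9.intervalIntegrable _ _),
      intervalIntegral.integral_sub (c6.intervalIntegrable _ _) (c7.intervalIntegrable _ _),
      intervalIntegral.integral_sub (c4.intervalIntegrable _ _) (c5.intervalIntegrable _ _),
      intervalIntegral.integral_const_mul, intervalIntegral.integral_const_mul]
  rw [intervalIntegral.integral_const_mul] at i3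
  rw [j3, ← i3, e0]
  rw [j1] at i1
  rw [j2] at i2
  have : (∫ c in (0:ℝ)..1, g c * F c * F0 c) = (∫ c in (0:ℝ)..1, P c * (3 * c)) - P 0 / 2 := by
    linarith
  rw [this]
  have h6 : (∫ c in (0:ℝ)..1, 3 * c * (1 - c ^ 2) * G c) = 6 * (∫ c in (0:ℝ)..1, F c * F0 c) := by
    linarith
  rw [h6]
  ring

end

end Pool.Agent.PHarm
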