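import Mathlib
import Pool.Agent.PHarm.Exist2

set_option autoImplicit false

open MeasureTheory Set Filter Topology

namespace Pool.Agent.PHarm

noncomputable section

lemma wt_le_zero {y : ℝ} (hy : 0 ≤ y) : wt y ≤ wt 0 := wt_mono hy

lemma Fx_near {G : C(unitInterval, ℝ)} {e : ℝ} (h : wt 0 * dist G G0 ≤ e) {y : ℝ}
    (hy : y ∈ Icc (0:ℝ) 1) : |Fx G y - F0 y| ≤ e := by
  rw [← Fx_G0 hy]
  refine (Fx_sub G G0 hy.2).trans ?_
  have h1 := wt_le_zero hy.1
  have h2 := wt_pos y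
  have h3 : 0 ≤ dist G G0 := dist_nonneg
  have : wt y / 576 * dist G G0 ≤ wt 0 * dist G G0 := by
    apply mul_le_mul_of_nonneg_right _ h3
    linarith
  linarith

lemma Gx_near {G : C(unitInterval, ℝ)} {e : ℝ} (h : wt 0 * dist G G0 ≤ e) {y : ℝ}
    (hy : y ∈ Icc (0:ℝ) 1) : |Gx G y - 3 * y| ≤ e := by
  rw [← Gx_G0 hy]
  refine (Gx_sub G G0 y).trans ?_
  have h1 := wt_le_zero hy.1
  have h3 : 0 ≤ dist G G0 := dist_nonneg
  have : wt y * dist G G0 ≤ wt 0 * dist G G0 := mul_le_mul_of_nonneg_right h1 h3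
  linarith

lemma Fh_near {G : C(unitInterval, ℝ)} (h : wt 0 * dist G G0 ≤ 1/10) {y : ℝ}
    (hy : y ∈ Icc (0:ℝ) 1) : Fh G y = Fx G y := by
  have h1 := abs_le.mp (Fx_near h hy)
  have h2 := abs_le.mp (abs_F0_le hy)
  unfold Fh
  rw [min_eq_right (by linarith), max_eq_right (by linarith)]

lemma gg_near {G : C(unitInterval, ℝ)} {d l : ℝ} (h : wt 0 * dist G G0 ≤ 1/10)
    (hl : |l - 2| ≤ 1/10) {y : ℝ} (hy : y ∈ Icc (0:ℝ) 1) :
    gg d l G y = (l ^ 2 * Fx G y ^ 2 + (1 - y ^ 2) * Gx G y ^ 2) ^ (d / 2) := by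
  have hF := Fx_near h hy
  have hG := Gx_near h hy
  have hF0 := abs_F0_le hy
  have hs0 : 0 ≤ 1 - y ^ 2 := by nlinarith [hy.1, hy.2]
  have hs1 : Real.sqrt (1 - y^2) ≤ 1 := by
    rw [Real.sqrt_le_iff]
    exact ⟨by norm_num, by nlinarith [sq_nonneg y]⟩
  have key := sqrt_sub (l * Fx G y) (Real.sqrt (1 - y^2) * Gx G y) (2 * F0 y)
    (Real.sqrt (1 - y^2) * (3 * y))
  have e0 : (2 * F0 y) ^ 2 + (Real.sqrt (1 - y^2) * (3 * y)) ^ 2 = 1 + 3 * y ^ 2 := by
    rw [mul_pow, mul_pow, Real.sq_sqrt hs0]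
    unfold F0
    ring
  rw [e0] at key
  have b1 : |l * Fx G y - 2 * F0 y| ≤ 31/100 := by
    have e : l * Fx G y - 2 * F0 y = (l - 2) * F0 y + l * (Fx G y - F0 y) := by ring
    have hl2 : |l| ≤ 21/10 := by
      have := abs_le.mp hl
      rw [abs_le]; constructor <;> linarith
    rw [e]
    refine (abs_add_le _ _).trans ?_
    rw [abs_mul, abs_mul]
    have t1 : |l - 2| * |F0 y| ≤ 1/10 * 1 := mul_le_mul hl hF0 (abs_nonneg _) (by norm_num)
    have t2 : |l| * |Fx G y - F0 y| ≤ 21/10 * (1/10) :=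
      mul_le_mul hl2 hF (abs_nonneg _) (by norm_num)
    linarith
  have b2 : |Real.sqrt (1 - y^2) * Gx G y - Real.sqrt (1 - y^2) * (3 * y)| ≤ 1/10 := by
    rw [← mul_sub, abs_mul, abs_of_nonneg (Real.sqrt_nonneg _)]
    calc Real.sqrt (1 - y^2) * |Gx G y - 3 * y| ≤ 1 * (1/10) :=
          mul_le_mul hs1 hG (abs_nonneg _) zero_le_one
      _ = 1/10 := by norm_num
  have b3 : 1 ≤ Real.sqrt (1 + 3 * y ^ 2) := by
    rw [Real.one_le_sqrt]
    nlinarith [sq_nonneg y]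
  have b4 : Real.sqrt (1 + 3 * y ^ 2) ≤ 2 := by
    rw [Real.sqrt_le_iff]
    exact ⟨by norm_num, by nlinarith [hy.1, hy.2]⟩
  have hk := abs_le.mp key
  have hw : sw l G y = Real.sqrt ((l * Fx G y)^2 + (Real.sqrt (1 - y^2) * Gx G y)^2) := by
    unfold sw
    rw [min_eq_right (by linarith), max_eq_right (by linarith)]
  unfold gg
  rw [hw, Real.sqrt_eq_rpow, ← Real.rpow_mul (by positivity), mul_pow, mul_pow, Real.sq_sqrt hs0]
  congr 1
  ring

lemma flux_near {q : ℝ × ℝ} (hq : q ∈ Par) (h : wt 0 * dist (fixG q) G0 ≤ 1/10) :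
    ∀ c ∈ Icc (0:ℝ) 1, (1 - c ^ 2) * (gg q.1 q.2 (fixG q) c * Gx (fixG q) c)
      = KK q.1 q.2 * ∫ t in c..1, gg q.1 q.2 (fixG q) t * Fx (fixG q) t := by
  intro c hc
  rw [flux hq hc]
  congr 1
  apply intervalIntegral.integral_congr
  intro t ht
  rw [uIcc_of_le hc.2] at ht
  simp only
  rw [Fh_near h ⟨hc.1.trans ht.1, ht.2⟩]

lemma flux_near' {d l : ℝ} (hq : ((d, l) : ℝ × ℝ) ∈ Par)
    (h : wt 0 * dist (fixG (d, l)) G0 ≤ 1/10) :
    ∀ c ∈ Icc (0:ℝ) 1, (1 - c ^ 2) * (gg d l (fixG (d, l)) c * Gx (fixG (d, l)) c)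
      = KK d l * ∫ t in c..1, gg d l (fixG (d, l)) t * Fx (fixG (d, l)) t :=
  fun c hc => flux_near hq h c hc

lemma integral_F0_sq : ∫ c in (0:ℝ)..1, F0 c * F0 c = 1/5 := by
  have h4 : ∀ t ∈ uIcc (0:ℝ) 1, HasDerivAt (fun t => (9 * t ^ 5 / 5 - 2 * t ^ 3 + t) / 4) (F0 t * F0 t) t := by
    intro t _
    have h := (((((hasDerivAt_pow 5 t).const_mul 9).div_const 5).sub
      ((hasDerivAt_pow 3 t).const_mul 2)).add (hasDerivAt_id t)).div_const 4
    refine h.congr_deriv ?_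
    unfold F0
    norm_num
    ring
  rw [intervalIntegral.integral_eq_sub_of_hasDerivAt h4
    ((continuous_F0.mul continuous_F0).intervalIntegrable _ _)]
  norm_num

lemma integral_FF0_close {F : ℝ → ℝ} (hF : Continuous F) {e : ℝ}
    (h : ∀ y ∈ Icc (0:ℝ) 1, |F y - F0 y| ≤ e) :
    |(∫ c in (0:ℝ)..1, F c * F0 c) - 1/5| ≤ e := by
  have c1 : Continuous fun c => F c * F0 c := hF.mul continuous_F0
  have c2 : Continuous fun c => F0 c * F0 c := continuous_F0.mul continuous_F0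
  rw [← integral_F0_sq, ← intervalIntegral.integral_sub (c1.intervalIntegrable _ _)
    (c2.intervalIntegrable _ _)]
  have := intervalIntegral.norm_integral_le_of_norm_le_const (a := (0:ℝ)) (b := 1)
    (f := fun c => F c * F0 c - F0 c * F0 c) (C := e) (by
      intro c hc
      rw [uIoc_of_le zero_le_one] at hc
      have hc' : c ∈ Icc (0:ℝ) 1 := ⟨hc.1.le, hc.2⟩
      rw [← sub_mul, Real.norm_eq_abs, abs_mul]
      have h1 := h c hc'
      have h2 := abs_F0_le hc'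
      calc |F c - F0 c| * |F0 c| ≤ |F c - F0 c| * 1 :=
            mul_le_mul_of_nonneg_left h2 (abs_nonneg _)
        _ ≤ e := by linarith)
  simpa using this

lemma sign_base {l : ℝ} (hq : ((0, l) : ℝ × ℝ) ∈ Par)
    (h : wt 0 * dist (fixG (0, l)) G0 ≤ 1/10) :
    Gx (fixG (0, l)) 0 / 2 = (6 - KK 0 l) * (∫ c in (0:ℝ)..1, Fx (fixG (0, l)) c * F0 c) := by
  have hid := identity (F := Fx (fixG (0, l))) (G := Gx (fixG (0, l)))
    (g := gg 0 l (fixG (0, l))) (K := KK 0 l) (continuous_Gx _) (continuous_gg' _ _ _)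
    (hasDerivAt_Fx _) (flux_near hq h)
  simp only [gg_zero, sub_self, zero_mul, one_mul, intervalIntegral.integral_zero, add_zero] at hid
  exact hid

theorem exist_main (ε : ℝ) (hε : 0 < ε) :
    ∃ d l : ℝ, 0 < d ∧ d < ε ∧ |l - 2| < ε ∧ ∃ F G g : ℝ → ℝ,
      Continuous G ∧ Continuous g ∧ (∀ y, HasDerivAt F (G y) y) ∧ F 1 = 1 ∧ G 0 = 0 ∧
      (∀ y ∈ Icc (0:ℝ) 1, |F y - F0 y| ≤ ε) ∧ (∀ y ∈ Icc (0:ℝ) 1, |G y - 3 * y| ≤ ε) ∧
      (∀ y ∈ Icc (0:ℝ) 1, g y = (l ^ 2 * F y ^ 2 + (1 - y ^ 2) * G y ^ 2) ^ (d / 2)) ∧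
      (∀ c ∈ Icc (0:ℝ) 1, (1 - c ^ 2) * (g c * G c) = KK d l * ∫ t in c..1, g t * F t) := by
  set e := min ε (1/10) with he
  have he0 : 0 < e := lt_min hε (by norm_num)
  have he1 : e ≤ ε := min_le_left _ _
  have he2 : e ≤ 1/10 := min_le_right _ _
  have hw0 := wt_pos 0
  obtain ⟨r, hr0, hr⟩ := Metric.continuousWithinAt_iff.mp
    (continuousOn_fixG (0, 2) mem_Par_base) (e / wt 0) (by positivity)
  rw [fixG_base] at hr
  have near : ∀ q ∈ Par, dist q (0, 2) < r → wt 0 * dist (fixG q) G0 ≤ e := by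
    intro q hq hqr
    have := hr hq hqr
    rw [lt_div_iff₀ hw0] at this
    linarith
  set η := min (min r ε) (1/10) / 2 with hη
  have hη0 : 0 < η := by
    have : 0 < min (min r ε) (1/10) := lt_min (lt_min hr0 hε) (by norm_num)
    positivity
  have hηr : η < r := by
    have h1 : min (min r ε) (1/10) ≤ r := (min_le_left _ _).trans (min_le_left _ _)
    have h2 : 0 < min (min r ε) (1/10) := lt_min (lt_min hr0 hε) (by norm_num)
    rw [hη]; linarith
  have hηε : η < ε := by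
    have h1 : min (min r ε) (1/10) ≤ ε := (min_le_left _ _).trans (min_le_right _ _)
    have h2 : 0 < min (min r ε) (1/10) := lt_min (lt_min hr0 hε) (by norm_num)
    rw [hη]; linarith
  have hη1 : η ≤ 1/10 := by
    have h1 : min (min r ε) (1/10) ≤ 1/10 := min_le_right _ _
    rw [hη]; linarith
  have memP : ∀ d l : ℝ, 0 ≤ d → d ≤ 1/10368 → |l - 2| ≤ η → ((d, l) : ℝ × ℝ) ∈ Par := by
    intro d l h1 h2 h3
    have := abs_le.mp h3
    exact ⟨⟨h1, h2⟩, ⟨by simp only; linarith, by simp only; linarith⟩⟩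
  have distP : ∀ d l : ℝ, 0 ≤ d → d < r → |l - 2| ≤ η → dist ((d, l) : ℝ × ℝ) (0, 2) < r := by
    intro d l h1 h2 h3
    rw [Prod.dist_eq, max_lt_iff]
    simp only [Real.dist_eq, sub_zero]
    exact ⟨by rwa [abs_of_nonneg h1], lt_of_le_of_lt h3 hηr⟩
  -- signs at d = 0
  have pos_int : ∀ l : ℝ, |l - 2| ≤ η →
      0 < ∫ c in (0:ℝ)..1, Fx (fixG (0, l)) c * F0 c := by
    intro l hl
    have hn := near _ (memP 0 l le_rfl (by norm_num) hl) (distP 0 l le_rfl hr0 hl)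
    have := integral_FF0_close (continuous_Fx (fixG (0, l))) (e := e)
      (fun y hy => Fx_near hn hy)
    have := abs_le.mp this
    linarith
  have s1 : 0 < Gx (fixG (0, 2 - η)) 0 := by
    have hl : |(2 - η) - 2| ≤ η := by
      rw [show (2 - η) - 2 = -η by ring, abs_neg, abs_of_pos hη0]
    have hn := near _ (memP 0 _ le_rfl (by norm_num) hl) (distP 0 _ le_rfl hr0 hl)
    have hs := sign_base (memP 0 _ le_rfl (by norm_num) hl) (hn.trans he2)
    have hp := pos_int _ hl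
    have hK : 0 < 6 - KK 0 (2 - η) := by
      unfold KK
      nlinarith
    have := mul_pos hK hp
    linarith
  have s2 : Gx (fixG (0, 2 + η)) 0 < 0 := by
    have hl : |(2 + η) - 2| ≤ η := by
      rw [show (2 + η) - 2 = η by ring, abs_of_pos hη0]
    have hn := near _ (memP 0 _ le_rfl (by norm_num) hl) (distP 0 _ le_rfl hr0 hl)
    have hs := sign_base (memP 0 _ le_rfl (by norm_num) hl) (hn.trans he2)
    have hp := pos_int _ hl
    have hK : 6 - KK 0 (2 + η) < 0 := by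
      unfold KK
      nlinarith
    have := mul_neg_of_neg_of_pos hK hp
    linarith
  -- continuity of the value at zero
  have hval : Continuous fun G : C(unitInterval, ℝ) => Gx G 0 := by
    unfold Gx ext
    refine continuous_const.mul ?_
    exact continuous_eval_const _
  have hcontG : ContinuousOn (fun q : ℝ × ℝ => Gx (fixG q) 0) Par :=
    hval.comp_continuousOn continuousOn_fixG
  -- continuity in d at d = 0
  have hd_cont : ∀ l : ℝ, |l - 2| ≤ η →
      Tendsto (fun d : ℝ => Gx (fixG (d, l)) 0) (𝓝[Icc 0 (1/10368)] 0)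
        (𝓝 (Gx (fixG (0, l)) 0)) := by
    intro l hl
    have h1 : ContinuousWithinAt (fun q : ℝ × ℝ => Gx (fixG q) 0) Par (0, l) :=
      hcontG (0, l) (memP 0 l le_rfl (by norm_num) hl)
    have h2 : Tendsto (fun d : ℝ => ((d, l) : ℝ × ℝ)) (𝓝[Icc 0 (1/10368)] 0) (𝓝[Par] (0, l)) := by
      apply tendsto_nhdsWithin_of_tendsto_nhds_of_eventually_within
      · have : Continuous fun d : ℝ => ((d, l) : ℝ × ℝ) := by fun_prop
        exact (this.tendsto 0).mono_left nhdsWithin_le_nhds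
      · filter_upwards [self_mem_nhdsWithin] with d hd
        exact memP d l hd.1 hd.2 hl
    exact h1.tendsto.comp h2
  have hl1 : |(2 - η) - 2| ≤ η := by
    rw [show (2 - η) - 2 = -η by ring, abs_neg, abs_of_pos hη0]
  have hl2 : |(2 + η) - 2| ≤ η := by
    rw [show (2 + η) - 2 = η by ring, abs_of_pos hη0]
  have ev1 := (hd_cont _ hl1).eventually (lt_mem_nhds s1)
  have ev2 := (hd_cont _ hl2).eventually (gt_mem_nhds s2)
  have ev := (ev1.and ev2)
  rw [eventually_nhdsWithin_iff, Metric.eventually_nhds_iff] at ev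
  obtain ⟨ρ, hρ0, hρ⟩ := ev
  set d := min (min (ρ / 2) (1/10368)) (min (r / 2) (ε / 2)) with hd
  have hd0 : 0 < d := lt_min (lt_min (by positivity) (by norm_num)) (lt_min (by positivity) (by positivity))
  have hdρ : d < ρ := by
    have : d ≤ ρ / 2 := (min_le_left _ _).trans (min_le_left _ _)
    linarith
  have hd1 : d ≤ 1/10368 := (min_le_left _ _).trans (min_le_right _ _)
  have hdr : d < r := by
    have : d ≤ r / 2 := (min_le_right _ _).trans (min_le_left _ _)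
    linarith
  have hdε : d < ε := by
    have : d ≤ ε / 2 := (min_le_right _ _).trans (min_le_right _ _)
    linarith
  clear_value d
  obtain ⟨t1, t2⟩ := hρ (y := d) (by rw [Real.dist_eq, sub_zero, abs_of_pos hd0]; exact hdρ)
    ⟨hd0.le, hd1⟩
  -- intermediate value in l
  have hcl : ContinuousOn (fun l : ℝ => Gx (fixG (d, l)) 0) (Icc (2 - η) (2 + η)) := by
    have : ContinuousOn (fun l : ℝ => ((d, l) : ℝ × ℝ)) (Icc (2 - η) (2 + η)) := by fun_prop
    refine hcontG.comp this ?_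
    intro l hl
    apply memP d l hd0.le hd1
    rw [abs_le]
    constructor <;> linarith [hl.1, hl.2]
  obtain ⟨l, hl, hl0⟩ := intermediate_value_Icc' (by linarith : 2 - η ≤ 2 + η) hcl
    ⟨t2.le, t1.le⟩
  have hlabs : |l - 2| ≤ η := by
    rw [abs_le]
    constructor <;> linarith [hl.1, hl.2]
  have hPar := memP d l hd0.le hd1 hlabs
  have hn := near _ hPar (distP d l hd0.le hdr hlabs)
  refine ⟨d, l, hd0, hdε, lt_of_le_of_lt hlabs hηε, Fx (fixG (d, l)), Gx (fixG (d, l)),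
    gg d l (fixG (d, l)), continuous_Gx _, continuous_gg' _ _ _, hasDerivAt_Fx _, ?_, hl0, ?_, ?_, ?_, ?_⟩
  · unfold Fx; simp
  · intro y hy
    exact (Fx_near hn hy).trans he1
  · intro y hy
    exact (Gx_near hn hy).trans he1
  · intro y hy
    exact gg_near (hn.trans he2) (hlabs.trans hη1) hy
  · intro c hc
    exact flux_near' hPar (hn.trans he2) c hc

end

end Pool.Agent.PHarm
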