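import Mathlib
import Pool.Agent.PHarm.Dens
import Pool.Agent.PHarm.Exist3

set_option autoImplicit false

open MeasureTheory Set Filter Topology

namespace Pool.Agent.PHarm

noncomputable section

/-- the profile data on [0,1] -/
structure Prof (d l : ℝ) (F G g : ℝ → ℝ) : Prop where
  hG : Continuous G
  hg : Continuous g
  hF : ∀ y, HasDerivAt F (G y) y
  hG0 : G 0 = 0
  hgd : ∀ y ∈ Icc (0:ℝ) 1, g y = (l ^ 2 * F y ^ 2 + (1 - y ^ 2) * G y ^ 2) ^ (d / 2)
  hE : ∀ c ∈ Icc (0:ℝ) 1, (1 - c ^ 2) * (g c * G c) = KK d l * ∫ t in c..1, g t * F t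

/-- even extension -/
def ev (F : ℝ → ℝ) (c : ℝ) : ℝ := F |c|

/-- odd extension -/
def od (G : ℝ → ℝ) (c : ℝ) : ℝ := if 0 ≤ c then G c else -G (-c)

lemma continuous_ev {F : ℝ → ℝ} (hF : Continuous F) : Continuous (ev F) := hF.comp continuous_abs

lemma continuous_od {G : ℝ → ℝ} (hG : Continuous G) (h0 : G 0 = 0) : Continuous (od G) := by
  unfold od
  apply Continuous.if_le hG (hG.comp continuous_neg).neg continuous_const continuous_id
  intro x hx
  have hx' : (0:ℝ) = x := hx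
  subst hx'
  simp [h0]

lemma hasDerivAt_ev {F G : ℝ → ℝ} (hF : ∀ y, HasDerivAt F (G y) y) (h0 : G 0 = 0) (c : ℝ) :
    HasDerivAt (ev F) (od G c) c := by
  rcases lt_trichotomy c 0 with hc | hc | hc
  · have h1 : HasDerivAt (fun y => F (-y)) (-G (-c)) c := by
      have := (hF (-c)).comp c (hasDerivAt_neg c)
      refine this.congr_deriv ?_
      ring
    have h2 : od G c = -G (-c) := by unfold od; rw [if_neg (not_le.mpr hc)]
    rw [h2]
    refine h1.congr_of_eventuallyEq ?_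
    filter_upwards [gt_mem_nhds hc] with y hy
    unfold ev
    rw [abs_of_neg hy]
  · subst hc
    have h2 : od G 0 = 0 := by unfold od; rw [if_pos le_rfl, h0]
    rw [h2]
    have h3 := hF 0
    rw [h0] at h3
    rw [hasDerivAt_iff_isLittleO] at h3 ⊢
    simp only [smul_zero, sub_zero] at h3 ⊢
    have h4 : Tendsto (fun x : ℝ => |x|) (𝓝 0) (𝓝 0) := by
      have := continuous_abs.tendsto (0:ℝ)
      rwa [abs_zero] at this
    have h5 := h3.comp_tendsto h4
    have h6 : (fun x => ev F x - ev F 0) = (fun x' => F x' - F 0) ∘ fun x => |x| := by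
      funext x
      simp [ev]
    rw [h6]
    refine h5.trans_isBigO ?_
    apply Asymptotics.IsBigO.of_bound 1
    filter_upwards with x
    simp
  · have h2 : od G c = G c := by unfold od; rw [if_pos hc.le]
    rw [h2]
    refine (hF c).congr_of_eventuallyEq ?_
    filter_upwards [lt_mem_nhds hc] with y hy
    unfold ev
    rw [abs_of_pos hy]

lemma od_sq (G : ℝ → ℝ) (c : ℝ) : od G c ^ 2 = G |c| ^ 2 := by
  unfold od
  split_ifs with h
  · rw [abs_of_nonneg h]
  · rw [abs_of_neg (not_le.mp h)]; ring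

variable {d l : ℝ} {F G g : ℝ → ℝ}

lemma Prof.Fcont (P : Prof d l F G g) : Continuous F :=
  continuous_iff_continuousAt.mpr fun y => (P.hF y).continuousAt

lemma Prof.ge_eq (P : Prof d l F G g) {c : ℝ} (hc : c ∈ Icc (-1:ℝ) 1) :
    ev g c = (l ^ 2 * ev F c ^ 2 + (1 - c ^ 2) * od G c ^ 2) ^ (d / 2) := by
  have h1 : |c| ∈ Icc (0:ℝ) 1 := ⟨abs_nonneg c, abs_le.mpr hc⟩
  unfold ev
  rw [P.hgd _ h1, od_sq, sq_abs]

lemma Prof.KK_pos (hl : 1 < l) (hd : 0 < d) : 0 < KK d l := by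
  unfold KK
  have : 0 < (l - 1) * (1 + d) := mul_pos (by linarith) (by linarith)
  exact mul_pos (by linarith) (by linarith)

lemma integral_even_left {m : ℝ → ℝ} (b : ℝ) :
    ∫ t in (-1:ℝ)..(-b), m |t| = ∫ t in b..1, m |t| := by
  have h := intervalIntegral.integral_comp_neg (f := fun t => m |t|) (a := b) (b := 1)
  simp only [abs_neg] at h
  exact h.symm

lemma Prof.int_zero (P : Prof d l F G g) (hl : 1 < l) (hd : 0 < d) :
    ∫ t in (0:ℝ)..1, g t * F t = 0 := by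
  have h := P.hE 0 ⟨le_rfl, zero_le_one⟩
  rw [P.hG0, mul_zero, mul_zero] at h
  have hK := Prof.KK_pos hl hd
  rcases mul_eq_zero.mp h.symm with h1 | h1
  · exact absurd h1 hK.ne'
  · exact h1

lemma Prof.int_zero' (P : Prof d l F G g) (hl : 1 < l) (hd : 0 < d) :
    ∫ t in (-1:ℝ)..1, ev g t * ev F t = 0 := by
  have hc : Continuous fun t => g |t| * F |t| := (continuous_ev P.hg).mul (continuous_ev P.Fcont)
  have h1 : ∫ t in (0:ℝ)..1, g |t| * F |t| = ∫ t in (0:ℝ)..1, g t * F t := by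
    apply intervalIntegral.integral_congr
    intro t ht
    rw [uIcc_of_le zero_le_one] at ht
    simp only
    rw [abs_of_nonneg ht.1]
  rw [P.int_zero hl hd] at h1
  have h2 := integral_even_left (m := fun t => g t * F t) 0
  simp only [neg_zero] at h2
  unfold ev
  rw [← intervalIntegral.integral_add_adjacent_intervals (hc.intervalIntegrable (-1) 0)
    (hc.intervalIntegrable 0 1), h1, h2, h1, add_zero]

lemma Prof.hE' (P : Prof d l F G g) (hl : 1 < l) (hd : 0 < d) :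
    ∀ c ∈ Icc (-1:ℝ) 1, (1 - c ^ 2) * (ev g c * od G c) = KK d l * ∫ t in c..1, ev g t * ev F t := by
  have hcm : Continuous fun t => g |t| * F |t| := (continuous_ev P.hg).mul (continuous_ev P.Fcont)
  have base : ∀ b ∈ Icc (0:ℝ) 1, ∫ t in b..1, g |t| * F |t| = ∫ t in b..1, g t * F t := by
    intro b hb
    apply intervalIntegral.integral_congr
    intro t ht
    rw [uIcc_of_le hb.2] at ht
    simp only
    rw [abs_of_nonneg (hb.1.trans ht.1)]
  intro c hc
  by_cases h0 : 0 ≤ c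
  · have hc' : c ∈ Icc (0:ℝ) 1 := ⟨h0, hc.2⟩
    unfold ev od
    rw [base c hc', if_pos h0, abs_of_nonneg h0]
    exact P.hE c hc'
  · push Not at h0
    have hb : (-c) ∈ Icc (0:ℝ) 1 := ⟨by linarith, by linarith [hc.1]⟩
    have h1 := P.hE (-c) hb
    have h2 := integral_even_left (m := fun t => g t * F t) (-c)
    rw [neg_neg] at h2
    have h3 := P.int_zero' hl hd
    unfold ev at h3
    have h4 := intervalIntegral.integral_add_adjacent_intervals (μ := volume)
      (hcm.intervalIntegrable (-1) c) (hcm.intervalIntegrable c 1)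
    rw [h3] at h4
    rw [h2, base _ hb] at h4
    unfold ev od
    rw [if_neg (not_le.mpr h0), abs_of_neg h0]
    have h5 : (∫ t in c..1, g |t| * F |t|) = -(∫ t in (-c)..1, g t * F t) := by linarith
    rw [h5]
    have h6 : (1 - c ^ 2) * (g (-c) * -G (-c)) = -((1 - (-c) ^ 2) * (g (-c) * G (-c))) := by ring
    rw [h6, h1]
    ring

/-- the solution -/
def uu (l : ℝ) (F : ℝ → ℝ) : E3 → ℝ := hom l (ev F)

lemma Prof.hasFDerivAt_uu (P : Prof d l F G g) (hl : 1 < l) (x : E3) :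
    HasFDerivAt (uu l F) (Dhom l (ev F) (od G) x) x := by
  by_cases hx : x = 0
  · subst hx
    obtain ⟨C, hC, b⟩ := exists_bound (continuous_ev P.Fcont)
    have h1 := hasFDerivAt_zero_of_bound hl (f := uu l F) (fun x => abs_hom_le b x)
    refine h1.congr_fderiv ?_
    ext v
    rw [Dhom_apply]
    simp only [norm_zero, inner_zero_left, mul_zero]
    rw [Real.zero_rpow (by linarith)]
    simp
  · exact hasFDerivAt_hom hx (hasDerivAt_ev P.hF P.hG0 _)

lemma norm_Dcth_le {x : E3} (hx : x ≠ 0) : ‖Dcth x‖ ≤ 2 / ‖x‖ := by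
  have hn : 0 < ‖x‖ := norm_pos_iff.mpr hx
  unfold Dcth
  refine (norm_sub_le _ _).trans ?_
  rw [norm_smul, norm_smul, innerSL_apply_norm, norm_inv, norm_norm, norm_div, norm_pow, norm_norm]
  have h1 : ‖(EuclideanSpace.proj 2 : E3 →L[ℝ] ℝ)‖ ≤ 1 := by
    apply ContinuousLinearMap.opNorm_le_bound _ zero_le_one
    intro v
    rw [one_mul]
    exact abs_coord_le v 2
  have h2 : ‖x 2‖ ≤ ‖x‖ := abs_coord_le x 2
  have h3 : ‖x‖⁻¹ * ‖(EuclideanSpace.proj 2 : E3 →L[ℝ] ℝ)‖ ≤ ‖x‖⁻¹ * 1 :=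
    mul_le_mul_of_nonneg_left h1 (by positivity)
  have h4 : ‖x 2‖ / ‖x‖ ^ 3 * ‖x‖ ≤ ‖x‖⁻¹ := by
    rw [div_mul_eq_mul_div, div_le_iff₀ (by positivity)]
    have : ‖x‖⁻¹ * ‖x‖ ^ 3 = ‖x‖ * ‖x‖ := by field_simp
    rw [this]
    exact mul_le_mul_of_nonneg_right h2 hn.le
  have : (2:ℝ) / ‖x‖ = ‖x‖⁻¹ * 1 + ‖x‖⁻¹ := by field_simp; norm_num
  linarith

lemma continuousAt_Dcth {x : E3} (hx : x ≠ 0) : ContinuousAt Dcth x := by
  have hn : ‖x‖ ≠ 0 := norm_ne_zero_iff.mpr hx
  unfold Dcth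
  have c1 : ContinuousAt (fun y : E3 => ‖y‖⁻¹) x := continuous_norm.continuousAt.inv₀ hn
  have c2 : ContinuousAt (fun y : E3 => y 2 / ‖y‖ ^ 3) x := by
    refine ContinuousAt.div (by fun_prop) (by fun_prop) (by positivity)
  exact (c1.smul continuousAt_const).sub (c2.smul (innerSL ℝ).continuous.continuousAt)

lemma continuous_Dhom {s : ℝ} (hs : 1 < s) {h h' : ℝ → ℝ} (hh : Continuous h) (hh' : Continuous h') :
    Continuous (Dhom s h h') := by
  rw [continuous_iff_continuousAt]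
  intro x
  by_cases hx : x = 0
  · subst hx
    obtain ⟨C1, hC1, b1⟩ := exists_bound hh
    obtain ⟨C2, hC2, b2⟩ := exists_bound hh'
    have h0 : Dhom s h h' 0 = 0 := by
      ext v
      rw [Dhom_apply]
      simp only [norm_zero, inner_zero_left, mul_zero]
      rw [Real.zero_rpow (by linarith)]
      simp
    rw [ContinuousAt, h0, tendsto_zero_iff_norm_tendsto_zero]
    have hb : ∀ y : E3, ‖Dhom s h h' y‖ ≤ (s * C1 + 2 * C2) * ‖y‖ ^ (s - 1) := by
      intro y
      by_cases hy : y = 0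
      · subst hy
        rw [h0, norm_zero]
        exact mul_nonneg (by positivity) (Real.rpow_nonneg (norm_nonneg _) _)
      · have hn : 0 < ‖y‖ := norm_pos_iff.mpr hy
        have p1 : ‖y‖ ^ s = ‖y‖ ^ (s - 1) * ‖y‖ := (rpow_pred_mul hn.le hs).symm
        have p2 : ‖y‖ ^ (s - 2) = ‖y‖ ^ (s - 1) / ‖y‖ := by
          rw [show s - 2 = (s - 1) - 1 by ring, Real.rpow_sub_one hn.ne']
        unfold Dhom
        rw [p2, p1]
        set A := ‖y‖ ^ (s - 1)
        have hA : 0 ≤ A := Real.rpow_nonneg (norm_nonneg _) _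
        refine (norm_add_le _ _).trans ?_
        rw [norm_smul, norm_smul, innerSL_apply_norm]
        have t1 : ‖s * (A / ‖y‖) * h (cth y)‖ ≤ s * (A / ‖y‖) * C1 := by
          rw [Real.norm_eq_abs, abs_mul, abs_of_nonneg (by positivity : 0 ≤ s * (A / ‖y‖))]
          exact mul_le_mul_of_nonneg_left (b1 _ (cth_mem y)) (by positivity)
        have t2 : ‖A * ‖y‖ * h' (cth y)‖ ≤ A * ‖y‖ * C2 := by
          rw [Real.norm_eq_abs, abs_mul, abs_of_nonneg (by positivity : 0 ≤ A * ‖y‖)]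
          exact mul_le_mul_of_nonneg_left (b2 _ (cth_mem y)) (by positivity)
        have t3 : ‖s * (A / ‖y‖) * h (cth y)‖ * ‖y‖ ≤ s * (A / ‖y‖) * C1 * ‖y‖ :=
          mul_le_mul_of_nonneg_right t1 hn.le
        have t4 : ‖A * ‖y‖ * h' (cth y)‖ * ‖Dcth y‖ ≤ A * ‖y‖ * C2 * (2 / ‖y‖) :=
          mul_le_mul t2 (norm_Dcth_le hy) (norm_nonneg _) (by positivity)
        have e : (s * C1 + 2 * C2) * A = s * (A / ‖y‖) * C1 * ‖y‖ + A * ‖y‖ * C2 * (2 / ‖y‖) := by
          field_simp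
        rw [e]
        exact add_le_add t3 t4
    have ht : Tendsto (fun y : E3 => (s * C1 + 2 * C2) * ‖y‖ ^ (s - 1)) (𝓝 0) (𝓝 0) := by
      have h := (continuous_norm (E := E3)).tendsto 0
      rw [norm_zero] at h
      have h2 := h.rpow_const (p := s - 1) (Or.inr (by linarith))
      rw [Real.zero_rpow (by linarith)] at h2
      simpa using h2.const_mul (s * C1 + 2 * C2)
    exact squeeze_zero (fun y => norm_nonneg _) hb ht
  · have hn : ‖x‖ ≠ 0 := norm_ne_zero_iff.mpr hx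
    have cc : ContinuousAt cth x := (hasFDerivAt_cth hx).continuousAt
    have cn : ∀ t : ℝ, ContinuousAt (fun y : E3 => ‖y‖ ^ t) x := fun t =>
      continuous_norm.continuousAt.rpow_const (Or.inl hn)
    unfold Dhom
    have t1 : ContinuousAt (fun y : E3 => (s * ‖y‖ ^ (s - 2) * h (cth y)) • (innerSL ℝ y : E3 →L[ℝ] ℝ)) x :=
      ContinuousAt.smul (f := fun y : E3 => s * ‖y‖ ^ (s - 2) * h (cth y))
        (g := fun y : E3 => (innerSL ℝ y : E3 →L[ℝ] ℝ))
        ((continuousAt_const.mul (cn _)).mul (hh.continuousAt.comp cc))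
        (innerSL ℝ).continuous.continuousAt
    have t2 : ContinuousAt (fun y : E3 => (‖y‖ ^ s * h' (cth y)) • Dcth y) x :=
      ContinuousAt.smul (f := fun y : E3 => ‖y‖ ^ s * h' (cth y)) (g := Dcth)
        ((cn _).mul (hh'.continuousAt.comp cc)) (continuousAt_Dcth hx)
    exact t1.add t2

lemma Prof.contDiff_uu (P : Prof d l F G g) (hl : 1 < l) : ContDiff ℝ 1 (uu l F) := by
  rw [contDiff_one_iff_fderiv]
  refine ⟨fun x => (P.hasFDerivAt_uu hl x).differentiableAt, ?_⟩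
  have : fderiv ℝ (uu l F) = Dhom l (ev F) (od G) := funext fun x => (P.hasFDerivAt_uu hl x).fderiv
  rw [this]
  exact continuous_Dhom hl (continuous_ev P.Fcont) (continuous_od P.hG P.hG0)

lemma grad_coord {f : E3 → ℝ} (x : E3) (i : Fin 3) : (gradient f x) i = fderiv ℝ f x (eb i) := by
  rw [← inner_eb]
  unfold gradient
  rw [InnerProductSpace.toDual_symm_apply]

lemma inner_grad {f φ : E3 → ℝ} (x : E3) :
    inner ℝ (gradient f x) (gradient φ x) = ∑ i, fderiv ℝ f x (eb i) * fderiv ℝ φ x (eb i) := by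
  rw [PiLp.inner_apply]
  apply Finset.sum_congr rfl
  intro i _
  rw [grad_coord, grad_coord]
  simp [mul_comm]

lemma norm_grad_sq {f : E3 → ℝ} (x : E3) :
    ‖gradient f x‖ ^ 2 = ∑ i, fderiv ℝ f x (eb i) ^ 2 := by
  rw [EuclideanSpace.norm_sq_eq]
  apply Finset.sum_congr rfl
  intro i _
  rw [grad_coord]
  simp

lemma Prof.norm_grad (P : Prof d l F G g) (hl : 1 < l) {x : E3} (hx : x ≠ 0) :
    ‖gradient (uu l F) x‖ ^ 2 = ‖x‖ ^ (2 * (l - 1))
      * (l ^ 2 * ev F (cth x) ^ 2 + (1 - cth x ^ 2) * od G (cth x) ^ 2) := by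
  have hn : 0 < ‖x‖ := norm_pos_iff.mpr hx
  rw [norm_grad_sq, (P.hasFDerivAt_uu hl x).fderiv]
  simp only [Dhom_apply, dcth_eb, inner_eb]
  rw [Fin.sum_univ_three]
  simp only [Fin.isValue, Fin.reduceEq, if_false, if_pos]
  have hsq : x 0 ^ 2 + x 1 ^ 2 + x 2 ^ 2 = ‖x‖ ^ 2 := by
    rw [EuclideanSpace.norm_sq_eq]
    simp [Fin.sum_univ_three]
  have hct : cth x * ‖x‖ = x 2 := by
    unfold cth
    field_simp
  have p1 : ‖x‖ ^ l = ‖x‖ ^ (l - 1) * ‖x‖ := (rpow_pred_mul hn.le hl).symm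
  have p2 : ‖x‖ ^ (l - 2) = ‖x‖ ^ (l - 1) / ‖x‖ := by
    rw [show l - 2 = (l - 1) - 1 by ring, Real.rpow_sub_one hn.ne']
  have p3 : ‖x‖ ^ (2 * (l - 1)) = (‖x‖ ^ (l - 1)) ^ 2 := by
    rw [mul_comm, Real.rpow_mul hn.le]
    norm_cast
  rw [p1, p2, p3]
  set r := ‖x‖
  set A := r ^ (l - 1)
  set f := ev F (cth x)
  set h := od G (cth x)
  set c := cth x
  rw [← hct]
  have h01 : x 0 ^ 2 + x 1 ^ 2 = r ^ 2 - (c * r) ^ 2 := by rw [hct]; linarith
  have e : (l * (A / r) * f * x 0 + A * r * h * (0 / r - c * r * x 0 / r ^ 3)) ^ 2 +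
      (l * (A / r) * f * x 1 + A * r * h * (0 / r - c * r * x 1 / r ^ 3)) ^ 2 +
      (l * (A / r) * f * (c * r) + A * r * h * (1 / r - c * r * (c * r) / r ^ 3)) ^ 2
      = (x 0 ^ 2 + x 1 ^ 2) * (l * (A / r) * f - A * r * h * (c * r / r ^ 3)) ^ 2
        + (l * (A / r) * f * (c * r) + A * r * h * (1 / r - c * r * (c * r) / r ^ 3)) ^ 2 := by ring
  rw [e, h01]
  field_simp
  ring

/-- the nonlinear flux is the vector field Vf -/
lemma Prof.flux_eq (P : Prof d l F G g) (hl : 1 < l)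
    (hs : 1 < (l - 1) * (1 + d)) (x : E3) (i : Fin 3) :
    ‖gradient (uu l F) x‖ ^ d * fderiv ℝ (uu l F) x (eb i)
      = Vf ((l - 1) * (1 + d)) (fun c => l * (ev g c * ev F c) - c * (ev g c * od G c))
          (fun c => ev g c * od G c) i x := by
  by_cases hx : x = 0
  · subst hx
    rw [Vf_zero hs]
    have h0 : fderiv ℝ (uu l F) 0 (eb i) = 0 := by
      rw [(P.hasFDerivAt_uu hl 0).fderiv, Dhom_apply]
      simp only [norm_zero, inner_zero_left, mul_zero]
      rw [Real.zero_rpow (by linarith)]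
      simp
    rw [h0, mul_zero]
  · have hn : 0 < ‖x‖ := norm_pos_iff.mpr hx
    set s := (l - 1) * (1 + d) with hsdef
    have hw0 : 0 ≤ l ^ 2 * ev F (cth x) ^ 2 + (1 - cth x ^ 2) * od G (cth x) ^ 2 := by
      have := cth_mem x
      have h1 : 0 ≤ 1 - cth x ^ 2 := by nlinarith [this.1, this.2]
      positivity
    have hgn : ‖gradient (uu l F) x‖ ^ d = ‖x‖ ^ ((l - 1) * d) * ev g (cth x) := by
      have e1 : ‖gradient (uu l F) x‖ ^ d = (‖gradient (uu l F) x‖ ^ 2) ^ (d / 2) := by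
        rw [← Real.rpow_natCast, ← Real.rpow_mul (norm_nonneg _)]
        congr 1
        push_cast
        ring
      rw [e1, P.norm_grad hl hx, Real.mul_rpow (Real.rpow_nonneg hn.le _) hw0,
        ← Real.rpow_mul hn.le, P.ge_eq (cth_mem x)]
      congr 2
      ring
    rw [hgn, (P.hasFDerivAt_uu hl x).fderiv, Dhom_apply, dcth_eb, inner_eb]
    unfold Vf hom
    have p1 : ‖x‖ ^ ((l - 1) * d) * ‖x‖ ^ (l - 2) = ‖x‖ ^ (s - 1) := by
      rw [← Real.rpow_add hn]
      congr 1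
      rw [hsdef]; ring
    have p2 : ‖x‖ ^ ((l - 1) * d) * ‖x‖ ^ l = ‖x‖ ^ (s - 1) * ‖x‖ ^ 2 := by
      rw [← Real.rpow_add hn, ← Real.rpow_natCast, ← Real.rpow_add hn]
      congr 1
      rw [hsdef]; push_cast; ring
    have p3 : ‖x‖ ^ s = ‖x‖ ^ (s - 1) * ‖x‖ := (rpow_pred_mul hn.le hs).symm
    have hct : cth x * ‖x‖ = x 2 := by
      unfold cth
      field_simp
    rw [p3]
    have e : ‖x‖ ^ ((l - 1) * d) * ev g (cth x) * (l * ‖x‖ ^ (l - 2) * ev F (cth x) * x i
        + ‖x‖ ^ l * od G (cth x) * ((if i = 2 then 1 else 0) / ‖x‖ - x 2 * x i / ‖x‖ ^ 3))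
        = (‖x‖ ^ ((l - 1) * d) * ‖x‖ ^ (l - 2)) * (l * (ev g (cth x) * ev F (cth x))) * x i
          + (‖x‖ ^ ((l - 1) * d) * ‖x‖ ^ l) * (ev g (cth x) * od G (cth x))
            * ((if i = 2 then 1 else 0) / ‖x‖ - x 2 * x i / ‖x‖ ^ 3) := by ring
    rw [e, p1, p2, ← hct]
    by_cases hi : i = 2
    · simp only [hi, if_true]
      field_simp
      ring
    · simp only [hi, if_false]
      field_simp
      ring

theorem Prof.weak (P : Prof d l F G g) (hl : 1 < l) (hd : 0 < d)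
    (hs : 1 < (l - 1) * (1 + d)) {φ : E3 → ℝ} (hφ : ContDiff ℝ 1 φ) (hc : HasCompactSupport φ) :
    ∫ y, ‖gradient (uu l F) y‖ ^ d * inner ℝ (gradient (uu l F) y) (gradient φ y) = 0 := by
  have e : ∀ y, ‖gradient (uu l F) y‖ ^ d * inner ℝ (gradient (uu l F) y) (gradient φ y)
      = ∑ i, Vf ((l - 1) * (1 + d)) (fun c => l * (ev g c * ev F c) - c * (ev g c * od G c))
          (fun c => ev g c * od G c) i y * fderiv ℝ φ y (eb i) := by
    intro y
    rw [inner_grad, Finset.mul_sum]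
    apply Finset.sum_congr rfl
    intro i _
    rw [← P.flux_eq hl hs]
    ring
  simp only [e]
  exact weak_cont hs (K := KK d l) (by unfold KK; ring)
    ((continuous_ev P.hg).mul (continuous_ev P.Fcont))
    ((continuous_ev P.hg).mul (continuous_od P.hG P.hG0)) (P.int_zero' hl hd) (P.hE' hl hd) hφ hc

end

end Pool.Agent.PHarm
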