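import Mathlib
import Pool.Agent.PHarm.Dens

set_option autoImplicit false

open MeasureTheory Set Filter Topology Polynomial

namespace Pool.Agent.PHarm

noncomputable section

/-- surface measure of the unit sphere -/
abbrev sph : Measure (Metric.sphere (0 : E3) 1) := (volume : Measure E3).toSphere

/-- the spherical mean functional (not normalised) -/
def SS (h : ℝ → ℝ) : ℝ := ∫ w, h (cth (w : E3)) ∂sph

lemma finrank_E3 : Module.finrank ℝ E3 = 3 := by simp

lemma cth_unit {x : E3} (hx : x ≠ 0) : cth (‖x‖⁻¹ • x) = cth x := by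
  have hn : ‖x‖ ≠ 0 := norm_ne_zero_iff.mpr hx
  unfold cth
  rw [norm_smul, norm_inv, norm_norm, inv_mul_cancel₀ hn]
  simp
  ring

lemma polar (ρ h : ℝ → ℝ) :
    ∫ x : E3, ρ ‖x‖ * h (cth x) = SS h * ∫ y in Ioi (0:ℝ), y ^ 2 * ρ y := by
  set μ := (volume : Measure E3) with hμ
  calc ∫ x : E3, ρ ‖x‖ * h (cth x)
      = ∫ x : ({(0)}ᶜ : Set E3), ρ ‖x.1‖ * h (cth x.1) ∂(μ.comap (↑)) := by
        rw [integral_subtype_comap (measurableSet_singleton _).compl fun x => ρ ‖x‖ * h (cth x),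
          restrict_compl_singleton]
    _ = ∫ p : Metric.sphere (0 : E3) 1 × Ioi (0:ℝ), h (cth (p.1 : E3)) * ρ p.2
          ∂μ.toSphere.prod (.volumeIoiPow (Module.finrank ℝ E3 - 1)) := by
        have h1 := μ.measurePreserving_homeomorphUnitSphereProd.integral_comp
          (Homeomorph.measurableEmbedding _)
          (fun p : Metric.sphere (0 : E3) 1 × Ioi (0:ℝ) => h (cth (p.1 : E3)) * ρ p.2)
        rw [← h1]
        congr 1
        funext x
        have hx : x.1 ≠ 0 := x.2
        rw [homeomorphUnitSphereProd_apply_snd_coe, homeomorphUnitSphereProd_apply_fst_coe,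
          cth_unit hx]
        ring
    _ = (∫ w, h (cth (w : E3)) ∂sph) * ∫ y : Ioi (0:ℝ), ρ y ∂(.volumeIoiPow (Module.finrank ℝ E3 - 1)) :=
        integral_prod_mul (fun w : Metric.sphere (0 : E3) 1 => h (cth (w : E3)))
          (fun y : Ioi (0:ℝ) => ρ y)
    _ = SS h * ∫ y in Ioi (0:ℝ), y ^ 2 * ρ y := by
        unfold SS
        congr 1
        rw [finrank_E3]
        simp only [Measure.volumeIoiPow, ENNReal.ofReal]
        rw [integral_withDensity_eq_integral_smul,
          integral_subtype_comap measurableSet_Ioi fun a => Real.toNNReal (a ^ (3 - 1)) • ρ a,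
          setIntegral_congr_fun measurableSet_Ioi fun x hx => ?_]
        · rw [NNReal.smul_def, Real.coe_toNNReal _ (pow_nonneg hx.out.le _)]
          rfl
        · exact (measurable_subtype_coe.pow_const _).real_toNNReal

/-- radial test function -/
def tf (x : E3) : ℝ := ((1 - ‖x‖ ^ 2) ^ 3 + |1 - ‖x‖ ^ 2| ^ (3:ℝ)) / 2

/-- its radial derivative divided by minus the radius -/
def kf (r : ℝ) : ℝ := 3 * (1 - r ^ 2) ^ 2 + 3 * |1 - r ^ 2| * (1 - r ^ 2)

lemma continuous_kf : Continuous kf := by unfold kf; fun_prop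

lemma kf_of_one_le {r : ℝ} (hr : 1 ≤ r) : kf r = 0 := by
  unfold kf
  have : 1 - r ^ 2 ≤ 0 := by nlinarith
  rw [abs_of_nonpos this]
  ring

lemma kf_of_le_one {r : ℝ} (h0 : 0 ≤ r) (hr : r ≤ 1) : kf r = 6 * (1 - r ^ 2) ^ 2 := by
  unfold kf
  have : 0 ≤ 1 - r ^ 2 := by nlinarith
  rw [abs_of_nonneg this]
  ring

lemma tf_eq_zero {x : E3} (hx : 1 ≤ ‖x‖) : tf x = 0 := by
  unfold tf
  have : 1 - ‖x‖ ^ 2 ≤ 0 := by nlinarith
  rw [abs_of_nonpos this]
  have e : (-(1 - ‖x‖ ^ 2)) ^ (3:ℝ) = (-(1 - ‖x‖ ^ 2)) ^ (3:ℕ) := by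
    exact_mod_cast Real.rpow_natCast _ 3
  rw [e]
  ring

lemma tf_supp : HasCompactSupport tf := by
  apply HasCompactSupport.intro (isCompact_closedBall (0 : E3) 1)
  intro x hx
  apply tf_eq_zero
  rw [mem_closedBall_zero_iff, not_le] at hx
  exact hx.le

lemma hasFDerivAt_tf (x : E3) : HasFDerivAt tf ((-kf ‖x‖) • innerSL ℝ x) x := by
  have h1 : HasFDerivAt (fun y : E3 => 1 - ‖y‖ ^ 2) (-(2 • innerSL ℝ x)) x := by
    have := ((hasStrictFDerivAt_norm_sq x).hasFDerivAt).const_sub 1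
    exact this
  have h2 : HasDerivAt (fun t : ℝ => (t ^ 3 + |t| ^ (3:ℝ)) / 2)
      ((3 * (1 - ‖x‖ ^ 2) ^ 2 + 3 * |1 - ‖x‖ ^ 2| * (1 - ‖x‖ ^ 2)) / 2) (1 - ‖x‖ ^ 2) := by
    have a := hasDerivAt_pow 3 (1 - ‖x‖ ^ 2)
    have b := hasDerivAt_abs_rpow (1 - ‖x‖ ^ 2) (p := 3) (by norm_num)
    refine ((a.add b).div_const 2).congr_deriv ?_
    have e : |1 - ‖x‖ ^ 2| ^ ((3:ℝ) - 2) = |1 - ‖x‖ ^ 2| := by
      rw [show (3:ℝ) - 2 = 1 by norm_num, Real.rpow_one]
    rw [e]
    norm_num
  have h3 := h2.comp_hasFDerivAt x h1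
  refine h3.congr_fderiv ?_
  ext v
  unfold kf
  simp
  ring

lemma contDiff_tf : ContDiff ℝ 1 tf := by
  rw [contDiff_one_iff_fderiv]
  refine ⟨fun x => (hasFDerivAt_tf x).differentiableAt, ?_⟩
  have : fderiv ℝ tf = fun x => (-kf ‖x‖) • innerSL ℝ x := funext fun x => (hasFDerivAt_tf x).fderiv
  rw [this]
  exact (continuous_kf.comp continuous_norm).neg.smul (innerSL ℝ).continuous

lemma sum_Vf_mul {s : ℝ} (hs : 1 < s) (H B : ℝ → ℝ) (x : E3) :
    ∑ i, Vf s H B i x * x i = ‖x‖ ^ (s + 1) * (H (cth x) + cth x * B (cth x)) := by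
  have hsq : x 0 ^ 2 + x 1 ^ 2 + x 2 ^ 2 = ‖x‖ ^ 2 := by
    rw [EuclideanSpace.norm_sq_eq]
    simp [Fin.sum_univ_three]
  by_cases hx : x = 0
  · subst hx
    have : (0:ℝ) ^ (s + 1) = 0 := Real.zero_rpow (by linarith)
    simp [this]
  have hn : 0 < ‖x‖ := norm_pos_iff.mpr hx
  have hct : cth x * ‖x‖ = x 2 := by
    unfold cth
    field_simp
  rw [Fin.sum_univ_three]
  unfold Vf hom
  simp only [Fin.isValue, Fin.reduceEq, if_false, if_pos]
  have p1 : ‖x‖ ^ (s + 1) = ‖x‖ ^ (s - 1) * ‖x‖ ^ 2 := by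
    rw [show s + 1 = (s - 1) + (2:ℕ) by push_cast; ring, Real.rpow_add_natCast hn.ne']
  have p2 : ‖x‖ ^ s = ‖x‖ ^ (s - 1) * ‖x‖ := (rpow_pred_mul hn.le hs).symm
  rw [p1, p2, ← hsq]
  have : x 0 ^ 2 + x 1 ^ 2 + x 2 ^ 2 = ‖x‖ ^ 2 := hsq
  have e : ‖x‖ * (cth x * ‖x‖) = ‖x‖ ^ 2 * cth x := by ring
  calc _ = ‖x‖ ^ (s - 1) * ((x 0 ^ 2 + x 1 ^ 2 + x 2 ^ 2) * H (cth x) + ‖x‖ * x 2 * B (cth x)) := by ring
    _ = _ := by rw [← hct, e, hct, ← hsq]; ring

/-- zero-mean polynomials integrate to zero over the sphere -/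
lemma SS_poly {q : ℝ[X]} (hq : ∫ t in (-1:ℝ)..1, q.eval t = 0) : SS (fun c => q.eval c) = 0 := by
  obtain ⟨R, hR⟩ := exists_R hq
  have hcont : Continuous fun t => q.eval t := q.continuous
  have hw := weak_cont (s := 2) (l := 1) (K := 4) (by norm_num) (by norm_num)
    (Z := fun c => q.eval c) (B := fun c => 4 * R.eval c) hcont
    (continuous_const.mul R.continuous) hq
    (by
      intro c _
      rw [← hR]
      ring)
    contDiff_tf tf_supp
  have e : ∀ x : E3, ∑ i, Vf 2 (fun c => 1 * q.eval c - c * (4 * R.eval c)) (fun c => 4 * R.eval c) i x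
      * fderiv ℝ tf x (eb i) = (-kf ‖x‖ * ‖x‖ ^ (3:ℝ)) * q.eval (cth x) := by
    intro x
    have h1 : ∀ i, fderiv ℝ tf x (eb i) = -kf ‖x‖ * x i := by
      intro i
      rw [(hasFDerivAt_tf x).fderiv]
      simp only [smul_apply, smul_eq_mul, innerSL_apply_apply]
      rw [inner_eb]
    simp only [h1]
    have h2 : ∀ i, Vf 2 (fun c => 1 * q.eval c - c * (4 * R.eval c)) (fun c => 4 * R.eval c) i x
        * (-kf ‖x‖ * x i) = -kf ‖x‖ * (Vf 2 (fun c => 1 * q.eval c - c * (4 * R.eval c))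
          (fun c => 4 * R.eval c) i x * x i) := by
      intro i; ring
    simp only [h2]
    rw [← Finset.mul_sum, sum_Vf_mul (by norm_num)]
    rw [show (2:ℝ) + 1 = 3 by norm_num]
    ring
  simp only [e] at hw
  rw [polar (fun r => -kf r * r ^ (3:ℝ)) (fun c => q.eval c)] at hw
  have hpos : (∫ y in Ioi (0:ℝ), y ^ 2 * (-kf y * y ^ (3:ℝ))) = -(1/10) := by
    have h1 : ∫ y in Ioi (0:ℝ), y ^ 2 * (-kf y * y ^ (3:ℝ)) = ∫ y in Ioc (0:ℝ) 1, y ^ 2 * (-kf y * y ^ (3:ℝ)) := by
      rw [← integral_indicator measurableSet_Ioi, ← integral_indicator measurableSet_Ioc]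
      congr 1
      funext y
      by_cases hy : 0 < y
      · by_cases hy1 : y ≤ 1
        · simp [indicator, hy, hy1]
        · have : kf y = 0 := kf_of_one_le (by linarith)
          simp [indicator, hy, hy1, this]
      · simp [indicator, hy]
    rw [h1, ← intervalIntegral.integral_of_le zero_le_one]
    have h2 : ∫ y in (0:ℝ)..1, y ^ 2 * (-kf y * y ^ (3:ℝ))
        = ∫ y in (0:ℝ)..1, -(6 * y ^ 5 - 12 * y ^ 7 + 6 * y ^ 9) := by
      apply intervalIntegral.integral_congr
      intro y hy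
      rw [uIcc_of_le zero_le_one] at hy
      simp only
      rw [kf_of_le_one hy.1 hy.2]
      have : y ^ (3:ℝ) = y ^ (3:ℕ) := by exact_mod_cast Real.rpow_natCast _ 3
      rw [this]
      ring
    rw [h2]
    have h3 : ∀ t ∈ uIcc (0:ℝ) 1, HasDerivAt (fun y : ℝ => -(y ^ 6 - 3 * y ^ 8 / 2 + 3 * y ^ 10 / 5))
        (-(6 * t ^ 5 - 12 * t ^ 7 + 6 * t ^ 9)) t := by
      intro t _
      have h := (((hasDerivAt_pow 6 t).sub (((hasDerivAt_pow 8 t).const_mul 3).div_const 2)).add
        (((hasDerivAt_pow 10 t).const_mul 3).div_const 5)).neg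
      refine h.congr_deriv ?_
      norm_num
      ring
    rw [intervalIntegral.integral_eq_sub_of_hasDerivAt h3
      ((by fun_prop : Continuous fun t : ℝ => -(6 * t ^ 5 - 12 * t ^ 7 + 6 * t ^ 9)).intervalIntegrable _ _)]
    norm_num
  rw [hpos] at hw
  linarith

lemma cth_sphere_mem (w : Metric.sphere (0 : E3) 1) : cth (w : E3) ∈ Icc (-1:ℝ) 1 := cth_mem _

lemma SS_integrable {h : ℝ → ℝ} (hh : Continuous h) :
    Integrable (fun w : Metric.sphere (0 : E3) 1 => h (cth (w : E3))) sph := by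
  obtain ⟨C, hC, b⟩ := exists_bound hh
  refine Integrable.mono' (integrable_const C) ?_ ?_
  · exact (hh.measurable.comp (measurable_cth.comp measurable_subtype_coe)).aestronglyMeasurable
  · filter_upwards with w
    exact b _ (cth_mem _)

lemma SS_const (m : ℝ) : SS (fun _ => m) = m * SS (fun _ => 1) := by
  unfold SS
  simp only [integral_const, smul_eq_mul, mul_one]
  ring

lemma SS_sub {h k : ℝ → ℝ} (hh : Continuous h) (hk : Continuous k) :
    SS h - SS k = SS (fun c => h c - k c) := by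
  unfold SS
  rw [← integral_sub (SS_integrable hh) (SS_integrable hk)]

lemma abs_SS_le {h : ℝ → ℝ} (hh : Continuous h) {C : ℝ} (hC : ∀ c ∈ Icc (-1:ℝ) 1, |h c| ≤ C) :
    |SS h| ≤ C * SS (fun _ => 1) := by
  rw [← SS_const]
  unfold SS
  refine (abs_integral_le_integral_abs).trans ?_
  apply integral_mono (SS_integrable hh).abs (integrable_const C)
  intro w
  exact hC _ (cth_mem _)

lemma SS_one_pos : 0 < SS (fun _ => 1) := by
  unfold SS
  simp only [integral_const, smul_eq_mul, mul_one]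
  rw [Measure.toSphere_real_apply_univ, finrank_E3]
  have : 0 < (volume : Measure E3).real (Metric.ball 0 1) := by
    rw [measureReal_def, ENNReal.toReal_pos_iff]
    exact ⟨Metric.measure_ball_pos _ _ one_pos, measure_ball_lt_top⟩
  positivity

/-- Archimedes -/
lemma SS_eq {h : ℝ → ℝ} (hh : Continuous h) :
    SS h = SS (fun _ => 1) * ((∫ t in (-1:ℝ)..1, h t) / 2) := by
  have hS := SS_one_pos
  have main : ∀ ε : ℝ, 0 < ε → |SS h - SS (fun _ => 1) * ((∫ t in (-1:ℝ)..1, h t) / 2)|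
      ≤ 2 * ε * SS (fun _ => 1) := by
    intro ε hε
    obtain ⟨q1, hq1⟩ := exists_polynomial_near_of_continuousOn (-1) 1 h hh.continuousOn ε hε
    set m := (∫ t in (-1:ℝ)..1, q1.eval t) / 2 with hm
    have hq0 : ∫ t in (-1:ℝ)..1, (q1 - C m).eval t = 0 := by
      have e : ∀ t, (q1 - C m).eval t = q1.eval t - m := by
        intro t; simp only [eval_sub, eval_C]
      simp only [e]
      rw [intervalIntegral.integral_sub (q1.continuous.intervalIntegrable _ _)
          (continuous_const.intervalIntegrable _ _), intervalIntegral.integral_const, hm]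
      simp only [smul_eq_mul]
      ring
    have h1 := SS_poly hq0
    have h2 : SS (fun c => q1.eval c) - SS (fun _ => m) = 0 := by
      rw [SS_sub q1.continuous continuous_const]
      rw [← h1]
      congr 1
      funext c
      simp
    rw [SS_const] at h2
    have h3 : |SS h - SS (fun c => q1.eval c)| ≤ ε * SS (fun _ => 1) := by
      rw [SS_sub hh q1.continuous]
      apply abs_SS_le (h := fun c => h c - q1.eval c) (hh.sub q1.continuous)
      intro c hc
      rw [abs_sub_comm]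
      exact (hq1 c hc).le
    have h4 : |m - (∫ t in (-1:ℝ)..1, h t) / 2| ≤ ε := by
      rw [hm, ← sub_div, ← intervalIntegral.integral_sub (q1.continuous.intervalIntegrable _ _)
        (hh.intervalIntegrable _ _), abs_div, abs_two]
      have := intervalIntegral.norm_integral_le_of_norm_le_const (a := (-1:ℝ)) (b := 1)
          (f := fun t => q1.eval t - h t) (C := ε) (by
            intro t ht
            rw [uIoc_of_le (by norm_num)] at ht
            exact (hq1 t ⟨ht.1.le, ht.2⟩).le)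
      norm_num at this
      linarith
    have e : SS h - SS (fun _ => 1) * ((∫ t in (-1:ℝ)..1, h t) / 2)
        = (SS h - SS (fun c => q1.eval c)) + SS (fun _ => 1) * (m - (∫ t in (-1:ℝ)..1, h t) / 2) := by
      linarith
    rw [e]
    refine (abs_add_le _ _).trans ?_
    rw [abs_mul, abs_of_pos hS]
    have := mul_le_mul_of_nonneg_left h4 hS.le
    linarith
  by_contra hne
  have hpos : 0 < |SS h - SS (fun _ => 1) * ((∫ t in (-1:ℝ)..1, h t) / 2)| :=
    abs_pos.mpr (sub_ne_zero.mpr hne)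
  set D := |SS h - SS (fun _ => 1) * ((∫ t in (-1:ℝ)..1, h t) / 2)|
  have := main (D / (4 * SS (fun _ => 1))) (by positivity)
  have e : 2 * (D / (4 * SS (fun _ => 1))) * SS (fun _ => 1) = D / 2 := by
    field_simp
    ring
  rw [e] at this
  linarith

/-- integral of a homogeneous function over the unit ball -/
lemma integral_ball_hom {a : ℝ} (ha : 0 < a) (h : ℝ → ℝ) :
    ∫ x in Metric.ball (0 : E3) 1, hom a h x = SS h / (a + 3) := by
  have e1 : ∫ x in Metric.ball (0 : E3) 1, hom a h x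
      = ∫ x : E3, ((Iio (1:ℝ)).indicator (fun r => r ^ a) ‖x‖) * h (cth x) := by
    rw [← integral_indicator Metric.isOpen_ball.measurableSet]
    congr 1
    funext x
    unfold hom
    by_cases hx : ‖x‖ < 1
    · simp [indicator, hx]
    · simp [indicator, hx]
  rw [e1, polar]
  have e2 : ∫ y in Ioi (0:ℝ), y ^ 2 * (Iio (1:ℝ)).indicator (fun r => r ^ a) y
      = ∫ y in (0:ℝ)..1, y ^ (a + 2) := by
    rw [intervalIntegral.integral_of_le zero_le_one, integral_Ioc_eq_integral_Ioo,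
      ← integral_indicator measurableSet_Ioi, ← integral_indicator measurableSet_Ioo]
    congr 1
    funext y
    by_cases hy : 0 < y
    · by_cases hy1 : y < 1
      · simp only [indicator, mem_Ioi, hy, if_true, mem_Iio, hy1, mem_Ioo, and_self]
        rw [show a + 2 = a + (2:ℕ) by norm_num, Real.rpow_add_natCast hy.ne']
        ring
      · simp [indicator, hy, hy1]
    · simp [indicator, hy]
  rw [e2, integral_rpow (Or.inl (by linarith))]
  rw [Real.zero_rpow (by linarith), Real.one_rpow]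
  rw [show a + 2 + 1 = a + 3 by ring]
  ring

lemma volume_ball_E3 : (volume : Measure E3).real (Metric.ball 0 1) = SS (fun _ => 1) / 3 := by
  unfold SS
  simp only [integral_const, smul_eq_mul, mul_one]
  rw [Measure.toSphere_real_apply_univ, finrank_E3]
  norm_num

/-- average over the unit ball -/
lemma average_ball_hom {a : ℝ} (ha : 0 < a) {h : ℝ → ℝ} (hh : Continuous h) :
    ⨍ x in Metric.ball (0 : E3) 1, hom a h x = 3 / (a + 3) * ((∫ t in (-1:ℝ)..1, h t) / 2) := by
  rw [setAverage_eq, volume_ball_E3, integral_ball_hom ha, SS_eq hh, smul_eq_mul]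
  have := SS_one_pos
  field_simp

end

end Pool.Agent.PHarm
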