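import Mathlib
import Pool.Agent.PHarm.Sphere
import Pool.Agent.PHarm.Sol

set_option autoImplicit false

open MeasureTheory Set Filter Topology
open scoped Pointwise

namespace Pool.Agent.PHarm

noncomputable section

lemma cth_smul {r : ℝ} (hr : 0 < r) (x : E3) : cth (r • x) = cth x := by
  unfold cth
  rw [norm_smul, Real.norm_eq_abs, abs_of_pos hr]
  have : (r • x) 2 = r * x 2 := by simp
  rw [this]
  exact mul_div_mul_left _ _ hr.ne'

lemma hom_smul {r : ℝ} (hr : 0 < r) (a : ℝ) (h : ℝ → ℝ) (x : E3) :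
    hom a h (r • x) = r ^ a * hom a h x := by
  unfold hom
  rw [cth_smul hr, norm_smul, Real.norm_eq_abs, abs_of_pos hr,
    Real.mul_rpow hr.le (norm_nonneg x)]
  ring

lemma image_scale {r : ℝ} (hr : 0 < r) (a : ℝ) (h : ℝ → ℝ) :
    hom a h '' Metric.closedBall 0 r = r ^ a • (hom a h '' Metric.closedBall 0 1) := by
  have e : Metric.closedBall (0 : E3) r = r • Metric.closedBall (0 : E3) 1 := by
    rw [smul_unitClosedBall_of_nonneg hr.le]
  rw [e, ← image_smul, image_image, ← image_smul, image_image]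
  apply image_congr
  intro x _
  rw [hom_smul hr, smul_eq_mul]

lemma average_scale {r : ℝ} (hr : 0 < r) (a : ℝ) (h : ℝ → ℝ) :
    ⨍ y in Metric.ball (0 : E3) r, hom a h y = r ^ a * ⨍ y in Metric.ball (0 : E3) 1, hom a h y := by
  rw [setAverage_eq, setAverage_eq]
  have h1 := Measure.setIntegral_comp_smul (volume : Measure E3) (hom a h) (Metric.ball 0 1) hr.ne'
  rw [smul_unitBall_of_pos hr, finrank_E3] at h1
  have h2 : ∫ x in Metric.ball (0 : E3) 1, hom a h (r • x) = r ^ a * ∫ x in Metric.ball (0 : E3) 1, hom a h x := by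
    rw [← integral_const_mul]
    congr 1
    funext x
    exact hom_smul hr a h x
  rw [h2] at h1
  have h3 : (volume : Measure E3).real (Metric.ball 0 r) = r ^ 3 * (volume : Measure E3).real (Metric.ball 0 1) := by
    rw [measureReal_def, measureReal_def, Measure.addHaar_ball_of_pos _ _ hr, finrank_E3,
      ENNReal.toReal_mul, ENNReal.toReal_ofReal (by positivity)]
  rw [h3]
  have hv : (volume : Measure E3).real (Metric.ball 0 1) ≠ 0 := by
    rw [volume_ball_E3]
    have := SS_one_pos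
    positivity
  rw [abs_of_pos (by positivity)] at h1
  simp only [smul_eq_mul] at h1 ⊢
  have h4 : ∫ x in Metric.ball (0 : E3) r, hom a h x
      = r ^ 3 * (r ^ a * ∫ x in Metric.ball (0 : E3) 1, hom a h x) := by
    rw [h1]
    field_simp
  rw [h4]
  field_simp

/-- the asymptotic mean value property at the origin for a homogeneous function of degree at most 2 -/
lemma amvp_zero {d a : ℝ} {h : ℝ → ℝ} (ha : 0 < a) (ha2 : a ≤ 2)
    (H : (fun ε : ℝ => hom a h 0 -
          (((2 + d) - 2) / (2 * ((2 + d) + ((3 : ℕ) : ℝ))) *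
              (sSup (hom a h '' Metric.closedBall 0 ε) + sInf (hom a h '' Metric.closedBall 0 ε)) +
            (((3 : ℕ) : ℝ) + 2) / ((2 + d) + ((3 : ℕ) : ℝ)) * ⨍ y in Metric.ball 0 ε, hom a h y))
        =o[𝓝[>] (0 : ℝ)] (fun ε : ℝ => ε ^ 2)) :
    d / (2 * (5 + d)) * (sSup (hom a h '' Metric.closedBall 0 1) + sInf (hom a h '' Metric.closedBall 0 1))
      + 5 / (5 + d) * ⨍ y in Metric.ball (0 : E3) 1, hom a h y = 0 := by
  set A := d / (2 * (5 + d)) * (sSup (hom a h '' Metric.closedBall 0 1) + sInf (hom a h '' Metric.closedBall 0 1))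
      + 5 / (5 + d) * ⨍ y in Metric.ball (0 : E3) 1, hom a h y with hA
  have h0 : hom a h 0 = 0 := by
    unfold hom
    rw [norm_zero, Real.zero_rpow ha.ne', zero_mul]
  have e : ∀ ε : ℝ, 0 < ε → hom a h 0 -
          (((2 + d) - 2) / (2 * ((2 + d) + ((3 : ℕ) : ℝ))) *
              (sSup (hom a h '' Metric.closedBall 0 ε) + sInf (hom a h '' Metric.closedBall 0 ε)) +
            (((3 : ℕ) : ℝ) + 2) / ((2 + d) + ((3 : ℕ) : ℝ)) * ⨍ y in Metric.ball 0 ε, hom a h y)
      = - (ε ^ a * A) := by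
    intro ε hε
    rw [h0, image_scale hε, average_scale hε, Real.sSup_smul_of_nonneg (Real.rpow_nonneg hε.le a),
      Real.sInf_smul_of_nonneg (Real.rpow_nonneg hε.le a), hA]
    simp only [smul_eq_mul, Nat.cast_ofNat]
    rw [show (2 + d) - 2 = d by ring, show (2 + d) + 3 = 5 + d by ring, show (3:ℝ) + 2 = 5 by norm_num]
    ring
  by_contra hne
  have hpos : 0 < |A| := abs_pos.mpr hne
  rw [Asymptotics.isLittleO_iff] at H
  have H2 := H (c := |A| / 2) (by positivity)
  have H3 : ∀ᶠ ε : ℝ in 𝓝[>] (0:ℝ), ε < 1 := by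
    apply mem_nhdsWithin_of_mem_nhds
    exact gt_mem_nhds one_pos
  obtain ⟨ε, h1, h2, h3⟩ := (H2.and (H3.and self_mem_nhdsWithin)).exists
  have h3' : 0 < ε := h3
  rw [e ε h3', norm_neg, Real.norm_eq_abs, Real.norm_eq_abs, abs_mul,
    abs_of_pos (Real.rpow_pos_of_pos h3' a), abs_of_pos (by positivity : 0 < ε ^ 2)] at h1
  have h4 : ε ^ 2 ≤ ε ^ a := by
    rw [← Real.rpow_natCast]
    exact Real.rpow_le_rpow_of_exponent_ge h3' h2.le (by push_cast; exact ha2)
  have h5 : 0 < ε ^ 2 := by positivity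
  have h6 : ε ^ 2 * |A| ≤ |A| / 2 * ε ^ 2 := (mul_le_mul_of_nonneg_right h4 hpos.le).trans h1
  nlinarith

/-- estimates of the maximum and the minimum -/
lemma sup_inf_near {a e : ℝ} {h : ℝ → ℝ} (ha : 0 < a) (_he : 0 ≤ e)
    (hb : ∀ c ∈ Icc (0:ℝ) 1, |h c - F0 c| ≤ e) :
    |sSup (hom a (ev h) '' Metric.closedBall (0 : E3) 1) - 1| ≤ e ∧
    |sInf (hom a (ev h) '' Metric.closedBall (0 : E3) 1) - (-(1/2))| ≤ e := by
  have hev : ∀ x : E3, |ev h (cth x) - F0 (cth x)| ≤ e := by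
    intro x
    have h1 : |cth x| ∈ Icc (0:ℝ) 1 := ⟨abs_nonneg _, abs_le.mpr (cth_mem x)⟩
    have h2 := hb _ h1
    unfold ev
    unfold F0 at h2 ⊢
    rwa [sq_abs] at h2
  have hF0 : ∀ x : E3, -(1/2) ≤ F0 (cth x) ∧ F0 (cth x) ≤ 1 := by
    intro x
    have := cth_mem x
    unfold F0
    constructor
    · nlinarith [sq_nonneg (cth x)]
    · nlinarith [this.1, this.2]
  have up : ∀ y ∈ hom a (ev h) '' Metric.closedBall (0 : E3) 1, y ≤ 1 + e := by
    rintro y ⟨x, hx, rfl⟩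
    rw [mem_closedBall_zero_iff] at hx
    unfold hom
    have h1 : ‖x‖ ^ a ≤ 1 := Real.rpow_le_one (norm_nonneg x) hx ha.le
    have h0 : 0 ≤ ‖x‖ ^ a := Real.rpow_nonneg (norm_nonneg x) a
    have h2 := abs_le.mp (hev x)
    have h3 := hF0 x
    have h4 : ev h (cth x) ≤ 1 + e := by linarith
    nlinarith
  have low : ∀ y ∈ hom a (ev h) '' Metric.closedBall (0 : E3) 1, -(1/2) - e ≤ y := by
    rintro y ⟨x, hx, rfl⟩
    rw [mem_closedBall_zero_iff] at hx
    unfold hom
    have h1 : ‖x‖ ^ a ≤ 1 := Real.rpow_le_one (norm_nonneg x) hx ha.le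
    have h0 : 0 ≤ ‖x‖ ^ a := Real.rpow_nonneg (norm_nonneg x) a
    have h2 := abs_le.mp (hev x)
    have h3 := hF0 x
    have h4 : -(1/2) - e ≤ ev h (cth x) := by linarith
    nlinarith
  have n2 : ‖eb 2‖ = 1 := by simp [eb]
  have n0 : ‖eb 0‖ = 1 := by simp [eb]
  have c2 : cth (eb 2) = 1 := by unfold cth; rw [n2]; simp [eb]
  have c0 : cth (eb 0) = 0 := by unfold cth; rw [n0]; simp [eb]
  have m2 : ev h 1 ∈ hom a (ev h) '' Metric.closedBall (0 : E3) 1 := by
    refine ⟨eb 2, by rw [mem_closedBall_zero_iff, n2], ?_⟩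
    unfold hom
    rw [n2, c2, Real.one_rpow, one_mul]
  have m0 : ev h 0 ∈ hom a (ev h) '' Metric.closedBall (0 : E3) 1 := by
    refine ⟨eb 0, by rw [mem_closedBall_zero_iff, n0], ?_⟩
    unfold hom
    rw [n0, c0, Real.one_rpow, one_mul]
  have v1 : |ev h 1 - 1| ≤ e := by
    have := hb 1 ⟨zero_le_one, le_rfl⟩
    unfold ev
    rw [abs_one]
    have e1 : F0 1 = 1 := by unfold F0; norm_num
    rwa [e1] at this
  have v0 : |ev h 0 - (-(1/2))| ≤ e := by
    have := hb 0 ⟨le_rfl, zero_le_one⟩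
    unfold ev
    rw [abs_zero]
    have e1 : F0 0 = -(1/2) := by unfold F0; norm_num
    rwa [e1] at this
  have s1 := le_csSup ⟨1 + e, up⟩ m2
  have s2 := csSup_le ⟨_, m2⟩ up
  have i1 := csInf_le ⟨-(1/2) - e, low⟩ m0
  have i2 := le_csInf ⟨_, m0⟩ low
  have v1' := abs_le.mp v1
  have v0' := abs_le.mp v0
  constructor
  · rw [abs_le]; constructor <;> linarith
  · rw [abs_le]; constructor <;> linarith

end

end Pool.Agent.PHarm
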