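import Mathlib
import Pool.Agent.PHarm.Exist2

set_option autoImplicit false

open MeasureTheory Set Filter Topology

namespace Pool.Agent.PHarm

noncomputable section

/-- the limit of (g-1)/d -/
def lw (c : ℝ) : ℝ := Real.log (1 + 3 * c ^ 2) / 2

lemma one_add_pos (c : ℝ) : 0 < 1 + 3 * c ^ 2 := by positivity

lemma continuous_lw : Continuous lw := by
  unfold lw
  have : Continuous fun c : ℝ => 1 + 3 * c ^ 2 := by fun_prop
  exact (this.log fun c => (one_add_pos c).ne').div_const 2

lemma hasDerivAt_lw (c : ℝ) : HasDerivAt lw (3 * c / (1 + 3 * c ^ 2)) c := by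
  unfold lw
  have h1 : HasDerivAt (fun c : ℝ => 1 + 3 * c ^ 2) (3 * (2 * c)) c := by
    have := ((hasDerivAt_pow 2 c).const_mul 3).const_add 1
    refine this.congr_deriv ?_
    simp
  have h2 := (h1.log (one_add_pos c).ne').div_const 2
  refine h2.congr_deriv ?_
  ring

/-- the constant pi/(3 sqrt 3) -/
def aa : ℝ := Real.arctan (Real.sqrt 3) / Real.sqrt 3

lemma sqrt3_pos : 0 < Real.sqrt 3 := Real.sqrt_pos.mpr (by norm_num)

lemma hasDerivAt_at (c : ℝ) :
    HasDerivAt (fun c : ℝ => Real.arctan (Real.sqrt 3 * c) / Real.sqrt 3) (1 / (1 + 3 * c ^ 2)) c := by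
  have h1 : HasDerivAt (fun c : ℝ => Real.sqrt 3 * c) (Real.sqrt 3) c := by
    have := (hasDerivAt_id c).const_mul (Real.sqrt 3)
    simpa using this
  have h2 := (h1.arctan).div_const (Real.sqrt 3)
  refine h2.congr_deriv ?_
  have hs : Real.sqrt 3 ^ 2 = 3 := Real.sq_sqrt (by norm_num)
  have := sqrt3_pos.ne'
  have h3 := (one_add_pos c).ne'
  rw [mul_pow, hs]
  field_simp

lemma aa_eq : aa = Real.pi / (3 * Real.sqrt 3) := by
  unfold aa
  rw [Real.arctan_sqrt_three]
  have := sqrt3_pos.ne'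
  field_simp

lemma aa_bounds : 3/5 < aa ∧ aa < 61/100 := by
  rw [aa_eq]
  have h1 := Real.pi_gt_d2
  have h2 := Real.pi_lt_d2
  have h3 : Real.sqrt 3 < 1.733 := by
    rw [Real.sqrt_lt' (by norm_num)]
    norm_num
  have h4 : 1.732 < Real.sqrt 3 := by
    rw [Real.lt_sqrt (by norm_num)]
    norm_num
  constructor
  · rw [lt_div_iff₀ (by positivity)]
    nlinarith
  · rw [div_lt_iff₀ (by positivity)]
    nlinarith

lemma J1 : ∫ c in (0:ℝ)..1, lw c * F0 c = 1/2 - 2/3 * aa := by
  have h : ∀ c ∈ uIcc (0:ℝ) 1, HasDerivAt (fun c : ℝ => lw c * ((c ^ 3 - c) / 2)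
      - 3/2 * (c ^ 3 / 9 - 4 * c / 9 + 4/9 * (Real.arctan (Real.sqrt 3 * c) / Real.sqrt 3)))
      (lw c * F0 c) c := by
    intro c _
    have a1 := (hasDerivAt_lw c).mul (((hasDerivAt_pow 3 c).sub (hasDerivAt_id c)).div_const 2)
    have a2 := ((((hasDerivAt_pow 3 c).div_const 9).sub (((hasDerivAt_id c).const_mul 4).div_const 9)).add
      ((hasDerivAt_at c).const_mul (4/9))).const_mul (3/2)
    refine (a1.sub a2).congr_deriv ?_
    have := (one_add_pos c).ne'
    unfold F0
    simp only [Pi.sub_apply, Pi.pow_apply, id_eq, Nat.cast_ofNat, Nat.add_one_sub_one]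
    field_simp
    ring
  rw [intervalIntegral.integral_eq_sub_of_hasDerivAt h
    ((continuous_lw.mul continuous_F0).intervalIntegrable _ _)]
  unfold aa
  simp
  ring

lemma J2 : ∫ c in (0:ℝ)..1, lw c * (3 * c * (1 - c ^ 2) * (3 * c) - 6 * F0 c * F0 c) = 12/5 - 4 * aa := by
  have h : ∀ c ∈ uIcc (0:ℝ) 1, HasDerivAt (fun c : ℝ => lw c * ((-9 * c ^ 5 + 12 * c ^ 3 - 3 * c) / 2)
      - 3/2 * (-3 * c ^ 5 / 5 + 5 * c ^ 3 / 3 - 8 * c / 3
        + 8/3 * (Real.arctan (Real.sqrt 3 * c) / Real.sqrt 3)))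
      (lw c * (3 * c * (1 - c ^ 2) * (3 * c) - 6 * F0 c * F0 c)) c := by
    intro c _
    have a1 := (hasDerivAt_lw c).mul (((((hasDerivAt_pow 5 c).const_mul (-9)).add
      ((hasDerivAt_pow 3 c).const_mul 12)).sub ((hasDerivAt_id c).const_mul 3)).div_const 2)
    have a2 := ((((((hasDerivAt_pow 5 c).const_mul (-3)).div_const 5).add
      (((hasDerivAt_pow 3 c).const_mul 5).div_const 3)).sub
      (((hasDerivAt_id c).const_mul 8).div_const 3)).add
      ((hasDerivAt_at c).const_mul (8/3))).const_mul (3/2)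
    refine (a1.sub a2).congr_deriv ?_
    have := (one_add_pos c).ne'
    unfold F0
    simp only [Pi.sub_apply, Pi.add_apply, Pi.pow_apply, id_eq, Nat.cast_ofNat, Nat.add_one_sub_one]
    field_simp
    ring
  have hc : Continuous fun c => lw c * (3 * c * (1 - c ^ 2) * (3 * c) - 6 * F0 c * F0 c) := by
    refine continuous_lw.mul ?_
    exact (by fun_prop : Continuous fun c : ℝ => 3 * c * (1 - c ^ 2) * (3 * c)).sub
      ((continuous_const.mul continuous_F0).mul continuous_F0)
  rw [intervalIntegral.integral_eq_sub_of_hasDerivAt h (hc.intervalIntegrable _ _)]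
  unfold aa
  simp
  ring

/-- quantitative limit of the logarithmic derivative -/
lemma rpow_log_bound {w δ : ℝ} (hw : 1/2 ≤ w) (hw' : w ≤ 5) (hδ : 0 < δ) (hδ' : δ ≤ 1/4) :
    |(w ^ δ - 1) / δ - Real.log w| ≤ 4 * δ := by
  have hw0 : 0 < w := by linarith
  have hlog : |Real.log w| ≤ 2 := by
    rw [abs_le]
    constructor
    · have h1 : Real.log (1/2) ≤ Real.log w := Real.log_le_log (by norm_num) hw
      have h2 : -2 ≤ Real.log (1/2) := by
        rw [Real.le_log_iff_exp_le (by norm_num)]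
        have h3 : Real.exp (-2) = (Real.exp 2)⁻¹ := Real.exp_neg 2
        rw [h3]
        have h4 : 2 ≤ Real.exp 2 := by
          have := Real.add_one_le_exp (2:ℝ)
          linarith
        rw [one_div]
        exact inv_anti₀ (by norm_num) h4
      linarith
    · have h1 : Real.log w ≤ Real.log 5 := Real.log_le_log hw0 hw'
      have h2 : Real.log 5 ≤ 2 := by
        rw [Real.log_le_iff_le_exp (by norm_num)]
        have h3 : Real.exp 2 = Real.exp 1 * Real.exp 1 := by rw [← Real.exp_add]; norm_num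
        have h4 := Real.exp_one_gt_d9
        rw [h3]
        nlinarith
      linarith
  have hx : |δ * Real.log w| ≤ 1 := by
    rw [abs_mul, abs_of_pos hδ]
    nlinarith [abs_nonneg (Real.log w)]
  have h1 := Real.abs_exp_sub_one_sub_id_le hx
  have e1 : w ^ δ = Real.exp (δ * Real.log w) := by
    rw [Real.rpow_def_of_pos hw0, mul_comm]
  rw [e1]
  have e2 : (Real.exp (δ * Real.log w) - 1) / δ - Real.log w
      = (Real.exp (δ * Real.log w) - 1 - δ * Real.log w) / δ := by
    field_simp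
  rw [e2, abs_div, abs_of_pos hδ, div_le_iff₀ hδ]
  refine h1.trans ?_
  have h5 : (Real.log w) ^ 2 ≤ 4 := by
    have := abs_le.mp hlog
    nlinarith
  have h6 : 0 ≤ δ ^ 2 := by positivity
  nlinarith

end

end Pool.Agent.PHarm
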