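import Mathlib
import Pool.Agent.PHarm.Amvp
import Pool.Agent.PHarm.Const

set_option autoImplicit false

open MeasureTheory Set Filter Topology

namespace Pool.Agent.PHarm

noncomputable section

lemma int_close {f h : ℝ → ℝ} (hf : Continuous f) (hh : Continuous h) {C : ℝ}
    (H : ∀ c ∈ Icc (0:ℝ) 1, |f c - h c| ≤ C) :
    |(∫ c in (0:ℝ)..1, f c) - ∫ c in (0:ℝ)..1, h c| ≤ C := by
  rw [← intervalIntegral.integral_sub (hf.intervalIntegrable _ _) (hh.intervalIntegrable _ _)]
  have := intervalIntegral.norm_integral_le_of_norm_le_const (a := (0:ℝ)) (b := 1)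
    (f := fun c => f c - h c) (C := C) (by
      intro c hc
      rw [uIoc_of_le zero_le_one] at hc
      exact H c ⟨hc.1.le, hc.2⟩)
  simpa using this

lemma abs_lw_le {c : ℝ} (hc : c ∈ Icc (0:ℝ) 1) : |lw c| ≤ 1 := by
  unfold lw
  have h1 : 1 ≤ 1 + 3 * c ^ 2 := by nlinarith [sq_nonneg c]
  have h2 : 1 + 3 * c ^ 2 ≤ 4 := by nlinarith [hc.1, hc.2]
  have h3 : 0 ≤ Real.log (1 + 3 * c ^ 2) := Real.log_nonneg h1
  have h4 : Real.log (1 + 3 * c ^ 2) ≤ 2 := by
    calc Real.log (1 + 3 * c ^ 2) ≤ Real.log 4 := Real.log_le_log (by linarith) h2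
      _ ≤ 2 := by
        rw [Real.log_le_iff_le_exp (by norm_num)]
        have h5 : Real.exp 2 = Real.exp 1 * Real.exp 1 := by rw [← Real.exp_add]; norm_num
        have h6 := Real.exp_one_gt_d9
        rw [h5]
        nlinarith
  rw [abs_of_nonneg (by positivity)]
  linarith

lemma log_lip {w v : ℝ} (hw : 1/2 ≤ w) (hv : 1/2 ≤ v) : |Real.log w - Real.log v| ≤ 2 * |w - v| := by
  have hw0 : 0 < w := by linarith
  have hv0 : 0 < v := by linarith
  rw [← Real.log_div hw0.ne' hv0.ne', abs_le]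
  constructor
  · have h1 := Real.one_sub_inv_le_log_of_pos (div_pos hw0 hv0)
    have h2 : 1 - (w / v)⁻¹ = (w - v) / w := by field_simp
    rw [h2] at h1
    have h3 : -(2 * |w - v|) ≤ (w - v) / w := by
      rw [le_div_iff₀ hw0]
      have := neg_abs_le (w - v)
      nlinarith [abs_nonneg (w - v)]
    linarith
  · have h1 := Real.log_le_sub_one_of_pos (div_pos hw0 hv0)
    have h2 : w / v - 1 = (w - v) / v := by field_simp
    rw [h2] at h1
    have h3 : (w - v) / v ≤ 2 * |w - v| := by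
      rw [div_le_iff₀ hv0]
      have := le_abs_self (w - v)
      nlinarith [abs_nonneg (w - v)]
    linarith

lemma numeric {d l Q R : ℝ} (hd0 : 0 < d) (hdε : d < 1/10000) (hlε : |l - 2| < 1/10000)
    (hQlo : 1999/10000 ≤ Q) (hQup : Q ≤ 2001/10000) (hRlo : -(7/100) ≤ R) (hRup : R ≤ 3/100)
    (hKR : ((l - 2) * (l + 3) + d * (l * (l - 1))) * Q = d * R) :
    l ≤ 2 ∧ 1 < (l - 1) * (1 + d) := by
  have hl := abs_lt.mp hlε
  have hll1 : 199/100 ≤ l * (l - 1) := by nlinarith
  have hll2 : l * (l - 1) ≤ 201/100 := by nlinarith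
  have hprod : (l - 2) * (l + 3) * Q = d * (R - l * (l - 1) * Q) := by linarith
  have hq1 : 199/100 * (1999/10000) ≤ l * (l - 1) * Q :=
    mul_le_mul hll1 hQlo (by norm_num) (by linarith)
  have hq2 : l * (l - 1) * Q ≤ 201/100 * (2001/10000) :=
    mul_le_mul hll2 hQup (by linarith) (by norm_num)
  have hl2 : l ≤ 2 := by
    by_contra hcon
    push Not at hcon
    have h1 : 0 < (l - 2) * (l + 3) * Q := mul_pos (mul_pos (by linarith) (by linarith)) (by linarith)
    have h2 : R - l * (l - 1) * Q < 0 := by linarith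
    have h3 : d * (R - l * (l - 1) * Q) < 0 := mul_neg_of_pos_of_neg hd0 h2
    linarith
  have hlow : -(d * (1/2)) ≤ l - 2 := by
    have h2 : -(48/100) ≤ R - l * (l - 1) * Q := by linarith
    have h3 : d * (-(48/100)) ≤ (l - 2) * (l + 3) * Q := by
      rw [hprod]
      exact mul_le_mul_of_nonneg_left h2 hd0.le
    have h5 : 99/100 ≤ (l + 3) * Q := by nlinarith
    by_contra hcon
    push Not at hcon
    have h4 : (l - 2) * ((l + 3) * Q) ≤ (l - 2) * (99/100) :=
      mul_le_mul_of_nonpos_left h5 (by linarith)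
    have h6 : (l - 2) * (l + 3) * Q = (l - 2) * ((l + 3) * Q) := by ring
    rw [h6] at h3
    linarith
  refine ⟨hl2, ?_⟩
  have h1 : (l - 1) * (1 + d) = 1 + ((l - 2) + d) + (l - 2) * d := by ring
  have h2 : -(1/10000) * d ≤ (l - 2) * d := mul_le_mul_of_nonneg_right (by linarith) hd0.le
  rw [h1]
  linarith

set_option maxHeartbeats 2000000 in
/-- existence of a good solution of the profile problem -/
theorem exists_good : ∃ d l : ℝ, ∃ F G g : ℝ → ℝ, 0 < d ∧ 1 < l ∧ l ≤ 2 ∧
    1 < (l - 1) * (1 + d) ∧ Prof d l F G g ∧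
    (∀ y ∈ Icc (0:ℝ) 1, |F y - F0 y| ≤ 1/10000) ∧
    1/100 < (30 / (l + 3)) * (-(∫ c in (0:ℝ)..1, F c) / d) - 1/2 := by
  obtain ⟨d, l, hd0, hdε, hlε, F, G, g, hG, hg, hF, hF1, hG0, hFn, hGn, hgd, hE⟩ :=
    exist_main (1/10000) (by norm_num)
  have P : Prof d l F G g := ⟨hG, hg, hF, hG0, hgd, hE⟩
  have hFc : Continuous F := P.Fcont
  have hl := abs_lt.mp hlε
  have hl1 : 1 < l := by linarith
  -- w is close to 1 + 3c^2
  have hw : ∀ c ∈ Icc (0:ℝ) 1,
      |(l ^ 2 * F c ^ 2 + (1 - c ^ 2) * G c ^ 2) - (1 + 3 * c ^ 2)| ≤ 27/10000 := by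
    intro c hc
    have hF' := hFn c hc
    have hG' := hGn c hc
    have hF0 := abs_F0_le hc
    have e : (l ^ 2 * F c ^ 2 + (1 - c ^ 2) * G c ^ 2) - (1 + 3 * c ^ 2)
        = (l * F c - 2 * F0 c) * (l * F c + 2 * F0 c) + (1 - c ^ 2) * ((G c - 3 * c) * (G c + 3 * c)) := by
      unfold F0; ring
    have a1 : |l * F c - 2 * F0 c| ≤ 4/10000 := by
      have e1 : l * F c - 2 * F0 c = (l - 2) * F0 c + l * (F c - F0 c) := by ring
      rw [e1]
      refine (abs_add_le _ _).trans ?_
      rw [abs_mul, abs_mul]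
      have t1 : |l - 2| * |F0 c| ≤ 1/10000 * 1 := mul_le_mul hlε.le hF0 (abs_nonneg _) (by norm_num)
      have t2 : |l| * |F c - F0 c| ≤ 3 * (1/10000) := by
        apply mul_le_mul _ hF' (abs_nonneg _) (by norm_num)
        rw [abs_of_pos (by linarith)]; linarith
      linarith
    have a2 : |l * F c + 2 * F0 c| ≤ 5 := by
      have e1 : l * F c + 2 * F0 c = (l * F c - 2 * F0 c) + 4 * F0 c := by ring
      rw [e1]
      refine (abs_add_le _ _).trans ?_
      rw [abs_mul]
      have : |(4:ℝ)| = 4 := abs_of_pos (by norm_num)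
      rw [this]
      linarith
    have a3 : |G c + 3 * c| ≤ 7 := by
      have h1 := abs_le.mp hG'
      rw [abs_le]
      constructor <;> linarith [hc.1, hc.2]
    have a4 : |1 - c ^ 2| ≤ 1 := by
      rw [abs_le]
      constructor <;> nlinarith [hc.1, hc.2]
    rw [e]
    refine (abs_add_le _ _).trans ?_
    rw [abs_mul, abs_mul, abs_mul]
    have t1 : |l * F c - 2 * F0 c| * |l * F c + 2 * F0 c| ≤ 4/10000 * 5 :=
      mul_le_mul a1 a2 (abs_nonneg _) (by norm_num)
    have t2 : |G c - 3 * c| * |G c + 3 * c| ≤ 1/10000 * 7 :=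
      mul_le_mul hG' a3 (abs_nonneg _) (by norm_num)
    have t3 : |1 - c ^ 2| * (|G c - 3 * c| * |G c + 3 * c|) ≤ 1 * (1/10000 * 7) :=
      mul_le_mul a4 t2 (by positivity) (by norm_num)
    linarith
  -- the quotient a
  set a : ℝ → ℝ := fun c => (g c - 1) / d with ha
  have hac : Continuous a := (hg.sub continuous_const).div_const d
  have haw : ∀ c ∈ Icc (0:ℝ) 1, |a c - lw c| ≤ 28/10000 := by
    intro c hc
    have hw' := hw c hc
    set w := l ^ 2 * F c ^ 2 + (1 - c ^ 2) * G c ^ 2 with hwdef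
    have hw2 := abs_le.mp hw'
    have hlow : 1/2 ≤ w := by nlinarith [sq_nonneg c]
    have hup : w ≤ 5 := by nlinarith [hc.1, hc.2]
    have h1 := rpow_log_bound hlow hup (δ := d / 2) (by positivity) (by linarith)
    have h2 : a c = ((w ^ (d / 2) - 1) / (d / 2)) / 2 := by
      rw [ha]
      simp only
      rw [hgd c hc, ← hwdef]
      field_simp
    have h3 := log_lip hlow (show (1:ℝ)/2 ≤ 1 + 3 * c ^ 2 by nlinarith [sq_nonneg c])
    have h4 : a c - lw c = ((w ^ (d / 2) - 1) / (d / 2) - Real.log w) / 2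
        + (Real.log w - Real.log (1 + 3 * c ^ 2)) / 2 := by
      rw [h2]; unfold lw; ring
    rw [h4]
    refine (abs_add_le _ _).trans ?_
    rw [abs_div, abs_div, abs_two]
    linarith
  -- constants
  have hK : |KK d l - 6| ≤ 8/10000 := by
    have e : KK d l - 6 = (l - 2) * (l + 3) + d * (l * (l - 1)) := by unfold KK; ring
    rw [e, abs_le]
    have h1 : l * (l - 1) ≤ 21/10 := by nlinarith
    have h2 : 0 ≤ l * (l - 1) := mul_nonneg (by linarith) (by linarith)
    constructor
    · nlinarith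
    · nlinarith
  have hFb : ∀ c ∈ Icc (0:ℝ) 1, |F c| ≤ 101/100 := by
    intro c hc
    have h1 := abs_le.mp (hFn c hc)
    have h2 := abs_le.mp (abs_F0_le hc)
    rw [abs_le]
    constructor <;> linarith
  -- integrals
  have I1 : |(∫ c in (0:ℝ)..1, a c * F c) - (1/2 - 2/3 * aa)| ≤ 57/10000 := by
    rw [← J1]
    apply int_close (f := fun c => a c * F c) (h := fun c => lw c * F0 c) (hac.mul hFc)
      (continuous_lw.mul continuous_F0)
    intro c hc
    have e : a c * F c - lw c * F0 c = (a c - lw c) * F c + lw c * (F c - F0 c) := by ring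
    rw [e]
    refine (abs_add_le _ _).trans ?_
    rw [abs_mul, abs_mul]
    have t1 : |a c - lw c| * |F c| ≤ 28/10000 * 2 :=
      mul_le_mul (haw c hc) ((hFb c hc).trans (by norm_num)) (abs_nonneg _) (by norm_num)
    have t2 : |lw c| * |F c - F0 c| ≤ 1 * (1/10000) :=
      mul_le_mul (abs_lw_le hc) (hFn c hc) (abs_nonneg _) (by norm_num)
    linarith
  set Y : ℝ → ℝ := fun c => 3 * c * (1 - c ^ 2) * G c - KK d l * F c * F0 c with hY
  have hYc : Continuous Y := by
    refine Continuous.sub ?_ ?_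
    · exact (by fun_prop : Continuous fun c : ℝ => 3 * c * (1 - c ^ 2)).mul hG
    · exact (continuous_const.mul hFc).mul continuous_F0
  have hY0c : Continuous fun c => lw c * (3 * c * (1 - c ^ 2) * (3 * c) - 6 * F0 c * F0 c) := by
    refine continuous_lw.mul ?_
    exact (by fun_prop : Continuous fun c : ℝ => 3 * c * (1 - c ^ 2) * (3 * c)).sub
      ((continuous_const.mul continuous_F0).mul continuous_F0)
  have I2 : |(∫ c in (0:ℝ)..1, a c * Y c) - (12/5 - 4 * aa)| ≤ 298/10000 := by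
    rw [← J2]
    apply int_close (f := fun c => a c * Y c) (hac.mul hYc) hY0c
    intro c hc
    set Y0 := 3 * c * (1 - c ^ 2) * (3 * c) - 6 * F0 c * F0 c with hY0
    have hF0 := abs_F0_le hc
    have b1 : |Y c - Y0| ≤ 18/10000 := by
      have e : Y c - Y0 = 3 * c * (1 - c ^ 2) * (G c - 3 * c)
          - ((KK d l - 6) * F c + 6 * (F c - F0 c)) * F0 c := by
        rw [hY, hY0]; ring
      rw [e]
      refine (abs_sub _ _).trans ?_
      rw [abs_mul (3 * c * (1 - c ^ 2)), abs_mul ((KK d l - 6) * F c + 6 * (F c - F0 c))]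
      have s1 : |3 * c * (1 - c ^ 2)| ≤ 3 := by
        have p1 : 0 ≤ 1 - c ^ 2 := by nlinarith [hc.1, hc.2]
        have p2 : 1 - c ^ 2 ≤ 1 := by nlinarith [hc.1, hc.2]
        rw [abs_of_nonneg (mul_nonneg (by linarith [hc.1]) p1)]
        have p3 : c * (1 - c ^ 2) ≤ 1 * 1 := mul_le_mul hc.2 p2 p1 zero_le_one
        nlinarith
      have s2 : |(KK d l - 6) * F c + 6 * (F c - F0 c)| ≤ 15/10000 := by
        refine (abs_add_le _ _).trans ?_
        rw [abs_mul, abs_mul, abs_of_pos (by norm_num : (0:ℝ) < 6)]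
        have q1 : |KK d l - 6| * |F c| ≤ 8/10000 * (101/100) :=
          mul_le_mul hK (hFb c hc) (abs_nonneg _) (by norm_num)
        have q2 := hFn c hc
        linarith
      have s3 : |3 * c * (1 - c ^ 2)| * |G c - 3 * c| ≤ 3 * (1/10000) :=
        mul_le_mul s1 (hGn c hc) (abs_nonneg _) (by norm_num)
      have s4 : |(KK d l - 6) * F c + 6 * (F c - F0 c)| * |F0 c| ≤ 15/10000 * 1 :=
        mul_le_mul s2 hF0 (abs_nonneg _) (by norm_num)
      linarith
    have b2 : |Y0| ≤ 9 := by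
      rw [hY0, abs_le]
      have p0 := abs_le.mp hF0
      have p1 : 0 ≤ c ^ 2 * (1 - c ^ 2) := mul_nonneg (sq_nonneg c) (by nlinarith [hc.1, hc.2])
      have p2 : c ^ 2 * (1 - c ^ 2) ≤ 1/4 := by nlinarith [sq_nonneg (c ^ 2 - 1/2)]
      have p3 : F0 c * F0 c ≤ 1 := by nlinarith
      have p4 : 0 ≤ F0 c * F0 c := mul_self_nonneg _
      constructor <;> nlinarith
    have b3 : |Y c| ≤ 10 := by
      have e : Y c = (Y c - Y0) + Y0 := by ring
      rw [e]
      refine (abs_add_le _ _).trans ?_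
      linarith
    have e : a c * Y c - lw c * Y0 = (a c - lw c) * Y c + lw c * (Y c - Y0) := by ring
    rw [e]
    refine (abs_add_le _ _).trans ?_
    rw [abs_mul, abs_mul]
    have t1 : |a c - lw c| * |Y c| ≤ 28/10000 * 10 :=
      mul_le_mul (haw c hc) b3 (abs_nonneg _) (by norm_num)
    have t2 : |lw c| * |Y c - Y0| ≤ 1 * (18/10000) :=
      mul_le_mul (abs_lw_le hc) b1 (abs_nonneg _) (by norm_num)
    linarith
  -- the identity
  have hid := identity (K := KK d l) hG hg hF hE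
  rw [hG0, mul_zero, zero_div] at hid
  have e1 : ∫ c in (0:ℝ)..1, (g c - 1) * (3 * c * (1 - c ^ 2) * G c - KK d l * F c * F0 c)
      = d * ∫ c in (0:ℝ)..1, a c * Y c := by
    rw [← intervalIntegral.integral_const_mul]
    apply intervalIntegral.integral_congr
    intro c _
    simp only [ha, hY]
    field_simp
  rw [e1] at hid
  have hFF := integral_FF0_close hFc hFn
  set Q := ∫ c in (0:ℝ)..1, F c * F0 c with hQ
  set R := ∫ c in (0:ℝ)..1, a c * Y c with hR
  have hQ' := abs_le.mp hFF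
  have hR' := abs_le.mp I2
  obtain ⟨haa1, haa2⟩ := aa_bounds
  have hKR : (KK d l - 6) * Q = d * R := by linarith
  have hKexp : KK d l - 6 = (l - 2) * (l + 3) + d * (l * (l - 1)) := by unfold KK; ring
  rw [hKexp] at hKR
  have hRlo : -(7/100) ≤ R := by linarith
  have hRup : R ≤ 3/100 := by linarith
  have hQlo : 1999/10000 ≤ Q := by linarith
  have hQup : Q ≤ 2001/10000 := by linarith
  obtain ⟨hl2, hs⟩ := numeric hd0 hdε hlε hQlo hQup hRlo hRup hKR
  -- the mean of F
  have hint := P.int_zero hl1 hd0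
  have hmean : -(∫ c in (0:ℝ)..1, F c) / d = ∫ c in (0:ℝ)..1, a c * F c := by
    have h1 : ∫ c in (0:ℝ)..1, a c * F c = ((∫ c in (0:ℝ)..1, g c * F c) - ∫ c in (0:ℝ)..1, F c) / d := by
      have hgF : Continuous fun c => g c * F c := hg.mul hFc
      rw [← intervalIntegral.integral_sub (hgF.intervalIntegrable _ _)
        (hFc.intervalIntegrable _ _), ← intervalIntegral.integral_div]
      apply intervalIntegral.integral_congr
      intro c _
      simp only [ha]
      field_simp
    rw [h1, hint, zero_sub]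
  refine ⟨d, l, F, G, g, hd0, hl1, hl2, hs, P, hFn, ?_⟩
  rw [hmean]
  have hI1 := abs_le.mp I1
  set m := ∫ c in (0:ℝ)..1, a c * F c
  have hm : 876/10000 ≤ m := by linarith
  have h6 : 6 ≤ 30 / (l + 3) := by
    rw [le_div_iff₀ (by linarith)]
    linarith
  have h7 : 6 * (876/10000) ≤ 30 / (l + 3) * m :=
    mul_le_mul h6 hm (by norm_num) (by positivity)
  linarith

end

end Pool.Agent.PHarm
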