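import Mathlib
import Pool.Agent.PHarm.Final

set_option autoImplicit false

open MeasureTheory Set Filter Topology

namespace Pool.Agent.PHarm

noncomputable section

lemma integral_ev {F : ℝ → ℝ} (hF : Continuous F) :
    (∫ t in (-1:ℝ)..1, ev F t) / 2 = ∫ t in (0:ℝ)..1, F t := by
  have hc : Continuous fun t => F |t| := continuous_ev hF
  have h1 : ∫ t in (0:ℝ)..1, F |t| = ∫ t in (0:ℝ)..1, F t := by
    apply intervalIntegral.integral_congr
    intro t ht
    rw [uIcc_of_le zero_le_one] at ht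
    simp only
    rw [abs_of_nonneg ht.1]
  have h2 := integral_even_left (m := F) 0
  simp only [neg_zero] at h2
  unfold ev
  rw [← intervalIntegral.integral_add_adjacent_intervals (hc.intervalIntegrable (-1) 0)
    (hc.intervalIntegrable 0 1), h2, h1]
  ring

theorem main :
    ¬ (∀ p : ℝ, 1 < p → ∀ u : E3 → ℝ, ContDiff ℝ 1 u →
      (∀ φ : E3 → ℝ, ContDiff ℝ 1 φ → HasCompactSupport φ →
        ∫ y, ‖gradient u y‖ ^ (p - 2) * inner ℝ (gradient u y) (gradient φ y) = 0) →
      (fun ε : ℝ => u 0 -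
          ((p - 2) / (2 * (p + ((3:ℕ) : ℝ))) *
              (sSup (u '' Metric.closedBall 0 ε) + sInf (u '' Metric.closedBall 0 ε)) +
            (((3:ℕ) : ℝ) + 2) / (p + ((3:ℕ) : ℝ)) * ⨍ y in Metric.ball 0 ε, u y))
        =o[𝓝[>] (0 : ℝ)] (fun ε : ℝ => ε ^ 2)) := by
  intro H
  obtain ⟨d, l, F, G, g, hd, hl, hl2, hs, P, hFn, hfin⟩ := exists_good
  have h1 := H (2 + d) (by linarith) (uu l F) (P.contDiff_uu hl) (by
    intro φ hφ hc
    rw [show (2 + d) - 2 = d by ring]
    exact P.weak hl hd hs hφ hc)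
  have h2 := amvp_zero (d := d) (a := l) (h := ev F) (by linarith) hl2 h1
  obtain ⟨s1, s2⟩ := sup_inf_near (a := l) (e := 1/10000) (h := F) (by linarith) (by norm_num) hFn
  rw [average_ball_hom (by linarith) (continuous_ev P.Fcont), integral_ev P.Fcont] at h2
  set S := sSup (hom l (ev F) '' Metric.closedBall (0 : E3) 1)
  set I := sInf (hom l (ev F) '' Metric.closedBall (0 : E3) 1)
  set m := ∫ t in (0:ℝ)..1, F t
  have h3 : S + I = 30 / (l + 3) * (-m / d) := by
    have hd5 : (5 + d) ≠ 0 := by linarith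
    have hl3 : (l + 3) ≠ 0 := by linarith
    field_simp at h2 ⊢
    linarith
  have t1 := abs_le.mp s1
  have t2 := abs_le.mp s2
  linarith

end

end Pool.Agent.PHarm
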